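import Pool.Agent.Helper22.AE.Defs

/-!
# EX (MP_fb29e9_nt, AlmostEveryOval v3): the exact law of the extremes. Definitions

See README.md in this folder.
-/

open MeasureTheory Real Set Filter Topology

set_option autoImplicit false

namespace Pool.Agent.Helper93.EX

open Pool.Agent.Helper22.AE (rho nk tk box)

/-- the first `J` harmonics of the wave -/
noncomputable def fJ (J : ℕ) (x : ℝ) : ℝ :=
  1 / π * ∑ j ∈ Finset.range J, ((j + 1 : ℕ) : ℝ) ^ (-(3 / 2) : ℝ) * cos (2 * π * (((j + 1 : ℕ) : ℝ) * x) - 3 * π / 4)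

/-- the wave -/
noncomputable def fI (x : ℝ) : ℝ :=
  1 / π * ∑' j : ℕ, ((j + 1 : ℕ) : ℝ) ^ (-(3 / 2) : ℝ) * cos (2 * π * (((j + 1 : ℕ) : ℝ) * x) - 3 * π / 4)

/-- the logarithm of the Laplace transform of the law of `g` at a uniform point -/
noncomputable def La (g : ℝ → ℝ) (s : ℝ) : ℝ := log (∫ x in (0 : ℝ)..1, exp (s * g x))

/-- the integral in the constants -/
noncomputable def Jc (σ : ℝ) : ℝ := ∫ r in Ioi (0 : ℝ), La fI (σ * r ^ (-(3 / 2) : ℝ)) * r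

/-- the constants `κ₊` (`σ = 1`) and `κ₋` (`σ = -1`) -/
noncomputable def kap (σ : ℝ) : ℝ := 4 * (2 / π ^ 2 * Jc σ) ^ (3 / 4 : ℝ)

/-- the affine perimeter -/
noncomputable def aff (H : ℝ → ℝ) : ℝ := ∫ t in (0 : ℝ)..(2 * π), rho H t ^ (2 / 3 : ℝ)

/-- the amplitude of the frequency `k` -/
noncomputable def ak (H : ℝ → ℝ) (k : ℤ × ℤ) : ℝ := nk k ^ (-(3 / 2) : ℝ) * sqrt (rho H (tk k))

/-- the maximum norm -/
def sn (k : ℤ × ℤ) : ℕ := max k.1.natAbs k.2.natAbs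

/-- the primitive vectors of maximum norm `< N` -/
noncomputable def prim (N : ℕ) : Finset (ℤ × ℤ) := (box N).filter fun k => Int.gcd k.1 k.2 = 1 ∧ sn k < N

/-- the exponent of the Laplace transform of the sum `Mx` for uniform phases -/
noncomputable def CX (σ : ℝ) (H : ℝ → ℝ) (N : ℕ) (lam : ℝ) : ℝ :=
  ∑ k ∈ prim N, La (fJ ((N - 1) / sn k)) (σ * lam * ak H k)

/-- the sum of the frequencies of maximum norm `< N`, divided by `sqrt R`; grouped by primitive vectors -/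
noncomputable def Mx (H : ℝ → ℝ) (N : ℕ) (R : ℝ) (c : ℝ × ℝ) : ℝ :=
  ∑ k ∈ prim N, ak H k * fJ ((N - 1) / sn k) (R * (nk k * H (tk k)) + ((k.1 : ℝ) * c.1 + (k.2 : ℝ) * c.2))

/-- the cut: about `2 ^ a * sqrt p` -/
def NN (a p : ℕ) : ℕ := 2 ^ (Nat.log 2 p / 2 + a)

/-- the logarithm of `2 ^ p` -/
noncomputable def Lx (p : ℕ) : ℝ := p * log 2

end Pool.Agent.Helper93.EX
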