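import Pool.Agent.Helper93.EX.Lower4
import Pool.Agent.Helper93.EX.Ae
import Pool.Agent.Helper90.EX.Comb4

/-!
# EX4: the law of the large values, almost surely
-/

open MeasureTheory Set Real Filter

set_option autoImplicit false

namespace Pool.Agent.Helper93.EX

open Pool.Agent.Helper93.AO
open Pool.Agent.Helper22.AE (rho nk tk box cz)
open Pool.Agent.Helper88.EX (idf Es Es_one Es_neg Es_le ErO trunc_open)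

/-- the bounds of the measure for all rational parameters -/
theorem upper4_all {H₀ : ℝ → ℝ} (h2 : ContDiff ℝ 2 H₀) (hp : Function.Periodic H₀ (2 * π)) {τ : ℝ} (hτ : τ ≠ 0) {σ : ℝ} (hσ : |σ| = 1) :
    ∀ᵐ ω ∂(PP nu1), ∀ (ell s ε : ℚ) (a : ℕ), 0 < ell → 0 < s → 0 < ε → ∃ p₀ : ℕ, ∀ p : ℕ, p₀ ≤ p → ∀ c : ℝ × ℝ,
      volume.real {R : ℝ | R ∈ Icc ((2 : ℝ) ^ p) (2 ^ (p + 1)) ∧ CX σ (Hx H₀ τ ω) (NN a p) (ell * Lx p ^ (3 / 4 : ℝ)) + s * Lx p ≤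
        σ * (ell * Lx p ^ (3 / 4 : ℝ)) * Mx (Hx H₀ τ ω) (NN a p) R c} ≤ 2 ^ ((1 - s + ε) * p : ℝ) := by
  refine ae_all_iff.2 fun ell => ae_all_iff.2 fun s => ae_all_iff.2 fun ε => ae_all_iff.2 fun a => ?_
  by_cases h1 : 0 < ell
  swap
  · exact Eventually.of_forall fun ω h => absurd h h1
  by_cases h3 : 0 < ε
  swap
  · exact Eventually.of_forall fun ω _ _ h => absurd h h3
  filter_upwards [upper4 h2 hp hτ hσ a (ell := (ell : ℝ)) (s := (s : ℝ)) (ε := (ε : ℝ)) (by exact_mod_cast h1) (by exact_mod_cast h3)] with ω hω _ _ _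
  exact hω

theorem lower4_all {H₀ : ℝ → ℝ} (h2 : ContDiff ℝ 2 H₀) (hp : Function.Periodic H₀ (2 * π)) {τ : ℝ} (hτ : τ ≠ 0) {σ : ℝ} (hσ : |σ| = 1) :
    ∀ᵐ ω ∂(PP nu1), ∀ (ell h m e e1 e2 e3 s : ℚ) (a j : ℕ), 0 < h → h < ell → 0 < m → 0 < e → 0 < e1 → 0 < e2 → e2 ≤ 1 → 0 < e3 → s ≤ 1 - e2 →
      (2 / e ^ 2 + ell ^ 2 / e2) * e1 ^ 2 ≤ e2 / 4 → j < 2 →
      ∃ p₀ : ℕ, ∀ p : ℕ, p₀ ≤ p →
        CX σ (Hx H₀ τ ω) (NN a p) ((ell + h) * Lx p ^ (3 / 4 : ℝ)) - CX σ (Hx H₀ τ ω) (NN a p) (ell * Lx p ^ (3 / 4 : ℝ)) ≤ (h * (m + e1) - e3) * Lx p →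
        CX σ (Hx H₀ τ ω) (NN a p) ((ell - h) * Lx p ^ (3 / 4 : ℝ)) - CX σ (Hx H₀ τ ω) (NN a p) (ell * Lx p ^ (3 / 4 : ℝ)) ≤ (-(h * (m - e1)) - e3) * Lx p →
        ell * m * Lx p - CX σ (Hx H₀ τ ω) (NN a p) (ell * Lx p ^ (3 / 4 : ℝ)) ≤ s * Lx p →
        ∀ c : ℝ × ℝ, 2 ^ ((1 - s - e2) * p : ℝ) ≤
          volume.real {R : ℝ | R ∈ Icc ((2 : ℝ) ^ p * (1 + j / 2)) (2 ^ p * (1 + (j + 1) / 2)) ∧ (m - e) * Lx p ^ (1 / 4 : ℝ) ≤ σ * Mx (Hx H₀ τ ω) (NN a p) R c} := by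
  refine ae_all_iff.2 fun ell => ae_all_iff.2 fun h => ae_all_iff.2 fun m => ae_all_iff.2 fun e => ae_all_iff.2 fun e1 => ae_all_iff.2 fun e2 => ae_all_iff.2 fun e3 =>
    ae_all_iff.2 fun s => ae_all_iff.2 fun a => ae_all_iff.2 fun j => ?_
  by_cases hC : 0 < h ∧ h < ell ∧ 0 < e ∧ 0 < e2 ∧ e2 ≤ 1 ∧ 0 < e3 ∧ s ≤ 1 - e2 ∧ (2 / e ^ 2 + ell ^ 2 / e2) * e1 ^ 2 ≤ e2 / 4 ∧ j < 2
  swap
  · exact Eventually.of_forall fun ω a1 a2 _ a4 _ a6 a7 a8 a9 a10 a11 => absurd ⟨a1, a2, a4, a6, a7, a8, a9, a10, a11⟩ hC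
  obtain ⟨a1, a2, a4, a6, a7, a8, a9, a10, a11⟩ := hC
  filter_upwards [lower4 h2 hp hτ hσ a j a11 (ell := (ell : ℝ)) (h := (h : ℝ)) (m := (m : ℝ)) (e := (e : ℝ)) (e1 := (e1 : ℝ)) (e2 := (e2 : ℝ)) (e3 := (e3 : ℝ)) (s := (s : ℝ))
    (by exact_mod_cast a1) (by exact_mod_cast a2) (by exact_mod_cast a4) (by exact_mod_cast a6) (by exact_mod_cast a7) (by exact_mod_cast a8) (by exact_mod_cast a9)
    (by exact_mod_cast a10)] with ω hω _ _ _ _ _ _ _ _ _ _ _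
  exact hω

/-- the law of the large values for one oval, at dyadic scales -/
def Law4 (σ : ℝ) (H : ℝ → ℝ) : Prop :=
  (∀ t : ℝ, 0 < t → ∀ ε : ℝ, 0 < ε → ∃ p₀ : ℕ, ∀ p : ℕ, p₀ ≤ p → ∀ c : ℝ × ℝ,
    LV (fun R => Es σ H c R) t (2 ^ p) (2 ^ (p + 1)) ≤ 2 ^ ((1 - (t / (kap σ * aff H ^ (3 / 4 : ℝ))) ^ 4 + ε) * p : ℝ)) ∧
  (∀ t : ℝ, 0 < t → t < kap σ * aff H ^ (3 / 4 : ℝ) → ∀ ε : ℝ, 0 < ε → ∃ p₀ : ℕ, ∀ p : ℕ, p₀ ≤ p → ∀ j : ℕ, j < 2 → ∀ c : ℝ × ℝ,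
    2 ^ ((1 - (t / (kap σ * aff H ^ (3 / 4 : ℝ))) ^ 4 - ε) * p : ℝ) ≤ LV (fun R => Es σ H c R) t (2 ^ p * (1 + j / 2)) (2 ^ p * (1 + (j + 1) / 2)))

theorem LV_le_LVc {F G : ℝ → ℝ} (h : ∀ x, F x ≤ G x) (t A B : ℝ) : LV F t A B ≤ LVc G t A B :=
  measureReal_mono (fun R hR => ⟨hR.1, hR.2.le.trans (h R)⟩) (((measure_mono fun R hR => hR.1).trans_lt measure_Icc_lt_top).ne)

theorem as_law4 {H₀ : ℝ → ℝ} (h2 : ContDiff ℝ 2 H₀) (hp : Function.Periodic H₀ (2 * π)) {τ : ℝ} (hτ : τ ≠ 0) {σ : ℝ} (hσ : σ = 1 ∨ σ = -1) :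
    ∀ᵐ ω ∂(PP nu1), (∀ t, 0 < Hx H₀ τ ω t + deriv (deriv (Hx H₀ τ ω)) t) → Law4 σ (Hx H₀ τ ω) := by
  have hσ1 : |σ| = 1 := by rcases hσ with rfl | rfl <;> simp
  obtain ⟨G, K, hK, hG, hr, hc, hd⟩ := stek h2 hp
  filter_upwards [as_unif nu1_rapid hτ hK hG hr, upper4_all h2 hp hτ hσ1, lower4_all h2 hp hτ hσ1] with ω hω hU hL hpos
  have hG2 : ∀ p, ContDiff ℝ 2 (G p) := fun p => (hG p).smooth.of_le (by norm_num)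
  have hH2 := hx_cd h2 τ ω
  have hHp := hx_pd hp τ ω
  have hT : ∀ ε : ℝ, 0 < ε → ∃ a₀ : ℕ, ∀ a : ℕ, a₀ ≤ a → ∃ p₀ : ℕ, ∀ p : ℕ, p₀ ≤ p → ∀ R ∈ Icc ((2 : ℝ) ^ p) (2 ^ (p + 1)), ∀ c : ℝ × ℝ,
      |Er idf (Hx H₀ τ ω) c R - sqrt R * Mx (Hx H₀ τ ω) (NN a p) R c| ≤ ε * (sqrt R * Lx p ^ (1 / 4 : ℝ)) := by
    intro ε hε
    refine trunc hH2 hHp hpos (G := fun p => Hx (G p) τ ω) (K := K) (fun p => hx_cd (hG2 p) τ ω) (fun p => hx_pd (hG p).per τ ω) ?_ ?_ hω hε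
    · intro p t
      have e : Hx (G p) τ ω t - Hx H₀ τ ω t = G p t - H₀ t := by
        unfold Hx
        ring
      rw [e]
      exact hc p t
    · intro ε hε
      obtain ⟨p₀, h⟩ := hd ε hε
      refine ⟨p₀, fun p hp' t => ?_⟩
      rw [hx_rho (hG2 p), hx_rho h2]
      have e : rho (G p) t + τ * rho (WW ω) t - (rho H₀ t + τ * rho (WW ω) t) = rho (G p) t - rho H₀ t := by ring
      rw [e]
      exact h p hp' t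
  have hJ := Jc_pos hσ
  have hA := aff_pos hH2 hpos
  have hC : 0 < 6 / π ^ 2 * aff (Hx H₀ τ ω) * Jc σ := by positivity
  have hR : ∀ ell : ℝ, 0 < ell → ∀ ε : ℝ, 0 < ε → ∃ a₀ : ℕ, ∀ a : ℕ, a₀ ≤ a → ∃ p₀ : ℕ, ∀ p : ℕ, p₀ ≤ p →
      |CX σ (Hx H₀ τ ω) (NN a p) (ell * Lx p ^ (3 / 4 : ℝ)) / Lx p - 6 / π ^ 2 * aff (Hx H₀ τ ω) * Jc σ * ell ^ (4 / 3 : ℝ)| ≤ ε :=
    fun ell hl ε hε => cx_lim hH2 hHp hpos hσ hl hε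
  have hk : 4 * (6 / π ^ 2 * aff (Hx H₀ τ ω) * Jc σ / 3) ^ (3 / 4 : ℝ) = kap σ * aff (Hx H₀ τ ω) ^ (3 / 4 : ℝ) := by
    unfold kap
    have e : 6 / π ^ 2 * aff (Hx H₀ τ ω) * Jc σ / 3 = 2 / π ^ 2 * Jc σ * aff (Hx H₀ τ ω) := by ring
    rw [e, mul_rpow (by positivity) hA.le, mul_assoc]
  have key : ∀ E : ℝ → ℝ × ℝ → ℝ, (∀ ε : ℝ, 0 < ε → ∃ a₀ : ℕ, ∀ a : ℕ, a₀ ≤ a → ∃ p₀ : ℕ, ∀ p : ℕ, p₀ ≤ p → ∀ R ∈ Icc ((2 : ℝ) ^ p) (2 ^ (p + 1)), ∀ c : ℝ × ℝ,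
      |E R c - sqrt R * Mx (Hx H₀ τ ω) (NN a p) R c| ≤ ε * (sqrt R * Lx p ^ (1 / 4 : ℝ))) → (∀ R c, σ * E R c = Es σ (Hx H₀ τ ω) c R) → Law4 σ (Hx H₀ τ ω) := by
    intro E hE hEs
    obtain ⟨c1, c2⟩ := comb4 (E := E) hσ hC hE hR hU hL
    rw [hk] at c1 c2
    refine ⟨fun t ht ε hε => ?_, fun t ht htT ε hε => ?_⟩
    · obtain ⟨p₀, h⟩ := c1 t ht ε hε
      refine ⟨p₀, fun p hpp c => (LV_le_LVc (fun R => (hEs R c).symm.le) _ _ _).trans (h p hpp c)⟩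
    · obtain ⟨p₀, h⟩ := c2 t ht htT ε hε
      refine ⟨p₀, fun p hpp j hj c => ?_⟩
      have h1 := h p hpp j hj c
      simp only [hEs] at h1
      exact h1
  rcases hσ with rfl | rfl
  · exact key (fun R c => ErO idf (Hx H₀ τ ω) c R) (trunc_open ⟨hH2, hHp, hpos⟩ hT) (fun R c => by rw [Es_one, one_mul])
  · exact key (fun R c => Er idf (Hx H₀ τ ω) c R) hT (fun R c => by rw [Es_neg, neg_one_mul])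

end Pool.Agent.Helper93.EX
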