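import Pool.Agent.Helper93.EX.Unif

/-!
# EX: the second moment over many times
-/

open MeasureTheory Set Real
open scoped ENNReal

set_option autoImplicit false

namespace Pool.Agent.Helper93.EX

open Pool.Agent.Helper93.AO

variable {κ : Type} [Fintype κ] [DecidableEq κ]

/-- the phases at the time `R` -/
noncomputable def Ph (s s' u w : κ → ℝ) (c : κ → ℕ × ℕ) (R : ℝ) (x : Om) (k : κ) : ℝ :=
  R * s k * ((x (c k)).1 : ℝ) + R * s' k * ((x (c k)).2 : ℝ) + (R * u k + w k)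

omit [Fintype κ] [DecidableEq κ] in
theorem Ph_meas (s s' u w : κ → ℝ) (c : κ → ℕ × ℕ) (R : ℝ) : Measurable (Ph s s' u w c R) := by
  rw [measurable_pi_iff]
  intro k
  unfold Ph
  have h : Measurable fun x : Om => x (c k) := measurable_pi_apply _
  fun_prop

theorem Ms_upd (al : κ → ℝ) (f : κ → ℝ → ℝ) (z : κ → ℝ) (i : κ) (t : ℝ) : Ms al f (Function.update z i t) = Ms al f z + al i * (f i t - f i (z i)) := by
  unfold Ms
  have e : ∀ k, al k * f k (Function.update z i t k) = al k * f k (z k) + if k = i then al i * (f i t - f i (z i)) else 0 := by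
    intro k
    by_cases h : k = i
    · subst h
      simp only [Function.update_self, if_true]
      ring
    · simp [Function.update_of_ne h, h]
  rw [Finset.sum_congr rfl fun k _ => e k, Finset.sum_add_distrib, Finset.sum_ite_eq' Finset.univ i]
  simp

theorem Yw_per {al : κ → ℝ} {f : κ → ℝ → ℝ} (hper : ∀ k, Function.Periodic (f k) 1) (lam mu m : ℝ) (z : κ → ℝ) (i : κ) :
    Yw al f lam mu m (Function.update z i (z i + 1)) = Yw al f lam mu m z := by
  unfold Yw
  rw [Ms_upd, hper i, sub_self, mul_zero, add_zero]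

theorem Yw_lip {al : κ → ℝ} {f : κ → ℝ → ℝ} (hb : ∀ k x, |f k x| ≤ 1) {L : ℝ} (hL : ∀ k x t, |f k (x + t) - f k x| ≤ L * |t|) {A : ℝ} (hA : ∀ k, |al k| ≤ A)
    {lam mu m : ℝ} (hmu : 0 ≤ mu) {B : ℝ} (hB : ∑ k, |al k| ≤ B) (z : κ → ℝ) (i : κ) (t : ℝ) :
    Yw al f lam mu m (Function.update z i (z i + t)) ≤ exp (A * L * (|lam| + 2 * mu * (B + |m|)) * |t|) * Yw al f lam mu m z := by
  unfold Yw
  rw [← exp_add, exp_le_exp]
  have h1 := (Ms_bd (al := al) hb z).trans hB
  have h2 := (Ms_bd (al := al) hb (Function.update z i (z i + t))).trans hB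
  obtain ⟨d, hd⟩ : ∃ d : ℝ, d = Ms al f (Function.update z i (z i + t)) - Ms al f z := ⟨_, rfl⟩
  have hL0 : 0 ≤ L * |t| := (abs_nonneg _).trans (hL i (z i) t)
  have hd1 : |d| ≤ A * (L * |t|) := by
    rw [hd, Ms_upd, add_sub_cancel_left, abs_mul]
    exact mul_le_mul (hA i) (hL i (z i) t) (abs_nonneg _) ((abs_nonneg _).trans (hA i))
  obtain ⟨M, hM⟩ : ∃ M : ℝ, M = Ms al f z := ⟨_, rfl⟩
  have hM' : Ms al f (Function.update z i (z i + t)) = M + d := by rw [hd, hM]; ring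
  rw [hM'] at h2 ⊢
  rw [← hM] at h1 ⊢
  have e1 : lam * (M + d) - Cs al f lam - mu * (M + d - m) ^ 2 - (lam * M - Cs al f lam - mu * (M - m) ^ 2) = lam * d - mu * (d * ((M + d) + M - 2 * m)) := by ring
  have h3 : lam * d ≤ |lam| * |d| := by
    rw [← abs_mul]
    exact le_abs_self _
  have h4 : |(M + d) + M - 2 * m| ≤ 2 * (B + |m|) := by
    have h5 := abs_le.1 h1
    have h6 := abs_le.1 h2
    have h7 := abs_le.1 (le_refl |m|)
    rw [abs_le]
    constructor <;> linarith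
  have h5 : -(mu * (d * ((M + d) + M - 2 * m))) ≤ mu * (|d| * (2 * (B + |m|))) := by
    calc -(mu * (d * ((M + d) + M - 2 * m))) = mu * (-(d * ((M + d) + M - 2 * m))) := by ring
      _ ≤ mu * (|d| * (2 * (B + |m|))) := by
        refine mul_le_mul_of_nonneg_left ?_ hmu
        refine (neg_le_abs _).trans ?_
        rw [abs_mul]
        exact mul_le_mul_of_nonneg_left h4 (abs_nonneg _)
  have hB0 : 0 ≤ B := (abs_nonneg _).trans h1
  have h6 : |lam| * |d| + mu * (|d| * (2 * (B + |m|))) ≤ A * L * (|lam| + 2 * mu * (B + |m|)) * |t| := by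
    calc |lam| * |d| + mu * (|d| * (2 * (B + |m|))) = |d| * (|lam| + 2 * mu * (B + |m|)) := by ring
      _ ≤ A * (L * |t|) * (|lam| + 2 * mu * (B + |m|)) := mul_le_mul_of_nonneg_right hd1 (by positivity)
      _ = _ := by ring
  linarith

theorem second_sum {al : κ → ℝ} {f : κ → ℝ → ℝ} (hf : ∀ k, Continuous (f k)) (hper : ∀ k, Function.Periodic (f k) 1) (hb : ∀ k x, |f k x| ≤ 1)
    {L : ℝ} (hL : ∀ k x t, |f k (x + t) - f k x| ≤ L * |t|) {A : ℝ} (hA : ∀ k, |al k| ≤ A) {B : ℝ} (hB : ∑ k, |al k| ≤ B) (hA0 : 0 ≤ A) (hL0 : 0 ≤ L)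
    {lam mu m : ℝ} (hmu : 0 < mu) {c : κ → ℕ × ℕ} (hc : Function.Injective c) {s s' u w : κ → ℝ} {a e : ℝ} (ha : 1 < a) {n : ℕ} (hn : 0 < n) {Rt : ℕ → ℝ}
    (h1 : ∀ i < n, ∀ k, a ≤ |Rt i * s k|) (h2 : ∀ i < n, ∀ j < n, i ≠ j → ∀ k, a ≤ |Rt j * s k - Rt i * s k|)
    (h3 : ∀ i < n, ∀ j < n, ∀ k, |Rt j * s k - Rt i * s k| / |Rt i * s k| ≤ e) (he : 0 ≤ e) {δ : ℝ} (hδ0 : 0 < δ) (hδ1 : δ ≤ 1 / 2)
    (hδ : (exp (A * L * (|lam| + 2 * mu * (B + |m|)) * e) * (1 + 2 / a)) ^ Fintype.card κ ≤ 1 + δ) (hδ' : (1 / (1 - 1 / a)) ^ Fintype.card κ ≤ 1 / (1 - δ))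
    {y : ℝ} (hy : y = ∫ z, Yw al f lam mu m z ∂(Measure.pi fun _ : κ => uI)) (hy0 : 0 < y) {S : ℝ} (hS : ∀ z, Yw al f lam mu m z ≤ S) :
    (PP nu1).real {x | ∑ i ∈ Finset.range n, Yw al f lam mu m (Ph s s' u w c (Rt i) x) ≤ n * (y / 2)} ≤ 4 * (3 * δ + 2 * S / (n * y)) := by
  obtain ⟨Q, hQ⟩ : ∃ Q : ℝ, Q = A * L * (|lam| + 2 * mu * (B + |m|)) := ⟨_, rfl⟩
  rw [← hQ] at hδ
  have hB0 : 0 ≤ B := le_trans (Finset.sum_nonneg fun k _ => abs_nonneg _) hB
  have hQ0 : 0 ≤ Q := by rw [hQ]; positivity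
  obtain ⟨Y, hY⟩ : ∃ Y : (κ → ℝ) → ℝ, Y = Yw al f lam mu m := ⟨_, rfl⟩
  have hYc : Continuous Y := by rw [hY]; exact Yw_cont hf lam mu m
  have hY0 : ∀ z, 0 ≤ Y z := fun z => by rw [hY]; exact (exp_pos _).le
  have hYS : ∀ z, Y z ≤ S := fun z => by rw [hY]; exact hS z
  have hS0 : 0 ≤ S := (hY0 0).trans (hYS 0)
  have hYl : ∀ z i t, Y (Function.update z i (z i + t)) ≤ exp (Q * |t|) * Y z := fun z i t => by
    rw [hY, hQ]
    exact Yw_lip hb hL hA hmu.le hB z i t
  have hYp : ∀ z i, Y (Function.update z i (z i + 1)) = Y z := fun z i => by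
    rw [hY]
    exact Yw_per hper lam mu m z i
  rw [← hY] at hy ⊢
  have hYi : Integrable Y (Measure.pi fun _ : κ => uI) := int_bd hYc.measurable (B := S) fun z => by
    rw [abs_of_nonneg (hY0 z)]
    exact hYS z
  obtain ⟨Yt, hYt⟩ : ∃ Yt : ℕ → Om → ℝ, Yt = fun i x => Y (Ph s s' u w c (Rt i) x) := ⟨_, rfl⟩
  have hYtm : ∀ i, Measurable (Yt i) := fun i => by
    rw [hYt]
    exact hYc.measurable.comp (Ph_meas s s' u w c (Rt i))
  have hYt0 : ∀ i x, 0 ≤ Yt i x := fun i x => by rw [hYt]; exact hY0 _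
  have hYtS : ∀ i x, Yt i x ≤ S := fun i x => by rw [hYt]; exact hYS _
  have hYti : ∀ i, Integrable (Yt i) (PP nu1) := fun i => Integrable.of_bound (hYtm i).aestronglyMeasurable S (Filter.Eventually.of_forall fun x => by
    rw [Real.norm_eq_abs, abs_of_nonneg (hYt0 i x)]
    exact hYtS i x)
  have hYij : ∀ i j, Integrable (fun x => Yt i x * Yt j x) (PP nu1) := fun i j => Integrable.of_bound ((hYtm i).mul (hYtm j)).aestronglyMeasurable (S * S)
    (Filter.Eventually.of_forall fun x => by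
      rw [Real.norm_eq_abs, abs_of_nonneg (mul_nonneg (hYt0 i x) (hYt0 j x))]
      exact mul_le_mul (hYtS i x) (hYtS j x) (hYt0 j x) hS0)
  have ha0 : 0 < a := by linarith
  have hyl : ∫⁻ z, ENNReal.ofReal (Y z) ∂(Measure.pi fun _ : κ => uI) = ENNReal.ofReal y := by
    rw [hy]
    exact (ofReal_integral_eq_lintegral_ofReal hYi (Filter.Eventually.of_forall hY0)).symm
  -- first moments
  have E1 : ∀ i < n, ∫ x, Yt i x ∂(PP nu1) ≤ (1 + δ) * y := by
    intro i hi
    have g1 := time_up (A := fun k => Rt i * s k) (B := fun k => Rt i * s' k) (b := fun k => Rt i * u k + w k) ha0 (h1 i hi) hc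
      (F := fun z => ENNReal.ofReal (Y z)) hYc.measurable.ennreal_ofReal (fun z k => by simp only [hYp])
    rw [hyl] at g1
    have g2 : ENNReal.ofReal (∫ x, Yt i x ∂(PP nu1)) ≤ ENNReal.ofReal ((1 + δ) * y) := by
      rw [ofReal_integral_eq_lintegral_ofReal (hYti i) (Filter.Eventually.of_forall (hYt0 i)), hYt]
      refine (le_of_eq rfl).trans (g1.trans ?_)
      rw [← ENNReal.ofReal_pow (by positivity), ← ENNReal.ofReal_mul (by positivity)]
      refine ENNReal.ofReal_le_ofReal (mul_le_mul_of_nonneg_right ((pow_le_pow_left₀ (by positivity) ?_ _).trans hδ) hy0.le)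
      have q1 : 1 ≤ exp (Q * e) := one_le_exp (mul_nonneg hQ0 he)
      have q2 : (1 : ℝ) / a ≤ 2 / a := div_le_div_of_nonneg_right (by norm_num) ha0.le
      have q3 : 0 ≤ 1 / a := by positivity
      nlinarith
    exact (ENNReal.ofReal_le_ofReal_iff (by positivity)).1 g2
  have E2 : ∀ i < n, (1 - δ) * y ≤ ∫ x, Yt i x ∂(PP nu1) := by
    intro i hi
    have g1 := time_lo (A := fun k => Rt i * s k) (B := fun k => Rt i * s' k) (b := fun k => Rt i * u k + w k) ha (h1 i hi) hc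
      (F := fun z => ENNReal.ofReal (Y z)) hYc.measurable.ennreal_ofReal (fun z k => by simp only [hYp])
    rw [hyl] at g1
    have q0 : 0 ≤ 1 / (1 - 1 / a) := by
      have : 1 / a < 1 := by rw [div_lt_one ha0]; exact ha
      have : 0 < 1 - 1 / a := by linarith
      positivity
    have g2 : ENNReal.ofReal y ≤ ENNReal.ofReal (1 / (1 - δ) * ∫ x, Yt i x ∂(PP nu1)) := by
      refine g1.trans ?_
      have g3 : ∫⁻ x : Om, ENNReal.ofReal (Y fun k => Rt i * s k * ((x (c k)).1 : ℝ) + Rt i * s' k * ((x (c k)).2 : ℝ) + (Rt i * u k + w k)) ∂(PP nu1) =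
          ENNReal.ofReal (∫ x, Yt i x ∂(PP nu1)) := by
        rw [ofReal_integral_eq_lintegral_ofReal (hYti i) (Filter.Eventually.of_forall (hYt0 i)), hYt]
        rfl
      rw [g3, ← ENNReal.ofReal_pow q0, ← ENNReal.ofReal_mul (by positivity)]
      exact ENNReal.ofReal_le_ofReal (mul_le_mul_of_nonneg_right hδ' (integral_nonneg (hYt0 i)))
    have g4 : y ≤ 1 / (1 - δ) * ∫ x, Yt i x ∂(PP nu1) := (ENNReal.ofReal_le_ofReal_iff (mul_nonneg (by
      have : 0 < 1 - δ := by linarith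
      positivity) (integral_nonneg (hYt0 i)))).1 g2
    have hd : 0 < 1 - δ := by linarith
    calc (1 - δ) * y ≤ (1 - δ) * (1 / (1 - δ) * ∫ x, Yt i x ∂(PP nu1)) := mul_le_mul_of_nonneg_left g4 hd.le
      _ = _ := by field_simp
  -- mixed second moments
  have E3 : ∀ i < n, ∀ j < n, i ≠ j → ∫ x, Yt i x * Yt j x ∂(PP nu1) ≤ (1 + δ) * y ^ 2 := by
    intro i hi j hj hij
    have hFm : Measurable fun z : κ → ℝ × ℝ => ENNReal.ofReal (Y (fun k => (z k).1) * Y (fun k => (z k).2)) := by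
      apply Measurable.ennreal_ofReal
      exact (hYc.measurable.comp (by fun_prop)).mul (hYc.measurable.comp (by fun_prop))
    have u1 : ∀ (z : κ → ℝ × ℝ) (k : κ) (p : ℝ × ℝ), (fun k' => (Function.update z k p k').1) = Function.update (fun k' => (z k').1) k p.1 := by
      intro z k p
      funext k'
      by_cases h : k' = k
      · subst h
        simp
      · simp [Function.update_of_ne h]
    have u2 : ∀ (z : κ → ℝ × ℝ) (k : κ) (p : ℝ × ℝ), (fun k' => (Function.update z k p k').2) = Function.update (fun k' => (z k').2) k p.2 := by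
      intro z k p
      funext k'
      by_cases h : k' = k
      · subst h
        simp
      · simp [Function.update_of_ne h]
    have g1 := time_two (A := fun k => Rt i * s k) (B := fun k => Rt i * s' k) (b := fun k => Rt i * u k + w k) (A' := fun k => Rt j * s k) (B' := fun k => Rt j * s' k)
      (b' := fun k => Rt j * u k + w k) ha0 (h1 i hi) (h2 i hi j hj hij) (h3 i hi j hj) hc (F := fun z => ENNReal.ofReal (Y (fun k => (z k).1) * Y (fun k => (z k).2))) hFm
      (fun z k => by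
        simp only [u1, u2]
        have q1 := hYp (fun k' => (z k').1) k
        have q2 : Function.update (fun k' => (z k').2) k (z k).2 = fun k' => (z k').2 := Function.update_eq_self _ _
        rw [q1, q2])
      (fun z k => by
        simp only [u1, u2]
        have q1 := hYp (fun k' => (z k').2) k
        have q2 : Function.update (fun k' => (z k').1) k (z k).1 = fun k' => (z k').1 := Function.update_eq_self _ _
        rw [q1, q2]) hQ0
      (fun z k t => by
        simp only [u1, u2]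
        have q1 := hYl (fun k' => (z k').2) k t
        have q2 : Function.update (fun k' => (z k').1) k (z k).1 = fun k' => (z k').1 := Function.update_eq_self _ _
        rw [q2, ← ENNReal.ofReal_mul (exp_pos _).le]
        refine ENNReal.ofReal_le_ofReal ?_
        calc Y (fun k' => (z k').1) * _ ≤ Y (fun k' => (z k').1) * (exp (Q * |t|) * Y (fun k' => (z k').2)) := mul_le_mul_of_nonneg_left q1 (hY0 _)
          _ = _ := by ring)
    have g2 : ∫⁻ z : κ → ℝ × ℝ, ENNReal.ofReal (Y (fun k => (z k).1) * Y (fun k => (z k).2)) ∂(Measure.pi fun _ : κ => uI.prod uI) = ENNReal.ofReal (y ^ 2) := by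
      have hmp := measurePreserving_arrowProdEquivProdArrow ℝ ℝ κ (fun _ => uI) (fun _ => uI)
      have e1 : ∫⁻ z : κ → ℝ × ℝ, ENNReal.ofReal (Y (fun k => (z k).1) * Y (fun k => (z k).2)) ∂(Measure.pi fun _ : κ => uI.prod uI) =
          ∫⁻ q : (κ → ℝ) × (κ → ℝ), ENNReal.ofReal (Y q.1) * ENNReal.ofReal (Y q.2) ∂((Measure.pi fun _ : κ => uI).prod (Measure.pi fun _ : κ => uI)) := by
        rw [← hmp.lintegral_comp (f := fun q : (κ → ℝ) × (κ → ℝ) => ENNReal.ofReal (Y q.1) * ENNReal.ofReal (Y q.2))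
          ((hYc.measurable.comp measurable_fst).ennreal_ofReal.mul (hYc.measurable.comp measurable_snd).ennreal_ofReal)]
        refine lintegral_congr fun z => ?_
        rw [← ENNReal.ofReal_mul (hY0 _)]
        rfl
      rw [e1, lintegral_prod_mul hYc.measurable.ennreal_ofReal.aemeasurable hYc.measurable.ennreal_ofReal.aemeasurable, hyl, ← ENNReal.ofReal_mul hy0.le, sq]
    rw [g2] at g1
    have g3 : ENNReal.ofReal (∫ x, Yt i x * Yt j x ∂(PP nu1)) ≤ ENNReal.ofReal ((1 + δ) * y ^ 2) := by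
      rw [ofReal_integral_eq_lintegral_ofReal (hYij i j) (Filter.Eventually.of_forall fun x => mul_nonneg (hYt0 i x) (hYt0 j x)), hYt]
      refine (le_of_eq rfl).trans (g1.trans ?_)
      rw [← ENNReal.ofReal_pow (by positivity), ← ENNReal.ofReal_mul (by positivity)]
      exact ENNReal.ofReal_le_ofReal (mul_le_mul_of_nonneg_right hδ (by positivity))
    exact (ENNReal.ofReal_le_ofReal_iff (by positivity)).1 g3
  have E4 : ∀ i < n, ∫ x, Yt i x * Yt i x ∂(PP nu1) ≤ S * ((1 + δ) * y) := by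
    intro i hi
    calc ∫ x, Yt i x * Yt i x ∂(PP nu1) ≤ ∫ x, S * Yt i x ∂(PP nu1) :=
          integral_mono (hYij i i) ((hYti i).const_mul S) fun x => mul_le_mul_of_nonneg_right (hYtS i x) (hYt0 i x)
      _ = S * ∫ x, Yt i x ∂(PP nu1) := integral_const_mul _ _
      _ ≤ _ := mul_le_mul_of_nonneg_left (E1 i hi) hS0
  -- the sum
  obtain ⟨T, hT⟩ : ∃ T : Om → ℝ, T = fun x => ∑ i ∈ Finset.range n, Yt i x := ⟨_, rfl⟩
  have hn0 : (0 : ℝ) < n := by exact_mod_cast hn
  have hTi : Integrable T (PP nu1) := by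
    rw [hT]
    exact integrable_finsetSum _ fun i _ => hYti i
  have hTT : ∀ x, T x ^ 2 = ∑ i ∈ Finset.range n, ∑ j ∈ Finset.range n, Yt i x * Yt j x := by
    intro x
    rw [hT, sq]
    exact Finset.sum_mul_sum _ _ _ _
  have hT2i : Integrable (fun x => T x ^ 2) (PP nu1) := by
    simp only [hTT]
    exact integrable_finsetSum _ fun i _ => integrable_finsetSum _ fun j _ => hYij i j
  have hT1 : n * ((1 - δ) * y) ≤ ∫ x, T x ∂(PP nu1) := by
    rw [hT, integral_finsetSum _ fun i _ => hYti i]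
    calc (n : ℝ) * ((1 - δ) * y) = ∑ _i ∈ Finset.range n, (1 - δ) * y := by rw [Finset.sum_const, Finset.card_range, nsmul_eq_mul]
      _ ≤ _ := Finset.sum_le_sum fun i hi => E2 i (Finset.mem_range.1 hi)
  have hT2 : ∫ x, T x ^ 2 ∂(PP nu1) ≤ n * (S * ((1 + δ) * y)) + n ^ 2 * ((1 + δ) * y ^ 2) := by
    simp only [hTT]
    rw [integral_finsetSum _ fun i _ => integrable_finsetSum _ fun j _ => hYij i j]
    have q1 : ∀ i ∈ Finset.range n, ∫ x, ∑ j ∈ Finset.range n, Yt i x * Yt j x ∂(PP nu1) ≤ S * ((1 + δ) * y) + n * ((1 + δ) * y ^ 2) := by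
      intro i hi
      rw [integral_finsetSum _ fun j _ => hYij i j]
      have q2 : ∀ j ∈ Finset.range n, ∫ x, Yt i x * Yt j x ∂(PP nu1) ≤ (if j = i then S * ((1 + δ) * y) else 0) + (1 + δ) * y ^ 2 := by
        intro j hj
        by_cases h : j = i
        · subst h
          rw [if_pos rfl]
          have := E4 j (Finset.mem_range.1 hi)
          have : 0 ≤ (1 + δ) * y ^ 2 := by positivity
          linarith
        · rw [if_neg h, zero_add]
          exact E3 i (Finset.mem_range.1 hi) j (Finset.mem_range.1 hj) (fun h2 => h h2.symm)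
      refine (Finset.sum_le_sum q2).trans ?_
      rw [Finset.sum_add_distrib, Finset.sum_ite_eq', if_pos hi, Finset.sum_const, Finset.card_range, nsmul_eq_mul]
    refine (Finset.sum_le_sum q1).trans (le_of_eq ?_)
    rw [Finset.sum_const, Finset.card_range, nsmul_eq_mul]
    ring
  have hV : ∫ x, (T x - n * y) ^ 2 ∂(PP nu1) ≤ 3 * δ * (n * y) ^ 2 + n * S * ((1 + δ) * y) := by
    have e1 : ∀ x, (T x - n * y) ^ 2 = T x ^ 2 - 2 * (n * y) * T x + (n * y) ^ 2 := fun x => by ring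
    simp only [e1]
    have i1 := integral_add (μ := PP nu1) (hT2i.sub (hTi.const_mul (2 * (n * y)))) (integrable_const ((n * y) ^ 2))
    have i2 := integral_sub (μ := PP nu1) hT2i (hTi.const_mul (2 * (n * y)))
    simp only [Pi.sub_apply] at i1
    rw [i1, i2, integral_const_mul, integral_const]
    simp only [probReal_univ, one_smul]
    have e2 : 0 ≤ 2 * (n * y) := by positivity
    have e3 := mul_le_mul_of_nonneg_left hT1 e2
    nlinarith
  have hmk := mul_meas_ge_le_integral_of_nonneg (μ := PP nu1) (f := fun x => (T x - n * y) ^ 2) (Filter.Eventually.of_forall fun x => sq_nonneg _) (by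
    have e1 : (fun x => (T x - n * y) ^ 2) = fun x => T x ^ 2 - 2 * (n * y) * T x + (n * y) ^ 2 := funext fun x => by ring
    rw [e1]
    exact (hT2i.sub (hTi.const_mul _)).add (integrable_const _)) ((n * y / 2) ^ 2)
  have hsub : {x | ∑ i ∈ Finset.range n, Y (Ph s s' u w c (Rt i) x) ≤ n * (y / 2)} ⊆ {x | (n * y / 2) ^ 2 ≤ (T x - n * y) ^ 2} := by
    intro x hx
    have q1 : T x ≤ n * (y / 2) := by
      rw [hT, hYt]
      exact hx
    show (n * y / 2) ^ 2 ≤ (T x - n * y) ^ 2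
    have q2 : 0 < n * y := by positivity
    nlinarith
  have hm := measureReal_mono (μ := PP nu1) hsub
  have hny : 0 < n * y := by positivity
  have hq : (n * y / 2) ^ 2 * (PP nu1).real {x | ∑ i ∈ Finset.range n, Y (Ph s s' u w c (Rt i) x) ≤ n * (y / 2)} ≤ 3 * δ * (n * y) ^ 2 + n * S * ((1 + δ) * y) :=
    (mul_le_mul_of_nonneg_left hm (sq_nonneg _)).trans (hmk.trans hV)
  have hq2 : n * S * ((1 + δ) * y) ≤ 2 * S / (n * y) * (n * y) ^ 2 := by
    have : 2 * S / (n * y) * (n * y) ^ 2 = 2 * (n * S * y) := by field_simp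
    rw [this]
    have : 0 ≤ n * S * y := by positivity
    nlinarith
  have hq3 : (PP nu1).real {x | ∑ i ∈ Finset.range n, Y (Ph s s' u w c (Rt i) x) ≤ n * (y / 2)} * (n * y) ^ 2 ≤ 4 * (3 * δ + 2 * S / (n * y)) * (n * y) ^ 2 := by
    nlinarith
  exact le_of_mul_le_mul_right hq3 (by positivity)

theorem second_moment {al : κ → ℝ} {f : κ → ℝ → ℝ} (hf : ∀ k, Continuous (f k)) (hper : ∀ k, Function.Periodic (f k) 1) (hb : ∀ k x, |f k x| ≤ 1)
    {L : ℝ} (hL : ∀ k x t, |f k (x + t) - f k x| ≤ L * |t|) {A : ℝ} (hA : ∀ k, |al k| ≤ A) {B : ℝ} (hB : ∑ k, |al k| ≤ B) (hA0 : 0 ≤ A) (hL0 : 0 ≤ L)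
    {lam mu m : ℝ} (hmu : 0 < mu) {c : κ → ℕ × ℕ} (hc : Function.Injective c) {s s' u w : κ → ℝ} {a e : ℝ} (ha : 1 < a) {n : ℕ} (hn : 0 < n) {Rt : ℕ → ℝ}
    (h1 : ∀ i < n, ∀ k, a ≤ |Rt i * s k|) (h2 : ∀ i < n, ∀ j < n, i ≠ j → ∀ k, a ≤ |Rt j * s k - Rt i * s k|)
    (h3 : ∀ i < n, ∀ j < n, ∀ k, |Rt j * s k - Rt i * s k| / |Rt i * s k| ≤ e) (he : 0 ≤ e) {δ : ℝ} (hδ0 : 0 < δ) (hδ1 : δ ≤ 1 / 2)
    (hδ : (exp (A * L * (|lam| + 2 * mu * (B + |m|)) * e) * (1 + 2 / a)) ^ Fintype.card κ ≤ 1 + δ) (hδ' : (1 / (1 - 1 / a)) ^ Fintype.card κ ≤ 1 / (1 - δ))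
    {y : ℝ} (hy : y = ∫ z, Yw al f lam mu m z ∂(Measure.pi fun _ : κ => uI)) (hy0 : 0 < y) {S : ℝ} (hS : ∀ z, Yw al f lam mu m z ≤ S) :
    (PP nu1).real {x | ∀ i < n, Yw al f lam mu m (Ph s s' u w c (Rt i) x) < y / 2} ≤ 4 * (3 * δ + 2 * S / (n * y)) := by
  refine le_trans (measureReal_mono fun x hx => ?_) (second_sum (s := s) (s' := s') (u := u) (w := w) hf hper hb hL hA hB hA0 hL0 hmu hc ha hn h1 h2 h3 he hδ0 hδ1 hδ hδ' hy hy0 hS)
  show ∑ i ∈ Finset.range n, Yw al f lam mu m (Ph s s' u w c (Rt i) x) ≤ n * (y / 2)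
  calc ∑ i ∈ Finset.range n, Yw al f lam mu m (Ph s s' u w c (Rt i) x) ≤ ∑ _i ∈ Finset.range n, y / 2 := Finset.sum_le_sum fun i hi => (hx i (Finset.mem_range.1 hi)).le
    _ = _ := by rw [Finset.sum_const, Finset.card_range, nsmul_eq_mul]

end Pool.Agent.Helper93.EX
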