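import Pool.Agent.Helper93.EX.Jets
import Pool.Agent.Helper92.EO.Lat

/-!
# EX: elementary facts on the waves `fJ` and the sum `Mx`
-/

open MeasureTheory Set Real

set_option autoImplicit false

namespace Pool.Agent.Helper93.EX

open Pool.Agent.Helper93.AO
open Pool.Agent.Helper22.AE (rho nk tk box cz)
open Pool.Agent.Helper92.EO (nk_ge_one)

theorem fJ_cont (J : ℕ) : Continuous (fJ J) := by
  unfold fJ
  fun_prop

theorem fJ_per (J : ℕ) : Function.Periodic (fJ J) 1 := by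
  intro x
  unfold fJ
  congr 1
  refine Finset.sum_congr rfl fun j _ => ?_
  congr 1
  have e : 2 * π * (((j + 1 : ℕ) : ℝ) * (x + 1)) - 3 * π / 4 = 2 * π * (((j + 1 : ℕ) : ℝ) * x) - 3 * π / 4 + ((j + 1 : ℕ) : ℤ) * (2 * π) := by
    push_cast
    ring
  rw [e]
  exact cos_add_int_mul_two_pi _ _

private theorem sum_le (J : ℕ) : ∑ j ∈ Finset.range (J + 1), ((j + 1 : ℕ) : ℝ) ^ (-(3 / 2) : ℝ) ≤ 3 - 2 / sqrt ((J + 1 : ℕ) : ℝ) := by
  induction J with
  | zero => norm_num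
  | succ J ih =>
    rw [Finset.sum_range_succ]
    obtain ⟨x, hx⟩ : ∃ x : ℝ, x = ((J + 1 : ℕ) : ℝ) := ⟨_, rfl⟩
    have hx0 : 0 < x := by rw [hx]; positivity
    have e1 : ((J + 1 + 1 : ℕ) : ℝ) = x + 1 := by rw [hx]; push_cast; ring
    rw [← hx] at ih
    rw [e1]
    obtain ⟨a, ha⟩ : ∃ a : ℝ, a = sqrt x := ⟨_, rfl⟩
    obtain ⟨b, hb⟩ : ∃ b : ℝ, b = sqrt (x + 1) := ⟨_, rfl⟩
    have ha0 : 0 < a := by rw [ha]; positivity
    have hb0 : 0 < b := by rw [hb]; positivity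
    have hab : a ≤ b := by rw [ha, hb]; exact sqrt_le_sqrt (by linarith)
    have ha2 : a * a = x := by rw [ha]; exact mul_self_sqrt hx0.le
    have hb2 : b * b = x + 1 := by rw [hb]; exact mul_self_sqrt (by linarith)
    have e2 : (x + 1) ^ (-(3 / 2) : ℝ) = 1 / (b * b * b) := by
      rw [show (-(3 / 2) : ℝ) = -(1 + 1 / 2) by norm_num, rpow_neg (by linarith), rpow_add (by linarith), rpow_one, ← sqrt_eq_rpow, ← hb, ← hb2, one_div]
    rw [e2, ← hb]
    rw [← ha] at ih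
    have key : 1 / (b * b * b) ≤ 2 / a - 2 / b := by
      rw [div_sub_div _ _ ha0.ne' hb0.ne', div_le_div_iff₀ (by positivity) (by positivity)]
      have h1 : 2 * b - a * 2 = 2 * (b - a) := by ring
      have h2 : (b - a) * (b + a) = 1 := by nlinarith
      have h3 : 1 ≤ (b - a) * (2 * b) := by nlinarith
      have h4 : 0 ≤ b - a := by linarith
      -- `a * b ≤ 2 (b - a) * b^3`
      have h5 : a * b ≤ b * b := mul_le_mul_of_nonneg_right hab hb0.le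
      have h6 : b * b ≤ (b - a) * (2 * b) * (b * b) := by
        have := mul_le_mul_of_nonneg_right h3 (mul_self_nonneg b)
        linarith
      nlinarith
    linarith

theorem fJ_bd (J : ℕ) (x : ℝ) : |fJ J x| ≤ 1 := by
  unfold fJ
  rw [abs_mul, abs_of_pos (by positivity)]
  have h1 : |∑ j ∈ Finset.range J, ((j + 1 : ℕ) : ℝ) ^ (-(3 / 2) : ℝ) * cos (2 * π * (((j + 1 : ℕ) : ℝ) * x) - 3 * π / 4)| ≤ 3 := by
    refine (Finset.abs_sum_le_sum_abs _ _).trans ?_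
    have h2 : ∀ j ∈ Finset.range J, |((j + 1 : ℕ) : ℝ) ^ (-(3 / 2) : ℝ) * cos (2 * π * (((j + 1 : ℕ) : ℝ) * x) - 3 * π / 4)| ≤ ((j + 1 : ℕ) : ℝ) ^ (-(3 / 2) : ℝ) := by
      intro j _
      rw [abs_mul, abs_of_nonneg (by positivity)]
      exact mul_le_of_le_one_right (by positivity) (abs_cos_le_one _)
    refine (Finset.sum_le_sum h2).trans ?_
    rcases J with _ | J
    · norm_num
    · have h3 := sum_le J
      have h4 : 0 ≤ 2 / sqrt ((J + 1 : ℕ) : ℝ) := by positivity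
      linarith
  have hp := Real.pi_gt_three
  calc 1 / π * |_| ≤ 1 / π * 3 := mul_le_mul_of_nonneg_left h1 (by positivity)
    _ ≤ 1 := by
      rw [div_mul_eq_mul_div, one_mul, div_le_one (by linarith)]
      linarith

theorem fJ_lip (J : ℕ) (x t : ℝ) : |fJ J (x + t) - fJ J x| ≤ 2 * J * |t| := by
  unfold fJ
  rw [← mul_sub, ← Finset.sum_sub_distrib, abs_mul, abs_of_pos (by positivity : (0 : ℝ) < 1 / π)]
  have h1 : |∑ j ∈ Finset.range J, (((j + 1 : ℕ) : ℝ) ^ (-(3 / 2) : ℝ) * cos (2 * π * (((j + 1 : ℕ) : ℝ) * (x + t)) - 3 * π / 4) -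
      ((j + 1 : ℕ) : ℝ) ^ (-(3 / 2) : ℝ) * cos (2 * π * (((j + 1 : ℕ) : ℝ) * x) - 3 * π / 4))| ≤ ∑ _j ∈ Finset.range J, 2 * π * |t| := by
    refine (Finset.abs_sum_le_sum_abs _ _).trans (Finset.sum_le_sum fun j _ => ?_)
    obtain ⟨y, hy⟩ : ∃ y : ℝ, y = ((j + 1 : ℕ) : ℝ) := ⟨_, rfl⟩
    have hy1 : 1 ≤ y := by
      rw [hy]
      push_cast
      linarith [Nat.cast_nonneg (α := ℝ) j]
    rw [← hy, ← mul_sub, abs_mul, abs_of_nonneg (by positivity)]
    have h2 : |cos (2 * π * (y * (x + t)) - 3 * π / 4) - cos (2 * π * (y * x) - 3 * π / 4)| ≤ 2 * π * y * |t| := by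
      refine (abs_cos_sub_cos_le _ _).trans (le_of_eq ?_)
      have e : 2 * π * (y * (x + t)) - 3 * π / 4 - (2 * π * (y * x) - 3 * π / 4) = 2 * π * y * t := by ring
      rw [e, abs_mul, abs_of_pos (by positivity)]
    have h3 : y ^ (-(3 / 2) : ℝ) * y ≤ 1 := by
      have : y ^ (-(3 / 2) : ℝ) * y = y ^ (-(1 / 2) : ℝ) := by
        rw [← rpow_add_one (by linarith)]
        norm_num
      rw [this]
      exact rpow_le_one_of_one_le_of_nonpos hy1 (by norm_num)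
    calc y ^ (-(3 / 2) : ℝ) * _ ≤ y ^ (-(3 / 2) : ℝ) * (2 * π * y * |t|) := mul_le_mul_of_nonneg_left h2 (by positivity)
      _ = (y ^ (-(3 / 2) : ℝ) * y) * (2 * π * |t|) := by ring
      _ ≤ 1 * (2 * π * |t|) := mul_le_mul_of_nonneg_right h3 (by positivity)
      _ = _ := one_mul _
  rw [Finset.sum_const, Finset.card_range, nsmul_eq_mul] at h1
  calc 1 / π * |_| ≤ 1 / π * (J * (2 * π * |t|)) := mul_le_mul_of_nonneg_left h1 (by positivity)
    _ = _ := by field_simp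

theorem La_cont {g : ℝ → ℝ} (hg : Continuous g) : Continuous (La g) := by
  unfold La
  refine Continuous.log ?_ fun s => ?_
  · exact intervalIntegral.continuous_parametric_intervalIntegral_of_continuous' (by fun_prop) 0 1
  · exact (intervalIntegral.intervalIntegral_pos_of_pos_on ((by fun_prop : Continuous fun x => exp (s * g x)).intervalIntegrable _ _) (fun x _ => exp_pos _) one_pos).ne'

theorem nk_one {N : ℕ} {k : ℤ × ℤ} (hk : k ∈ prim N) : 1 ≤ nk k := nk_ge_one (prim_ne hk)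

theorem nk_two {N : ℕ} {k : ℤ × ℤ} (hk : k ∈ prim N) : nk k ≤ 2 * N := (nk_le_sn k).trans (by
  have : (sn k : ℝ) ≤ N := by exact_mod_cast (mem_prim.1 hk).2.le
  linarith)

theorem prim_card (N : ℕ) : ((prim N).card : ℝ) ≤ 9 * (N : ℝ) ^ 2 := by
  rcases Nat.eq_zero_or_pos N with h | h
  · subst h
    have : prim 0 = ∅ := by
      ext k
      rw [mem_prim]
      simp
    simp [this]
  · have h1 : (prim N).card ≤ (box N).card := Finset.card_filter_le _ _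
    have h2 : (box N).card = (2 * N + 1) * (2 * N + 1) := by
      unfold box
      rw [Finset.card_product, Int.card_Icc]
      have : ((N : ℤ) + 1 - -(N : ℤ)).toNat = 2 * N + 1 := by omega
      rw [this]
    rw [h2] at h1
    have h3 : ((prim N).card : ℝ) ≤ (2 * N + 1) * (2 * N + 1) := by exact_mod_cast h1
    have h4 : (1 : ℝ) ≤ N := by exact_mod_cast h
    nlinarith

theorem ak_nonneg (H : ℝ → ℝ) (k : ℤ × ℤ) : 0 ≤ ak H k := by
  unfold ak
  have : 0 ≤ nk k := norm_nonneg _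
  positivity

theorem ak_le {H : ℝ → ℝ} {K : ℝ} (hK : ∀ t, |rho H t| ≤ K) {N : ℕ} {k : ℤ × ℤ} (hk : k ∈ prim N) : ak H k ≤ sqrt K := by
  unfold ak
  have h1 : nk k ^ (-(3 / 2) : ℝ) ≤ 1 := rpow_le_one_of_one_le_of_nonpos (nk_one hk) (by norm_num)
  calc nk k ^ (-(3 / 2) : ℝ) * sqrt (rho H (tk k)) ≤ 1 * sqrt K :=
        mul_le_mul h1 (sqrt_le_sqrt ((le_abs_self _).trans (hK _))) (sqrt_nonneg _) zero_le_one
    _ = _ := one_mul _

/-- `Mx` is periodic in the centre -/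
theorem Mx_per (H : ℝ → ℝ) (N : ℕ) (R : ℝ) (c : ℝ × ℝ) (m n : ℤ) : Mx H N R (c.1 + m, c.2 + n) = Mx H N R c := by
  unfold Mx
  refine Finset.sum_congr rfl fun k _ => ?_
  congr 1
  have e : R * (nk k * H (tk k)) + ((k.1 : ℝ) * (c.1 + m) + (k.2 : ℝ) * (c.2 + n)) =
      R * (nk k * H (tk k)) + ((k.1 : ℝ) * c.1 + (k.2 : ℝ) * c.2) + ((k.1 * m + k.2 * n : ℤ) : ℝ) * 1 := by
    push_cast
    ring
  simp only [e]
  exact (fJ_per _).int_mul _ _

/-- `Mx` is Lipschitz in the time and in the centre -/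
theorem Mx_lip {H : ℝ → ℝ} {K : ℝ} (hK : ∀ t, |rho H t| ≤ K) {B : ℝ} (hB : ∀ t, |H t| ≤ B) {N : ℕ} (hN : 1 ≤ N) (R R' : ℝ) (c c' : ℝ × ℝ) :
    |Mx H N R c - Mx H N R' c'| ≤ 36 * sqrt K * (1 + B) * (N : ℝ) ^ 4 * (|R - R'| + |c.1 - c'.1| + |c.2 - c'.2|) := by
  have hB0 : 0 ≤ B := (abs_nonneg _).trans (hB 0)
  have hN1 : (1 : ℝ) ≤ N := by exact_mod_cast hN
  obtain ⟨D, hD⟩ : ∃ D : ℝ, D = |R - R'| + |c.1 - c'.1| + |c.2 - c'.2| := ⟨_, rfl⟩
  have hD0 : 0 ≤ D := by rw [hD]; positivity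
  rw [← hD]
  unfold Mx
  rw [← Finset.sum_sub_distrib]
  have hterm : ∀ k ∈ prim N, |ak H k * fJ ((N - 1) / sn k) (R * (nk k * H (tk k)) + ((k.1 : ℝ) * c.1 + (k.2 : ℝ) * c.2)) -
      ak H k * fJ ((N - 1) / sn k) (R' * (nk k * H (tk k)) + ((k.1 : ℝ) * c'.1 + (k.2 : ℝ) * c'.2))| ≤ 4 * sqrt K * (1 + B) * (N : ℝ) ^ 2 * D := by
    intro k hk
    rw [← mul_sub, abs_mul, abs_of_nonneg (ak_nonneg H k)]
    obtain ⟨t, ht⟩ : ∃ t : ℝ, t = (R - R') * (nk k * H (tk k)) + ((k.1 : ℝ) * (c.1 - c'.1) + (k.2 : ℝ) * (c.2 - c'.2)) := ⟨_, rfl⟩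
    have e : R * (nk k * H (tk k)) + ((k.1 : ℝ) * c.1 + (k.2 : ℝ) * c.2) = R' * (nk k * H (tk k)) + ((k.1 : ℝ) * c'.1 + (k.2 : ℝ) * c'.2) + t := by
      rw [ht]
      ring
    rw [e]
    have h1 := fJ_lip ((N - 1) / sn k) (R' * (nk k * H (tk k)) + ((k.1 : ℝ) * c'.1 + (k.2 : ℝ) * c'.2)) t
    have h2 : (((N - 1) / sn k : ℕ) : ℝ) ≤ N := by
      have : (N - 1) / sn k ≤ N := (Nat.div_le_self _ _).trans (Nat.sub_le _ _)
      exact_mod_cast this
    have hn := nk_two hk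
    have hn0 : 0 ≤ nk k := norm_nonneg _
    have k1 : |(k.1 : ℝ)| ≤ nk k := Complex.abs_re_le_norm (cz k)
    have k2 : |(k.2 : ℝ)| ≤ nk k := Complex.abs_im_le_norm (cz k)
    have h3 : |t| ≤ 2 * N * ((1 + B) * D) := by
      rw [ht]
      calc |(R - R') * (nk k * H (tk k)) + ((k.1 : ℝ) * (c.1 - c'.1) + (k.2 : ℝ) * (c.2 - c'.2))|
          ≤ |(R - R') * (nk k * H (tk k))| + (|(k.1 : ℝ) * (c.1 - c'.1)| + |(k.2 : ℝ) * (c.2 - c'.2)|) := (abs_add_le _ _).trans (by gcongr; exact abs_add_le _ _)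
        _ = |R - R'| * (nk k * |H (tk k)|) + (|(k.1 : ℝ)| * |c.1 - c'.1| + |(k.2 : ℝ)| * |c.2 - c'.2|) := by
          rw [abs_mul, abs_mul, abs_mul, abs_mul, abs_of_nonneg hn0]
        _ ≤ |R - R'| * (nk k * B) + (nk k * |c.1 - c'.1| + nk k * |c.2 - c'.2|) := by
          gcongr
          exact hB _
        _ = nk k * (|R - R'| * B + |c.1 - c'.1| + |c.2 - c'.2|) := by ring
        _ ≤ nk k * ((1 + B) * D) := by
          refine mul_le_mul_of_nonneg_left ?_ hn0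
          rw [hD]
          have a1 := abs_nonneg (R - R')
          have a2 := abs_nonneg (c.1 - c'.1)
          have a3 := abs_nonneg (c.2 - c'.2)
          nlinarith [mul_nonneg hB0 a2, mul_nonneg hB0 a3]
        _ ≤ _ := mul_le_mul_of_nonneg_right hn (by positivity)
    calc ak H k * |_| ≤ sqrt K * (2 * N * (2 * N * ((1 + B) * D))) := by
          refine mul_le_mul (ak_le hK hk) (h1.trans ?_) (abs_nonneg _) (sqrt_nonneg _)
          refine mul_le_mul ?_ h3 (abs_nonneg _) (by positivity)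
          linarith
      _ = 4 * sqrt K * (1 + B) * (N : ℝ) ^ 2 * D := by ring
  refine (Finset.abs_sum_le_sum_abs _ _).trans ((Finset.sum_le_sum hterm).trans ?_)
  rw [Finset.sum_const, nsmul_eq_mul]
  calc ((prim N).card : ℝ) * (4 * sqrt K * (1 + B) * (N : ℝ) ^ 2 * D) ≤ 9 * (N : ℝ) ^ 2 * (4 * sqrt K * (1 + B) * (N : ℝ) ^ 2 * D) :=
        mul_le_mul_of_nonneg_right (prim_card N) (by positivity)
    _ = _ := by ring

/-- `C p^d` is small compared with `2^(θ p)` -/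
theorem poly_le (C : ℝ) (d : ℕ) {θ : ℝ} (hθ : 0 < θ) : ∃ p₀ : ℕ, ∀ p : ℕ, p₀ ≤ p → C * (p : ℝ) ^ d ≤ 2 ^ (θ * p) := by
  have h1 : Filter.Tendsto (fun x : ℝ => x ^ (d : ℝ) * exp (-(θ * log 2) * x)) Filter.atTop (nhds 0) :=
    tendsto_rpow_mul_exp_neg_mul_atTop_nhds_zero d (θ * log 2) (mul_pos hθ (log_pos (by norm_num)))
  have h2 := h1.comp tendsto_natCast_atTop_atTop
  have h3 := (h2.eventually (gt_mem_nhds (show (0 : ℝ) < 1 / (|C| + 1) by positivity)))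
  obtain ⟨p₀, hp₀⟩ := Filter.eventually_atTop.1 h3
  refine ⟨p₀, fun p hp => ?_⟩
  have h4 := hp₀ p hp
  simp only [Function.comp_apply, rpow_natCast] at h4
  have e : (2 : ℝ) ^ (θ * p) = exp (θ * log 2 * p) := by
    rw [rpow_def_of_pos (by norm_num)]
    congr 1
    ring
  rw [e]
  have h5 : exp (-(θ * log 2) * p) = (exp (θ * log 2 * p))⁻¹ := by
    rw [← exp_neg]
    congr 1
    ring
  rw [h5, ← div_eq_mul_inv, div_lt_div_iff₀ (exp_pos _) (by positivity), one_mul] at h4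
  have h6 : C ≤ |C| + 1 := (le_abs_self C).trans (by linarith)
  have h7 : (0 : ℝ) ≤ (p : ℝ) ^ d := by positivity
  nlinarith

end Pool.Agent.Helper93.EX
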