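import Pool.Agent.Helper93.EX.Prev4
import Pool.Agent.Helper41.EX.Close4
import Pool.Agent.Helper34.EX.Dy4

/-!
# EX4: the final form of the law of the large values
-/

open MeasureTheory Real Set Filter Topology

set_option autoImplicit false

namespace Pool.Agent.Helper93.EX

open Pool.Agent.Helper93.AO
open Pool.Agent.Helper22.LP (Fr fdet)
open Pool.Agent.Helper88.EX (idf Es Es_one Es_neg Es_le)

theorem LV_mono {F G : ℝ → ℝ} (h : ∀ x, F x ≤ G x) (t A B : ℝ) : LV F t A B ≤ LV G t A B :=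
  measureReal_mono (fun R hR => ⟨hR.1, lt_of_lt_of_le hR.2 (h R)⟩) (((measure_mono fun R hR => hR.1).trans_lt measure_Icc_lt_top).ne)

theorem kap_pos {σ : ℝ} (hσ : σ = 1 ∨ σ = -1) : 0 < kap σ := by
  have := Jc_pos hσ
  unfold kap
  positivity

/-- the law for one oval, for all `X` -/
theorem fin_law {H : ℝ → ℝ} (hO : IsOv H) {σ : ℝ} (hσ : σ = 1 ∨ σ = -1) (h1 : Law σ H) (h4 : Law4 σ H) {t : ℝ} (ht : 0 < t) {ε : ℝ} (hε : 0 < ε) :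
    ∃ X₀ : ℝ, ∀ X : ℝ, X₀ ≤ X → ∀ c : ℝ × ℝ,
      LVc (fun R => σ * Er idf H c R) t X (2 * X) ≤ X ^ (1 - (t / (kap σ * aff H ^ (3 / 4 : ℝ))) ^ 4 + ε) ∧
      (t < kap σ * aff H ^ (3 / 4 : ℝ) → X ^ (1 - (t / (kap σ * aff H ^ (3 / 4 : ℝ))) ^ 4 - ε) ≤ LVc (fun R => σ * Er idf H c R) t X (2 * X)) ∧
      (kap σ * aff H ^ (3 / 4 : ℝ) < t → ∀ R : ℝ, X ≤ R → σ * Er idf H c R < t * gR R) := by
  have hT : 0 < kap σ * aff H ^ (3 / 4 : ℝ) := by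
    have a1 := kap_pos hσ
    have a2 : 0 < aff H := aff_pos hO.smooth hO.rho_pos
    positivity
  obtain ⟨T, hTd⟩ : ∃ T : ℝ, T = kap σ * aff H ^ (3 / 4 : ℝ) := ⟨_, rfl⟩
  obtain ⟨u4, l4⟩ := h4
  rw [← hTd] at hT u4 l4 ⊢
  have hu := close4 hO hσ hT u4
  have hl : ∀ t : ℝ, 0 < t → t < T → ∀ ε : ℝ, 0 < ε → ∃ p₀ : ℕ, ∀ p : ℕ, p₀ ≤ p → ∀ j : ℕ, j < 2 → ∀ c : ℝ × ℝ,
      2 ^ ((1 - (t / T) ^ 4 - ε) * p : ℝ) ≤ LV (fun R => σ * Er idf H c R) t (2 ^ p * (1 + j / 2)) (2 ^ p * (1 + (j + 1) / 2)) := by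
    intro t ht htT ε hε
    obtain ⟨p₀, h⟩ := l4 t ht htT ε hε
    exact ⟨p₀, fun p hpp j hj c => (h p hpp j hj c).trans (LV_mono (fun R => Es_le hσ H c R) _ _ _)⟩
  obtain ⟨X₁, hX₁⟩ := dy4 (F := fun R c => σ * Er idf H c R) hT hu hl t ht ε hε
  obtain ⟨X₂, hX₂⟩ : ∃ X₂ : ℝ, T < t → ∀ R : ℝ, X₂ ≤ R → ∀ c : ℝ × ℝ, σ * Er idf H c R < t * gR R := by
    by_cases hTt : T < t
    · obtain ⟨R₀, hR₀⟩ := h1.1 ((t - T) / 2) (by linarith)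
      rw [← hTd] at hR₀
      refine ⟨max R₀ 2, fun _ R hR c => ?_⟩
      have hR2 : 2 ≤ R := (le_max_right _ _).trans hR
      have hg : 0 < gR R := mul_pos (rpow_pos_of_pos (by linarith) _) (rpow_pos_of_pos (log_pos (by linarith)) _)
      refine lt_of_le_of_lt (hR₀ R ((le_max_left _ _).trans hR) c) (mul_lt_mul_of_pos_right (by linarith) hg)
    · exact ⟨0, fun h => absurd h hTt⟩
  refine ⟨max X₁ X₂, fun X hX c => ?_⟩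
  obtain ⟨a1, a2⟩ := hX₁ X ((le_max_left _ _).trans hX) c
  exact ⟨a2, a1, fun hTt R hR => hX₂ hTt R (((le_max_right _ _).trans hX).trans hR) c⟩

theorem prev_fin4 {k : ℕ} {V : Type} [TopologicalSpace V] {val : V → ℝ → ℝ} [MeasurableSpace V] [BorelSpace V] (h : IsPer k val) (hk : 2 ≤ k) (hk5 : k ≤ 5) :
    ∃ B : Set V, (∀ H : V, H ∉ B → (∀ t, 0 < val H t + deriv (deriv (val H)) t) → (∀ K : Set Fr, IsCompact K → (∀ p ∈ K, fdet p ≠ 0) →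
        ∃ C : ℝ, ∀ p ∈ K, ∀ R : ℝ, 2 ≤ R → ∀ c : ℝ × ℝ, |Er p (val H) c R| ≤ C * gR R) ∧
        ∀ σ : ℝ, σ = 1 ∨ σ = -1 → ∀ t : ℝ, 0 < t → ∀ ε : ℝ, 0 < ε → ∃ X₀ : ℝ, ∀ X : ℝ, X₀ ≤ X → ∀ c : ℝ × ℝ,
          LVc (fun R => σ * Er idf (val H) c R) t X (2 * X) ≤ X ^ (1 - (t / (kap σ * aff (val H) ^ (3 / 4 : ℝ))) ^ 4 + ε) ∧
          (t < kap σ * aff (val H) ^ (3 / 4 : ℝ) → X ^ (1 - (t / (kap σ * aff (val H) ^ (3 / 4 : ℝ))) ^ 4 - ε) ≤ LVc (fun R => σ * Er idf (val H) c R) t X (2 * X)) ∧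
          (kap σ * aff (val H) ^ (3 / 4 : ℝ) < t → ∀ R : ℝ, X ≤ R → σ * Er idf (val H) c R < t * gR R)) ∧
      MeasurableSet B ∧ ∃ μ : Measure V, IsProbabilityMeasure μ ∧ (∃ K : Set V, IsCompact K ∧ μ Kᶜ = 0) ∧
        ∀ v : V, μ {w | ∃ u ∈ B, ∀ t, val u t = val w t + val v t} = 0 := by
  obtain ⟨B, h1, h2, h3⟩ := prev_law4 h hk hk5
  refine ⟨B, fun H hB hH => ?_, h2, h3⟩
  obtain ⟨a1, a2⟩ := h1 H hB hH
  refine ⟨a1, fun σ hσ t ht ε hε => ?_⟩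
  have hO : IsOv (val H) := ⟨(h.smooth H).of_le (by exact_mod_cast hk), h.per H, hH⟩
  obtain ⟨b1, b2⟩ := a2 σ hσ
  exact fin_law hO hσ b1 b2 ht hε

end Pool.Agent.Helper93.EX
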