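import Pool.Agent.Helper93.EX.Defs
import Pool.Agent.Helper88.EX.BorelB

/-!
# EX4 (MP_fb29e9_nt, AlmostEveryOval v4): the law of the large values. Definitions

See README4.md in this folder.
-/

open MeasureTheory Real Set Filter Topology

set_option autoImplicit false

namespace Pool.Agent.Helper93.EX

open Pool.Agent.Helper93.AO

/-- the measure of the set of the `R` between `A` and `B` with `F R > t g(R)` -/
noncomputable def LV (F : ℝ → ℝ) (t A B : ℝ) : ℝ := volume.real {R : ℝ | R ∈ Icc A B ∧ t * gR R < F R}

/-- the same with `≥` -/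
noncomputable def LVc (F : ℝ → ℝ) (t A B : ℝ) : ℝ := volume.real {R : ℝ | R ∈ Icc A B ∧ t * gR R ≤ F R}

end Pool.Agent.Helper93.EX
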