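import Pool.Agent.Helper93.AO.Term
import Pool.Agent.Helper93.AO.Sec
import Pool.Agent.Helper93.EX.Defs

/-!
# EX: resampling the coefficients of one level at a separated set of indices
-/

open MeasureTheory Real Set Filter Topology

set_option autoImplicit false

namespace Pool.Agent.Helper93.EX

open Pool.Agent.Helper93.AO
open Pool.Agent.Helper22.AE (rho nk tk box cz)

/-- the coordinates of level `l` with index in `I` -/
def FF (l : ℕ) (I : Finset ℕ) : Set (ℕ × ℕ) := {i | i.1 = l ∧ i.2 ∈ I}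

private theorem lev_near {l m : ℕ} {I : Finset ℕ} {t : ℝ} (hI : ∀ m' ∈ I, m' < 4 * 16 ^ l) (hm : m ∈ I)
    (ht : |16 ^ l * sin ((t - th l m) / 2)| ≤ 4 / 5) (hs : ∀ m' ∈ I, m' ≠ m → 2 < |16 ^ l * sin ((t - th l m') / 2)|) (x ω : Om) :
    ∀ᶠ s in 𝓝 t, lev l (upd (FF l I) x ω) s = lev l (upd (FF l I) om0 ω) s +
      (((x (l, m)).1 : ℝ) * cos (s - th l m) + ((x (l, m)).2 : ℝ) * (16 ^ l * sin (s - th l m))) := by
  classical
  have tend : ∀ m', Tendsto (fun s : ℝ => s - th l m') (𝓝 t) (𝓝 (t - th l m')) := fun m' =>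
    ((continuous_id.sub continuous_const).tendsto t)
  have key : ∀ m' ∈ Finset.range (4 * 16 ^ l), ∀ᶠ s in 𝓝 t,
      ((upd (FF l I) x ω (l, m')).1 : ℝ) * e1 l (s - th l m') +
        ((upd (FF l I) x ω (l, m')).2 : ℝ) * e2 l (s - th l m') =
      (((upd (FF l I) om0 ω (l, m')).1 : ℝ) * e1 l (s - th l m') +
        ((upd (FF l I) om0 ω (l, m')).2 : ℝ) * e2 l (s - th l m')) +
      (if m' = m then (((x (l, m)).1 : ℝ) * cos (s - th l m) +
        ((x (l, m)).2 : ℝ) * (16 ^ l * sin (s - th l m))) else 0) := by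
    intro m' _
    by_cases h8 : m' ∈ I
    · by_cases hmm : m' = m
      · subst hmm
        have hF : (l, m') ∈ FF l I := ⟨rfl, h8⟩
        have hlt : |16 ^ l * sin ((t - th l m') / 2)| < 1 := by linarith
        filter_upwards [(tend m').eventually (e1_plateau hlt),
          (tend m').eventually (e2_plateau hlt)] with s h1 h2
        rw [h1, h2]
        simp [upd, hF, om0, j0]
      · have hz := e_zero (hs m' h8 hmm)
        filter_upwards [(tend m').eventually hz.1, (tend m').eventually hz.2] with s h1 h2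
        rw [h1, h2]
        simp [hmm]
    · have hF : (l, m') ∉ FF l I := fun k => h8 k.2
      have hmm : m' ≠ m := fun h => h8 (by rw [h]; exact hm)
      exact Filter.Eventually.of_forall fun s => by simp [upd, hF, hmm]
  filter_upwards [(Filter.eventually_all_finset _).2 key] with s hs
  unfold lev
  rw [Finset.sum_congr rfl hs, Finset.sum_add_distrib, Finset.sum_ite_eq']
  simp [hI m hm]

private theorem lev_ne {l l' : ℕ} {I : Finset ℕ} (h : l' ≠ l) (x ω : Om) : lev l' (upd (FF l I) x ω) = lev l' (upd (FF l I) om0 ω) := by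
  have e : ∀ (x : Om) (m : ℕ), upd (FF l I) x ω (l', m) = ω (l', m) := by
    intro x m
    have : (l', m) ∉ FF l I := fun k => h k.1
    simp [upd, this]
  funext t
  simp only [lev, e]

private theorem WW_near {l m : ℕ} {I : Finset ℕ} {t : ℝ} (hI : ∀ m' ∈ I, m' < 4 * 16 ^ l) (hm : m ∈ I)
    (ht : |16 ^ l * sin ((t - th l m) / 2)| ≤ 4 / 5) (hs : ∀ m' ∈ I, m' ≠ m → 2 < |16 ^ l * sin ((t - th l m') / 2)|) (x ω : Om) :
    WW (upd (FF l I) x ω) =ᶠ[𝓝 t] fun s => WW (upd (FF l I) om0 ω) s +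
      (((x (l, m)).1 : ℝ) * cos (s - th l m) + ((x (l, m)).2 : ℝ) * (16 ^ l * sin (s - th l m))) / 2 ^ (21 * l) := by
  filter_upwards [lev_near hI hm ht hs x ω] with s hs'
  have hu := WW_deriv (j := 0) (by norm_num) (upd (FF l I) x ω) s
  have hv := WW_deriv (j := 0) (by norm_num) (upd (FF l I) om0 ω) s
  simp only [iteratedDeriv_zero] at hu hv
  have e : ∀ l' : ℕ, lev l' (upd (FF l I) x ω) s / 2 ^ (21 * l') =
      lev l' (upd (FF l I) om0 ω) s / 2 ^ (21 * l') +
        (if l' = l then (((x (l, m)).1 : ℝ) * cos (s - th l m) +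
          ((x (l, m)).2 : ℝ) * (16 ^ l * sin (s - th l m))) / 2 ^ (21 * l) else 0) := by
    intro l'
    by_cases h : l' = l
    · subst h
      rw [hs', if_pos rfl, add_div]
    · rw [if_neg h, add_zero, lev_ne h]
  rw [hu.2, tsum_congr e, Summable.tsum_add hv.1 (summable_of_ne_finset_zero (s := {l}) (by
    intro b hb
    rw [Finset.mem_singleton] at hb
    exact if_neg hb)), tsum_ite_eq, ← hv.2]

/-- the resampling at a separated set of indices: effect on the value and on the radius of curvature -/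
theorem jet_F {l m : ℕ} {I : Finset ℕ} {t : ℝ} (hI : ∀ m' ∈ I, m' < 4 * 16 ^ l) (hm : m ∈ I)
    (ht : |16 ^ l * sin ((t - th l m) / 2)| ≤ 4 / 5) (hs : ∀ m' ∈ I, m' ≠ m → 2 < |16 ^ l * sin ((t - th l m') / 2)|) (x ω : Om) :
    (WW (upd (FF l I) x ω) t = WW (upd (FF l I) om0 ω) t +
      (((x (l, m)).1 : ℝ) * cos (t - th l m) + ((x (l, m)).2 : ℝ) * (16 ^ l * sin (t - th l m))) / 2 ^ (21 * l)) ∧
    rho (WW (upd (FF l I) x ω)) t = rho (WW (upd (FF l I) om0 ω)) t := by
  have h0 := WW_near hI hm ht hs x ω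
  have sm := WW_smooth (upd (FF l I) om0 ω)
  have d0 : Differentiable ℝ (WW (upd (FF l I) om0 ω)) := sm.differentiable (by norm_num)
  have d1 : Differentiable ℝ (deriv (WW (upd (FF l I) om0 ω))) := by
    have h2 : ContDiff ℝ 2 (WW (upd (FF l I) om0 ω)) := sm.of_le (by norm_num)
    have h3 := ContDiff.differentiable_iteratedDeriv 1 h2 (by norm_num)
    rwa [iteratedDeriv_one] at h3
  have p1 : ∀ s : ℝ, HasDerivAt (fun s : ℝ => (((x (l, m)).1 : ℝ) * cos (s - th l m) +
      ((x (l, m)).2 : ℝ) * (16 ^ l * sin (s - th l m))) / 2 ^ (21 * l))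
      ((-((x (l, m)).1 : ℝ) * sin (s - th l m) +
        ((x (l, m)).2 : ℝ) * (16 ^ l * cos (s - th l m))) / 2 ^ (21 * l)) s := by
    intro s
    have g : HasDerivAt (fun s : ℝ => s - th l m) 1 s := (hasDerivAt_id s).sub_const _
    have g1 := (g.cos.const_mul ((x (l, m)).1 : ℝ)).add
      ((g.sin.const_mul ((16 : ℝ) ^ l)).const_mul ((x (l, m)).2 : ℝ))
    have g2 := g1.div_const ((2 : ℝ) ^ (21 * l))
    refine g2.congr_deriv ?_
    ring
  have p2 : ∀ s : ℝ, HasDerivAt (fun s : ℝ => (-((x (l, m)).1 : ℝ) * sin (s - th l m) +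
      ((x (l, m)).2 : ℝ) * (16 ^ l * cos (s - th l m))) / 2 ^ (21 * l))
      ((-((x (l, m)).1 : ℝ) * cos (s - th l m) -
        ((x (l, m)).2 : ℝ) * (16 ^ l * sin (s - th l m))) / 2 ^ (21 * l)) s := by
    intro s
    have g : HasDerivAt (fun s : ℝ => s - th l m) 1 s := (hasDerivAt_id s).sub_const _
    have g1 := (g.sin.const_mul (-((x (l, m)).1 : ℝ))).add
      ((g.cos.const_mul ((16 : ℝ) ^ l)).const_mul ((x (l, m)).2 : ℝ))
    have g2 := g1.div_const ((2 : ℝ) ^ (21 * l))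
    refine g2.congr_deriv ?_
    ring
  have h1 : deriv (WW (upd (FF l I) x ω)) =ᶠ[𝓝 t] fun s =>
      deriv (WW (upd (FF l I) om0 ω)) s +
        (-((x (l, m)).1 : ℝ) * sin (s - th l m) +
          ((x (l, m)).2 : ℝ) * (16 ^ l * cos (s - th l m))) / 2 ^ (21 * l) := by
    refine h0.deriv.trans (Filter.Eventually.of_forall fun s => ?_)
    exact ((d0 s).hasDerivAt.add (p1 s)).deriv
  refine ⟨h0.eq_of_nhds, ?_⟩
  have h2 : deriv (deriv (WW (upd (FF l I) x ω))) t = deriv (deriv (WW (upd (FF l I) om0 ω))) t +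
      (-((x (l, m)).1 : ℝ) * cos (t - th l m) - ((x (l, m)).2 : ℝ) * (16 ^ l * sin (t - th l m))) / 2 ^ (21 * l) := by
    rw [h1.deriv_eq]
    exact ((d1 t).hasDerivAt.add (p2 t)).deriv
  unfold rho
  rw [h2, h0.eq_of_nhds]
  ring

/-! the separation of the directions of primitive vectors -/

private theorem sin_half {x : ℝ} : |sin x| ≤ 2 * |sin (x / 2)| := by
  have e : sin x = 2 * sin (x / 2) * cos (x / 2) := by
    rw [← sin_two_mul]
    congr 1
    ring
  rw [e, abs_mul, abs_mul, abs_two]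
  have h1 := abs_cos_le_one (x / 2)
  have h2 := abs_nonneg (sin (x / 2))
  nlinarith [abs_nonneg (cos (x / 2))]

private theorem sin_sub_le (a b : ℝ) : |sin (a + b)| ≤ |sin a| + |sin b| := by
  rw [sin_add]
  refine (abs_add_le _ _).trans ?_
  rw [abs_mul, abs_mul]
  have h1 := abs_cos_le_one a
  have h2 := abs_cos_le_one b
  have h3 := abs_nonneg (sin a)
  have h4 := abs_nonneg (sin b)
  nlinarith [abs_nonneg (cos a), abs_nonneg (cos b)]

theorem nk_cos (k : ℤ × ℤ) : nk k * cos (tk k) = k.1 := Complex.norm_mul_cos_arg (cz k)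

theorem nk_sin (k : ℤ × ℤ) : nk k * sin (tk k) = k.2 := Complex.norm_mul_sin_arg (cz k)

private theorem cross (k k' : ℤ × ℤ) : nk k * nk k' * sin (tk k' - tk k) = ((k.1 * k'.2 - k.2 * k'.1 : ℤ) : ℝ) := by
  have h : nk k * nk k' * sin (tk k' - tk k) = (nk k * cos (tk k)) * (nk k' * sin (tk k')) - (nk k * sin (tk k)) * (nk k' * cos (tk k')) := by
    rw [Real.sin_sub]
    ring
  rw [h, nk_cos, nk_sin, nk_cos, nk_sin]
  push_cast
  ring

private theorem dotp (k k' : ℤ × ℤ) : nk k * nk k' * cos (tk k' - tk k) = ((k.1 * k'.1 + k.2 * k'.2 : ℤ) : ℝ) := by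
  have h : nk k * nk k' * cos (tk k' - tk k) = (nk k * cos (tk k)) * (nk k' * cos (tk k')) + (nk k * sin (tk k)) * (nk k' * sin (tk k')) := by
    rw [Real.cos_sub]
    ring
  rw [h, nk_cos, nk_sin, nk_cos, nk_sin]
  push_cast
  ring

theorem mem_prim {N : ℕ} {k : ℤ × ℤ} : k ∈ prim N ↔ Int.gcd k.1 k.2 = 1 ∧ sn k < N := by
  unfold prim
  rw [Finset.mem_filter]
  refine ⟨fun h => h.2, fun h => ⟨?_, h⟩⟩
  have h2 := h.2
  unfold sn at h2
  unfold box
  rw [Finset.mem_product, Finset.mem_Icc, Finset.mem_Icc]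
  have h3 : k.1.natAbs < N := lt_of_le_of_lt (le_max_left _ _) h2
  have h4 : k.2.natAbs < N := lt_of_le_of_lt (le_max_right _ _) h2
  omega

theorem prim_ne {N : ℕ} {k : ℤ × ℤ} (hk : k ∈ prim N) : k ≠ 0 := by
  intro h
  have h1 := (mem_prim.1 hk).1
  rw [h] at h1
  simp at h1

theorem nk_le_sn (k : ℤ × ℤ) : nk k ≤ 2 * sn k := by
  have h1 : nk k ≤ |(k.1 : ℝ)| + |(k.2 : ℝ)| := Complex.norm_le_abs_re_add_abs_im (cz k)
  have h2 : |(k.1 : ℝ)| ≤ sn k := by
    have : (k.1.natAbs : ℝ) ≤ sn k := by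
      unfold sn
      exact_mod_cast le_max_left _ _
    rwa [Nat.cast_natAbs, Int.cast_abs] at this
  have h3 : |(k.2 : ℝ)| ≤ sn k := by
    have : (k.2.natAbs : ℝ) ≤ sn k := by
      unfold sn
      exact_mod_cast le_max_right _ _
    rwa [Nat.cast_natAbs, Int.cast_abs] at this
  linarith

/-- two primitive vectors with cross product `0` are equal or opposite -/
private theorem prim_eq {k k' : ℤ × ℤ} (hk : Int.gcd k.1 k.2 = 1) (hk' : Int.gcd k'.1 k'.2 = 1) (h : k.1 * k'.2 - k.2 * k'.1 = 0) : k' = k ∨ k' = -k := by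
  have h1 : IsCoprime k.1 k.2 := Int.isCoprime_iff_gcd_eq_one.2 hk
  have h2 : IsCoprime k'.1 k'.2 := Int.isCoprime_iff_gcd_eq_one.2 hk'
  obtain ⟨u, v, huv⟩ := h1
  obtain ⟨u', v', huv'⟩ := h2
  -- k' = n k
  obtain ⟨n, hn⟩ : ∃ n : ℤ, n = u * k'.1 + v * k'.2 := ⟨_, rfl⟩
  have e1 : k'.1 = n * k.1 := by
    rw [hn]
    linear_combination (-k'.1) * huv - v * h
  have e2 : k'.2 = n * k.2 := by
    rw [hn]
    linear_combination (-k'.2) * huv + u * h
  have e3 : n * (u' * k.1 + v' * k.2) = 1 := by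
    rw [e1, e2] at huv'
    linear_combination huv'
  rcases Int.isUnit_iff.1 (IsUnit.of_mul_eq_one _ e3) with h4 | h4
  · left
    rw [h4] at e1 e2
    exact Prod.ext (by linarith) (by linarith)
  · right
    rw [h4] at e1 e2
    exact Prod.ext (by simp; linarith) (by simp; linarith)

/-- the directions of different primitive vectors are separated -/
theorem dir_sep {N : ℕ} {k k' : ℤ × ℤ} (hk : k ∈ prim N) (hk' : k' ∈ prim N) (hne : k' ≠ k) : 1 ≤ 8 * (N : ℝ) ^ 2 * |sin ((tk k' - tk k) / 2)| := by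
  have a1 := mem_prim.1 hk
  have a2 := mem_prim.1 hk'
  have hN : (1 : ℝ) ≤ N := by
    have : 0 < N := lt_of_le_of_lt (Nat.zero_le _) a1.2
    exact_mod_cast this
  have n1 : nk k ≤ 2 * N := (nk_le_sn k).trans (by
    have : (sn k : ℝ) ≤ N := by exact_mod_cast a1.2.le
    linarith)
  have n2 : nk k' ≤ 2 * N := (nk_le_sn k').trans (by
    have : (sn k' : ℝ) ≤ N := by exact_mod_cast a2.2.le
    linarith)
  have p1 : 0 ≤ nk k := norm_nonneg _
  have p2 : 0 ≤ nk k' := norm_nonneg _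
  by_cases h0 : k.1 * k'.2 - k.2 * k'.1 = 0
  · rcases prim_eq a1.1 a2.1 h0 with h | h
    · exact absurd h hne
    · -- opposite vectors
      have h1 := dotp k k'
      have h2 : nk k' = nk k := by
        rw [h]
        show ‖cz (-k)‖ = ‖cz k‖
        have : cz (-k) = - cz k := by
          apply Complex.ext <;> simp [cz]
        rw [this, norm_neg]
      have h3 : cos (tk k' - tk k) = -1 := by
        have h4 : nk k * nk k = ((k.1 : ℝ)) ^ 2 + (k.2 : ℝ) ^ 2 := by
          have c1 := nk_cos k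
          have c2 := nk_sin k
          rw [← c1, ← c2]
          have := sin_sq_add_cos_sq (tk k)
          calc nk k * nk k = nk k ^ 2 * (sin (tk k) ^ 2 + cos (tk k) ^ 2) := by rw [this]; ring
            _ = _ := by ring
        have h5 : nk k * nk k ≠ 0 := by
          rw [h4]
          intro h6
          have h7 : (k.1 : ℝ) = 0 := by nlinarith [sq_nonneg (k.1 : ℝ), sq_nonneg (k.2 : ℝ)]
          have h8 : (k.2 : ℝ) = 0 := by nlinarith [sq_nonneg (k.1 : ℝ), sq_nonneg (k.2 : ℝ)]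
          exact prim_ne hk (Prod.ext (by exact_mod_cast h7) (by exact_mod_cast h8))
        rw [h2, h] at h1
        push_cast at h1
        simp only [Prod.fst_neg, Prod.snd_neg, Int.cast_neg] at h1
        rw [← h] at h1
        have h6 : nk k * nk k * (cos (tk k' - tk k) + 1) = 0 := by
          rw [mul_add, h1, h4]
          ring
        rcases mul_eq_zero.1 h6 with h7 | h7
        · exact absurd h7 h5
        · linarith
      have h4 : sin ((tk k' - tk k) / 2) ^ 2 = 1 := by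
        have := Real.cos_sq' ((tk k' - tk k) / 2)
        have e : cos (tk k' - tk k) = 2 * cos ((tk k' - tk k) / 2) ^ 2 - 1 := by
          rw [← cos_two_mul]
          congr 1
          ring
        rw [h3] at e
        linarith
      have h5 : |sin ((tk k' - tk k) / 2)| = 1 := by
        rw [← Real.sqrt_sq_eq_abs, h4, Real.sqrt_one]
      rw [h5]
      nlinarith
  · have h1 := cross k k'
    have h2 : (1 : ℝ) ≤ |((k.1 * k'.2 - k.2 * k'.1 : ℤ) : ℝ)| := by
      have : (1 : ℤ) ≤ |k.1 * k'.2 - k.2 * k'.1| := Int.one_le_abs h0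
      exact_mod_cast this
    rw [← h1, abs_mul, abs_of_nonneg (mul_nonneg p1 p2)] at h2
    have h3 : |sin (tk k' - tk k)| ≤ 2 * |sin ((tk k' - tk k) / 2)| := sin_half
    have h4 : nk k * nk k' ≤ (2 * N) * (2 * N) := mul_le_mul n1 n2 p2 (by linarith)
    calc (1 : ℝ) ≤ nk k * nk k' * |sin (tk k' - tk k)| := h2
      _ ≤ (2 * N) * (2 * N) * (2 * |sin ((tk k' - tk k) / 2)|) := mul_le_mul h4 h3 (abs_nonneg _) (by positivity)
      _ = _ := by ring

/-- the index set of the level `l` -/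
noncomputable def Ix (N l : ℕ) : Finset ℕ := (prim N).image fun k => idx l (tk k)

theorem ix_sep {N l : ℕ} (hl : 20 * (N : ℝ) ^ 2 ≤ 16 ^ l) {k k' : ℤ × ℤ} (hk : k ∈ prim N) (hk' : k' ∈ prim N) (hne : k' ≠ k) :
    2 < |16 ^ l * sin ((tk k - th l (idx l (tk k'))) / 2)| := by
  have h1 := dir_sep hk hk' hne
  have h2 := idx_near l (tk k')
  have hA : (0 : ℝ) < 16 ^ l := by positivity
  rw [abs_mul, abs_of_pos hA] at h2 ⊢
  have h3 : |sin ((tk k' - tk k) / 2)| ≤ |sin ((tk k' - th l (idx l (tk k'))) / 2)| + |sin ((tk k - th l (idx l (tk k'))) / 2)| := by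
    have e : (tk k' - tk k) / 2 = (tk k' - th l (idx l (tk k'))) / 2 + -((tk k - th l (idx l (tk k'))) / 2) := by ring
    rw [e]
    refine (sin_sub_le _ _).trans (le_of_eq ?_)
    rw [Real.sin_neg, abs_neg]
  have hN : (1 : ℝ) ≤ N := by
    have : 0 < N := lt_of_le_of_lt (Nat.zero_le _) (mem_prim.1 hk).2
    exact_mod_cast this
  have h4 : 5 / 2 ≤ 16 ^ l * |sin ((tk k' - tk k) / 2)| := by
    calc (5 / 2 : ℝ) ≤ 5 / 2 * (8 * (N : ℝ) ^ 2 * |sin ((tk k' - tk k) / 2)|) := by linarith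
      _ = 20 * (N : ℝ) ^ 2 * |sin ((tk k' - tk k) / 2)| := by ring
      _ ≤ 16 ^ l * |sin ((tk k' - tk k) / 2)| := mul_le_mul_of_nonneg_right hl (abs_nonneg _)
  have h5 := mul_le_mul_of_nonneg_left h3 hA.le
  rw [mul_add] at h5
  linarith

theorem idx_inj {N l : ℕ} (hl : 20 * (N : ℝ) ^ 2 ≤ 16 ^ l) {k k' : ℤ × ℤ} (hk : k ∈ prim N) (hk' : k' ∈ prim N) (h : idx l (tk k) = idx l (tk k')) : k = k' := by
  by_contra hne
  have h1 := ix_sep hl hk hk' (fun h => hne h.symm)
  rw [← h] at h1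
  have h2 := idx_near l (tk k)
  linarith

/-- the resampling at the directions of the primitive vectors -/
theorem jet_prim {N l : ℕ} (hl : 20 * (N : ℝ) ^ 2 ≤ 16 ^ l) {k : ℤ × ℤ} (hk : k ∈ prim N) (x ω : Om) :
    (WW (upd (FF l (Ix N l)) x ω) (tk k) = WW (upd (FF l (Ix N l)) om0 ω) (tk k) +
      (((x (l, idx l (tk k))).1 : ℝ) * cos (tk k - th l (idx l (tk k))) +
        ((x (l, idx l (tk k))).2 : ℝ) * (16 ^ l * sin (tk k - th l (idx l (tk k))))) / 2 ^ (21 * l)) ∧
    rho (WW (upd (FF l (Ix N l)) x ω)) (tk k) = rho (WW (upd (FF l (Ix N l)) om0 ω)) (tk k) := by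
  have hm : idx l (tk k) ∈ Ix N l := by
    unfold Ix
    exact Finset.mem_image.2 ⟨k, hk, rfl⟩
  refine jet_F (fun m' hm' => ?_) hm ((idx_near l (tk k)).trans (by norm_num)) (fun m' hm' hne => ?_) x ω
  · unfold Ix at hm'
    obtain ⟨k', _, h⟩ := Finset.mem_image.1 hm'
    rw [← h]
    exact idx_lt l _
  · unfold Ix at hm'
    obtain ⟨k', hk', h⟩ := Finset.mem_image.1 hm'
    rw [← h] at hne ⊢
    exact ix_sep hl hk hk' (fun h => hne (by rw [h]))

end Pool.Agent.Helper93.EX
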