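import Pool.Agent.Helper93.EX.Nu1
import Pool.Agent.Helper93.AO.Res

/-!
# EX: the law of the phases at one time and at two times
-/

open MeasureTheory Set
open scoped ENNReal

set_option autoImplicit false

namespace Pool.Agent.Helper93.EX

open Pool.Agent.Helper93.AO

variable {κ : Type} [Fintype κ] [DecidableEq κ]

omit [DecidableEq κ] in
/-- functions of different coordinates: the law is a product -/
theorem law_pi {E : Type} [MeasurableSpace E] (ν : Measure J1) [IsProbabilityMeasure ν] {φ : κ → J1 × J1 → E} (hφ : ∀ k, Measurable (φ k)) {c : κ → ℕ × ℕ}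
    (hc : Function.Injective c) {F : (κ → E) → ℝ≥0∞} (hF : Measurable F) :
    ∫⁻ x : Om, F (fun k => φ k (x (c k))) ∂(PP ν) = ∫⁻ z, F z ∂(Measure.pi fun k => Measure.map (φ k) (ν.prod ν)) := by
  have h1 : ∀ k, Measurable fun x : Om => φ k (x (c k)) := fun k => (hφ k).comp (measurable_pi_apply _)
  have h2 := (ProbabilityTheory.iIndepFun_iff_map_fun_eq_pi_map (fun k => (h1 k).aemeasurable)).1 (coord_indep (ν := ν) hφ hc)
  have h3 : ∀ k, Measure.map (fun x : Om => φ k (x (c k))) (PP ν) = Measure.map (φ k) (ν.prod ν) := by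
    intro k
    have h4 : MeasurePreserving (Function.eval (c k)) (PP ν) (ν.prod ν) := measurePreserving_eval_infinitePi (fun _ : ℕ × ℕ => ν.prod ν) (c k)
    rw [← h4.map_eq, Measure.map_map (hφ k) h4.measurable]
    rfl
  simp only [h3] at h2
  rw [← h2, lintegral_map hF (measurable_pi_iff.2 h1)]

/-- the uniform law on `(0, 1]` -/
noncomputable def uI : Measure ℝ := volume.restrict (Ioc (0 : ℝ) 1)

instance : IsProbabilityMeasure uI := by
  constructor
  unfold uI
  rw [Measure.restrict_apply MeasurableSet.univ, univ_inter, Real.volume_Ioc]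
  norm_num

private theorem per_of {g : ℝ → ℝ≥0∞} (h : ∀ (n : ℤ) (y : ℝ), g (y + n) ≤ 1 * g y) : Function.Periodic g 1 := by
  intro y
  have h1 := h 1 y
  have h2 := h (-1) (y + 1)
  rw [one_mul] at h1 h2
  push_cast at h1 h2
  rw [show y + 1 + -1 = y by ring] at h2
  exact le_antisymm h1 h2

private theorem per_le {F : (κ → ℝ) → ℝ≥0∞} (hp : ∀ x i, F (Function.update x i (x i + 1)) = F x) (x : κ → ℝ) (i : κ) (n : ℤ) :
    F (Function.update x i (x i + n)) ≤ 1 * F x := by
  rw [one_mul]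
  have h : Function.Periodic (fun t => F (Function.update x i t)) 1 := by
    intro t
    have h1 := hp (Function.update x i t) i
    simpa using h1
  have h2 := h.int_mul n (x i)
  simp only [mul_one, Function.update_eq_self] at h2
  exact h2.le

/-- one time, upper bound -/
theorem time_up {A B b : κ → ℝ} {a : ℝ} (ha : 0 < a) (hA : ∀ k, a ≤ |A k|) {c : κ → ℕ × ℕ} (hc : Function.Injective c) {F : (κ → ℝ) → ℝ≥0∞} (hF : Measurable F)
    (hp : ∀ x i, F (Function.update x i (x i + 1)) = F x) :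
    ∫⁻ x : Om, F (fun k => A k * ((x (c k)).1 : ℝ) + B k * ((x (c k)).2 : ℝ) + b k) ∂(PP nu1) ≤
      ENNReal.ofReal (1 + 1 / a) ^ Fintype.card κ * ∫⁻ z, F z ∂(Measure.pi fun _ : κ => uI) := by
  have hφ : ∀ k, Measurable fun y : J1 × J1 => A k * (y.1 : ℝ) + B k * (y.2 : ℝ) + b k := fun k => by fun_prop
  have h := law_pi nu1 hφ hc hF
  rw [h]
  have hpr : ∀ k, IsProbabilityMeasure (Measure.map (fun y : J1 × J1 => A k * (y.1 : ℝ) + B k * (y.2 : ℝ) + b k) (nu1.prod nu1)) := fun k =>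
    Measure.isProbabilityMeasure_map (hφ k).aemeasurable
  refine marg (T := fun (n : ℤ) (y : ℝ) => y + n) (K := fun _ => 1) (fun k g hg hT => ?_) hF (fun x i n => per_le hp x i n)
  have hA0 : A k ≠ 0 := by
    intro h0
    have := hA k
    rw [h0, abs_zero] at this
    linarith
  rw [lintegral_map hg (hφ k)]
  refine (one_up hg (per_of hT) hA0 (B k) (b k)).trans (mul_le_mul_left (ENNReal.ofReal_le_ofReal ?_) _)
  have : 1 / |A k| ≤ 1 / a := one_div_le_one_div_of_le ha (hA k)
  linarith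

/-- one time, lower bound -/
theorem time_lo {A B b : κ → ℝ} {a : ℝ} (ha : 1 < a) (hA : ∀ k, a ≤ |A k|) {c : κ → ℕ × ℕ} (hc : Function.Injective c) {F : (κ → ℝ) → ℝ≥0∞} (hF : Measurable F)
    (hp : ∀ x i, F (Function.update x i (x i + 1)) = F x) :
    ∫⁻ z, F z ∂(Measure.pi fun _ : κ => uI) ≤
      ENNReal.ofReal (1 / (1 - 1 / a)) ^ Fintype.card κ * ∫⁻ x : Om, F (fun k => A k * ((x (c k)).1 : ℝ) + B k * ((x (c k)).2 : ℝ) + b k) ∂(PP nu1) := by
  have hφ : ∀ k, Measurable fun y : J1 × J1 => A k * (y.1 : ℝ) + B k * (y.2 : ℝ) + b k := fun k => by fun_prop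
  have h := law_pi nu1 hφ hc hF
  rw [h]
  have hpr : ∀ k, IsProbabilityMeasure (Measure.map (fun y : J1 × J1 => A k * (y.1 : ℝ) + B k * (y.2 : ℝ) + b k) (nu1.prod nu1)) := fun k =>
    Measure.isProbabilityMeasure_map (hφ k).aemeasurable
  refine marg (T := fun (n : ℤ) (y : ℝ) => y + n) (K := fun _ => 1) (fun k g hg hT => ?_) hF (fun x i n => per_le hp x i n)
  have hA0 : A k ≠ 0 := by
    intro h0
    have := hA k
    rw [h0, abs_zero] at this
    linarith
  rw [lintegral_map hg (hφ k)]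
  have h1 := one_lo hg (per_of hT) hA0 (B k) (b k)
  have ha1 : 0 < 1 - 1 / a := by
    have : 1 / a < 1 := by rw [div_lt_one (by linarith)]; exact ha
    linarith
  have h2 : 1 - 1 / a ≤ 1 - 1 / |A k| := by
    have : 1 / |A k| ≤ 1 / a := one_div_le_one_div_of_le (by linarith) (hA k)
    linarith
  have h3 : ENNReal.ofReal (1 - 1 / a) * ∫⁻ y, g y ∂uI ≤ ∫⁻ y : J1 × J1, g (A k * (y.1 : ℝ) + B k * (y.2 : ℝ) + b k) ∂(nu1.prod nu1) :=
    (mul_le_mul_left (ENNReal.ofReal_le_ofReal h2) _).trans h1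
  calc ∫⁻ y, g y ∂uI = ENNReal.ofReal (1 / (1 - 1 / a)) * (ENNReal.ofReal (1 - 1 / a) * ∫⁻ y, g y ∂uI) := by
        rw [← mul_assoc, ← ENNReal.ofReal_mul (by positivity), one_div, inv_mul_cancel₀ ha1.ne', ENNReal.ofReal_one, one_mul]
    _ ≤ _ := mul_le_mul_right h3 _

/-- two times, upper bound -/
theorem time_two {A B b A' B' b' : κ → ℝ} {a e : ℝ} (ha : 0 < a) (hA : ∀ k, a ≤ |A k|) (hD : ∀ k, a ≤ |A' k - A k|) (he : ∀ k, |A' k - A k| / |A k| ≤ e) {c : κ → ℕ × ℕ}
    (hc : Function.Injective c) {F : (κ → ℝ × ℝ) → ℝ≥0∞} (hF : Measurable F) (hp : ∀ x i, F (Function.update x i ((x i).1 + 1, (x i).2)) = F x)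
    (hp' : ∀ x i, F (Function.update x i ((x i).1, (x i).2 + 1)) = F x) {Q : ℝ} (hQ0 : 0 ≤ Q)
    (hQ : ∀ x i t, F (Function.update x i ((x i).1, (x i).2 + t)) ≤ ENNReal.ofReal (Real.exp (Q * |t|)) * F x) :
    ∫⁻ x : Om, F (fun k => (A k * ((x (c k)).1 : ℝ) + B k * ((x (c k)).2 : ℝ) + b k, A' k * ((x (c k)).1 : ℝ) + B' k * ((x (c k)).2 : ℝ) + b' k)) ∂(PP nu1) ≤
      ENNReal.ofReal (Real.exp (Q * e) * (1 + 2 / a)) ^ Fintype.card κ * ∫⁻ z, F z ∂(Measure.pi fun _ : κ => uI.prod uI) := by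
  have hφ : ∀ k, Measurable fun y : J1 × J1 => (A k * (y.1 : ℝ) + B k * (y.2 : ℝ) + b k, A' k * (y.1 : ℝ) + B' k * (y.2 : ℝ) + b' k) := fun k => by fun_prop
  have h := law_pi nu1 hφ hc hF
  rw [h]
  have hpr : ∀ k, IsProbabilityMeasure (Measure.map (fun y : J1 × J1 => (A k * (y.1 : ℝ) + B k * (y.2 : ℝ) + b k, A' k * (y.1 : ℝ) + B' k * (y.2 : ℝ) + b' k)) (nu1.prod nu1)) := fun k =>
    Measure.isProbabilityMeasure_map (hφ k).aemeasurable
  refine marg (ι := Fin 4 ⊕ ℝ) (T := fun j (y : ℝ × ℝ) => match j with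
      | Sum.inl 0 => (y.1 + 1, y.2)
      | Sum.inl 1 => (y.1 - 1, y.2)
      | Sum.inl 2 => (y.1, y.2 + 1)
      | Sum.inl 3 => (y.1, y.2 - 1)
      | Sum.inr t => (y.1, y.2 + t)) (K := fun j => match j with
      | Sum.inl _ => 1
      | Sum.inr t => ENNReal.ofReal (Real.exp (Q * |t|))) (fun k g hg hT => ?_) hF (fun x i j => ?_)
  · have hA0 : A k ≠ 0 := by
      intro h0
      have := hA k
      rw [h0, abs_zero] at this
      linarith
    have hD0 : A' k ≠ A k := by
      intro h0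
      have := hD k
      rw [h0, sub_self, abs_zero] at this
      linarith
    have g1 : ∀ x y, g (x + 1, y) = g (x, y) := by
      intro x y
      have h1 := hT (Sum.inl 0) (x, y)
      have h2 := hT (Sum.inl 1) (x + 1, y)
      simp only [one_mul, add_sub_cancel_right] at h1 h2
      exact le_antisymm h1 h2
    have g2 : ∀ x y, g (x, y + 1) = g (x, y) := by
      intro x y
      have h1 := hT (Sum.inl 2) (x, y)
      have h2 := hT (Sum.inl 3) (x, y + 1)
      simp only [one_mul, add_sub_cancel_right] at h1 h2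
      exact le_antisymm h1 h2
    have g3 : ∀ x y t, g (x, y + t) ≤ ENNReal.ofReal (Real.exp (Q * |t|)) * g (x, y) := fun x y t => hT (Sum.inr t) (x, y)
    rw [lintegral_map hg (hφ k)]
    have h1 := two_up hg g1 g2 g3 hA0 hD0 (B k) (B' k) (b k) (b' k)
    have e1 : uI.prod uI = volume.restrict (Ioc (0 : ℝ) 1 ×ˢ Ioc (0 : ℝ) 1) := by
      unfold uI
      rw [Measure.prod_restrict, ← Measure.volume_eq_prod]
    rw [e1]
    refine h1.trans (mul_le_mul_left (ENNReal.ofReal_le_ofReal ?_) _)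
    have e2 : 1 / |A k| ≤ 1 / a := one_div_le_one_div_of_le ha (hA k)
    have e3 : 1 / |A' k - A k| ≤ 1 / a := one_div_le_one_div_of_le ha (hD k)
    have e4 : 1 + 1 / |A k| + 1 / |A' k - A k| ≤ 1 + 2 / a := by
      have : 2 / a = 1 / a + 1 / a := by ring
      linarith
    refine mul_le_mul (Real.exp_le_exp.2 ?_) e4 (by positivity) (Real.exp_pos _).le
    rw [abs_of_nonneg hQ0]
    exact mul_le_mul_of_nonneg_left (he k) hQ0
  · have q1 : ∀ x i, F (Function.update x i ((x i).1 - 1, (x i).2)) = F x := by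
      intro x i
      have := hp (Function.update x i ((x i).1 - 1, (x i).2)) i
      simpa using this.symm
    have q2 : ∀ x i, F (Function.update x i ((x i).1, (x i).2 - 1)) = F x := by
      intro x i
      have := hp' (Function.update x i ((x i).1, (x i).2 - 1)) i
      simpa using this.symm
    rcases j with j | t
    · fin_cases j
      · simp only [one_mul]
        exact (hp x i).le
      · simp only [one_mul]
        exact (q1 x i).le
      · simp only [one_mul]
        exact (hp' x i).le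
      · simp only [one_mul]
        exact (q2 x i).le
    · exact hQ x i t

end Pool.Agent.Helper93.EX
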