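import Pool.Agent.Helper93.EX.Low1

/-!
# EX: the almost sure lower bound
-/

open MeasureTheory Set Real

set_option autoImplicit false

namespace Pool.Agent.Helper93.EX

open Pool.Agent.Helper93.AO
open Pool.Agent.Helper22.AE (rho nk tk box cz)

/-- Borel-Cantelli -/
theorem bcl {E : ℕ → Set Om} {C θ : ℝ} (hC : 0 ≤ C) (hθ : 0 < θ) {p₂ : ℕ} (hmeas : ∀ p, p₂ ≤ p → (PP nu1).real (E p) ≤ C * (2 : ℝ) ^ (-(θ * p))) :
    ∀ᵐ ω ∂(PP nu1), ∃ p₃ : ℕ, ∀ p : ℕ, p₃ ≤ p → ω ∉ E p := by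
  have hsum : ∑' p, (PP nu1) (E (p + p₂)) ≠ ⊤ := by
    have hr0 : 0 < (2 : ℝ) ^ (-θ) := by positivity
    have hr1 : (2 : ℝ) ^ (-θ) < 1 := rpow_lt_one_of_one_lt_of_neg (by norm_num) (by linarith)
    have hs : Summable fun p : ℕ => C * (2 : ℝ) ^ (-(θ * ((p + p₂ : ℕ) : ℝ))) := by
      have e : ∀ p : ℕ, C * (2 : ℝ) ^ (-(θ * ((p + p₂ : ℕ) : ℝ))) = C * (2 : ℝ) ^ (-(θ * p₂)) * ((2 : ℝ) ^ (-θ)) ^ p := by
        intro p
        rw [← rpow_natCast, ← rpow_mul (by norm_num), mul_assoc, ← rpow_add (by norm_num)]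
        congr 2
        push_cast
        ring
      simp only [e]
      exact (summable_geometric_of_lt_one hr0.le hr1).mul_left _
    refine ne_top_of_le_ne_top (ENNReal.ofReal_ne_top (r := ∑' p : ℕ, C * (2 : ℝ) ^ (-(θ * ((p + p₂ : ℕ) : ℝ))))) ?_
    rw [ENNReal.ofReal_tsum_of_nonneg (fun p => by positivity) hs]
    refine ENNReal.tsum_le_tsum fun p => ?_
    rw [← ENNReal.ofReal_toReal (measure_ne_top (PP nu1) (E (p + p₂)))]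
    exact ENNReal.ofReal_le_ofReal (hmeas (p + p₂) (by omega))
  filter_upwards [ae_eventually_notMem hsum] with ω hω
  obtain ⟨p₃, hp₃⟩ := Filter.eventually_atTop.1 hω
  refine ⟨p₂ + p₃, fun p hpp => ?_⟩
  have h1 := hp₃ (p - p₂) (by omega)
  rwa [Nat.sub_add_cancel (by omega)] at h1

theorem two_rpow_le {x y : ℝ} (h : x ≤ y) : (2 : ℝ) ^ x ≤ 2 ^ y := rpow_le_rpow_of_exponent_le (by norm_num) h

/-- the parameters of the lower bound -/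
theorem low_par (a : ℕ) {τ : ℝ} (hτ : τ ≠ 0) {K B ell μ₀ m e e3 θ : ℝ} (hμ : 0 ≤ μ₀) (hB : 0 ≤ B) (he : 0 < e) (he3 : 0 < e3) (hθ : 0 < θ) (hθ1 : θ ≤ 1 / 8) :
    ∃ p₀ : ℕ, 1 ≤ p₀ ∧ ∀ p : ℕ, p₀ ≤ p → ∃ l : ℕ, ∃ A : ℝ, 20 * (NN a p : ℝ) ^ 2 ≤ 16 ^ l ∧ 1 < A ∧ A ≤ 2 ^ ⌊θ * (p : ℝ)⌋₊ * (|τ| / (2 * 2 ^ (21 * l))) ∧
      2 * (9 * (NN a p : ℝ) ^ 2 * (sqrt K * (2 * NN a p) * (|ell * Lx p ^ (3 / 4 : ℝ)| + 2 * (μ₀ * Lx p ^ (1 / 2 : ℝ)) * (9 * (NN a p : ℝ) ^ 2 * sqrt K + |m * Lx p ^ (1 / 4 : ℝ)|)) *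
        (1 / 2 ^ ⌊θ * (p : ℝ)⌋₊) + 2 / A)) ≤ 2 ^ (-(θ / 4 * p)) ∧
      (2 : ℝ) ^ (-(θ / 4 * p)) ≤ 1 / 2 ∧ log 4 ≤ e3 * Lx p ∧ log 4 ≤ 1 / 10 * Lx p ∧
      36 * sqrt K * (1 + B) * (NN a p : ℝ) ^ 4 * (2 / 2 ^ (θ / 16 * p)) ≤ e / 10 * Lx p ^ (1 / 4 : ℝ) := by
  have ht : 0 < |τ| := abs_pos.2 hτ
  have hl2 : 0 < log 2 := log_pos (by norm_num)
  have hl3 : log 2 ≤ 1 := by
    have := Real.log_two_lt_d9
    linarith
  have hl4 : log 4 = 2 * log 2 := by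
    rw [show (4 : ℝ) = 2 ^ 2 by norm_num, log_pow]
    norm_num
  obtain ⟨C1, hC1⟩ : ∃ C1 : ℝ, C1 = sqrt K * (2 * 2 ^ a) * (|ell| + 2 * μ₀ * (9 * (2 ^ a) ^ 2 * sqrt K + |m|)) := ⟨_, rfl⟩
  have hC10 : 0 ≤ C1 := by rw [hC1]; positivity
  obtain ⟨q1, hq1⟩ := poly_le (320 * (2 ^ a) ^ 2) 2 (θ := 4 * θ / 42) (by positivity)
  obtain ⟨q2, hq2⟩ := poly_le (36 * (2 ^ a) ^ 2 * (C1 + 4 / |τ|)) 7 (θ := θ / 8) (by positivity)
  obtain ⟨q3, hq3⟩ := poly_le 2 0 (θ := θ / 8) (by positivity)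
  obtain ⟨q4, hq4⟩ := poly_le (720 * sqrt K * (1 + B) * (2 ^ a) ^ 4 / (e * log 2)) 4 (θ := θ / 16) (by positivity)
  obtain ⟨q5, hq5⟩ := poly_le (4 / |τ|) 0 (θ := θ / 8) (by positivity)
  obtain ⟨q6, hq6⟩ := exists_nat_gt (2 / e3)
  refine ⟨q1 + q2 + q3 + q4 + q5 + q6 + 20, by omega, fun p hp => ?_⟩
  have g1 := hq1 p (by omega)
  have g2 := hq2 p (by omega)
  have g3 := hq3 p (by omega)
  have g4 := hq4 p (by omega)
  have g5 := hq5 p (by omega)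
  rw [pow_zero, mul_one] at g3 g5
  have hp1 : (20 : ℝ) ≤ p := by
    have : 20 ≤ p := by omega
    exact_mod_cast this
  have hp6 : 2 / e3 ≤ p := by
    have h1 : q6 ≤ p := by omega
    have h2 : (q6 : ℝ) ≤ p := by exact_mod_cast h1
    linarith only [hq6, h2]
  have hL : Lx p = p * log 2 := rfl
  have hL0 : 0 < Lx p := by rw [hL]; positivity
  have hN0 : (0 : ℝ) ≤ NN a p := Nat.cast_nonneg _
  have hN : (NN a p : ℝ) ≤ 2 ^ a * p := NN_le a (by omega)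
  have hN2 : (NN a p : ℝ) ^ 2 ≤ (2 ^ a) ^ 2 * (p : ℝ) ^ 2 := by
    rw [← mul_pow]
    exact pow_le_pow_left₀ hN0 hN 2
  have hN4 : (NN a p : ℝ) ^ 4 ≤ (2 ^ a) ^ 4 * (p : ℝ) ^ 4 := by
    rw [← mul_pow]
    exact pow_le_pow_left₀ hN0 hN 4
  have hrp : ∀ s : ℝ, 0 ≤ s → s ≤ 1 → Lx p ^ s ≤ p := by
    intro s hs hs1
    rcases le_total 1 (Lx p) with h | h
    · calc Lx p ^ s ≤ Lx p ^ (1 : ℝ) := rpow_le_rpow_of_exponent_le h hs1
        _ = p * log 2 := by rw [rpow_one, hL]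
        _ ≤ p * 1 := mul_le_mul_of_nonneg_left hl3 (by linarith only [hθ, hθ1, hp1])
        _ = p := mul_one _
    · exact (rpow_le_one hL0.le h hs).trans (by linarith only [hθ, hθ1, hp1])
  obtain ⟨P, hP⟩ : ∃ P : ℕ, P = ⌊θ * (p : ℝ)⌋₊ := ⟨_, rfl⟩
  rw [← hP]
  have hP1 : (P : ℝ) ≤ θ * p := by
    rw [hP]
    exact Nat.floor_le (by positivity)
  have hP2 : θ * p - 1 ≤ P := by
    rw [hP]
    have := Nat.lt_floor_add_one (θ * (p : ℝ))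
    linarith only [this]
  -- lower bound of the amplitude
  have hA1 : |τ| / 4 * 2 ^ (θ / 2 * (p : ℝ)) ≤ 2 ^ P * (|τ| / (2 * 2 ^ (21 * (P / 42)))) := by
    have h1 : (2 : ℝ) ^ (θ / 2 * (p : ℝ)) * 2 ^ (21 * (P / 42)) ≤ 2 * 2 ^ P := by
      have h2 : 21 * (P / 42) * 2 ≤ P := by omega
      have h3 : 21 * ((P / 42 : ℕ) : ℝ) * 2 ≤ P := by exact_mod_cast h2
      have e1 : (2 : ℝ) * 2 ^ P = 2 ^ ((1 : ℝ) + P) := by
        rw [rpow_add (by norm_num), rpow_one, rpow_natCast]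
      rw [e1, ← rpow_natCast 2 (21 * (P / 42)), ← rpow_add (by norm_num)]
      refine two_rpow_le ?_
      push_cast
      linarith only [hθ, hθ1, hP2, h3]
    calc |τ| / 4 * 2 ^ (θ / 2 * (p : ℝ)) = |τ| / (4 * 2 ^ (21 * (P / 42))) * (2 ^ (θ / 2 * (p : ℝ)) * 2 ^ (21 * (P / 42))) := by field_simp
      _ ≤ |τ| / (4 * 2 ^ (21 * (P / 42))) * (2 * 2 ^ P) := mul_le_mul_of_nonneg_left h1 (by positivity)
      _ = _ := by
        field_simp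
        norm_num
  obtain ⟨X, hX⟩ : ∃ X : ℝ, X = 2 ^ (θ / 8 * (p : ℝ)) := ⟨_, rfl⟩
  have hX0 : 0 < X := by rw [hX]; positivity
  have hX2 : (2 : ℝ) ^ (θ / 4 * (p : ℝ)) = X ^ 2 := by
    rw [hX, sq, ← rpow_add (by norm_num)]
    congr 1
    ring
  have hX4 : (2 : ℝ) ^ (θ / 2 * (p : ℝ)) = X ^ 4 := by
    rw [hX, ← rpow_natCast, ← rpow_mul (by norm_num)]
    congr 1
    push_cast
    ring
  have hX8 : (2 : ℝ) ^ (θ * (p : ℝ)) = X ^ 8 := by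
    rw [hX, ← rpow_natCast, ← rpow_mul (by norm_num)]
    congr 1
    push_cast
    ring
  rw [← hX] at g2 g3 g5
  have hPX : 1 / (2 : ℝ) ^ P ≤ 2 / X ^ 8 := by
    rw [div_le_div_iff₀ (by positivity) (by positivity), ← hX8, one_mul]
    have e1 : (2 : ℝ) * 2 ^ P = 2 ^ ((1 : ℝ) + P) := by
      rw [rpow_add (by norm_num), rpow_one, rpow_natCast]
    rw [e1]
    exact two_rpow_le (by linarith only [hP2])
  refine ⟨P / 42, |τ| / 4 * 2 ^ (θ / 2 * (p : ℝ)), ?_, ?_, hA1, ?_, ?_, ?_, ?_, ?_⟩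
  · have h2 : (2 : ℝ) ^ (4 * θ / 42 * (p : ℝ)) ≤ 16 * 16 ^ (P / 42) := by
      have e : (16 : ℝ) * 16 ^ (P / 42) = 2 ^ ((4 + 4 * (P / 42) : ℕ) : ℝ) := by
        rw [rpow_natCast, pow_add, pow_mul]
        norm_num
      rw [e]
      refine two_rpow_le ?_
      have h3 : P + 1 ≤ 42 * (P / 42) + 42 := by omega
      have h4 : (P : ℝ) + 1 ≤ 42 * ((P / 42 : ℕ) : ℝ) + 42 := by exact_mod_cast h3
      push_cast
      linarith only [hP2, h4]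
    linarith only [g1, hN2, h2]
  · rw [hX4]
    have h1 : 4 ≤ X * |τ| := by
      rw [div_le_iff₀ ht] at g5
      exact g5
    have h3 : (2 : ℝ) ^ 3 ≤ X ^ 3 := pow_le_pow_left₀ (by norm_num) g3 3
    have e5 : |τ| / 4 * X ^ 4 = X * |τ| / 4 * X ^ 3 := by ring
    rw [e5]
    have h4 : 1 * X ^ 3 ≤ X * |τ| / 4 * X ^ 3 := mul_le_mul_of_nonneg_right (by linarith only [h1]) (by positivity)
    linarith only [hθ, hθ1, h3, h4]
  · rw [rpow_neg (by norm_num), hX2, hX4]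
    have hz1 := hrp (3 / 4) (by norm_num) (by norm_num)
    have hz2 := hrp (1 / 2) (by norm_num) (by norm_num)
    have hz3 := hrp (1 / 4) (by norm_num) (by norm_num)
    have hp0 : (0 : ℝ) ≤ p := by linarith only [hθ, hθ1, hp1]
    have hp1' : (1 : ℝ) ≤ p := by linarith only [hθ, hθ1, hp1]
    have b1 : |ell * Lx p ^ (3 / 4 : ℝ)| ≤ |ell| * p := by
      rw [abs_mul, abs_of_pos (by positivity : 0 < Lx p ^ (3 / 4 : ℝ))]
      exact mul_le_mul_of_nonneg_left hz1 (abs_nonneg _)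
    have b2 : μ₀ * Lx p ^ (1 / 2 : ℝ) ≤ μ₀ * p := mul_le_mul_of_nonneg_left hz2 hμ
    have b3 : |m * Lx p ^ (1 / 4 : ℝ)| ≤ |m| * p := by
      rw [abs_mul, abs_of_pos (by positivity : 0 < Lx p ^ (1 / 4 : ℝ))]
      exact mul_le_mul_of_nonneg_left hz3 (abs_nonneg _)
    have b4 : sqrt K * (2 * NN a p) * (|ell * Lx p ^ (3 / 4 : ℝ)| + 2 * (μ₀ * Lx p ^ (1 / 2 : ℝ)) * (9 * (NN a p : ℝ) ^ 2 * sqrt K + |m * Lx p ^ (1 / 4 : ℝ)|)) ≤
        C1 * (p : ℝ) ^ 4 := by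
      have hb5 : |ell * Lx p ^ (3 / 4 : ℝ)| + 2 * (μ₀ * Lx p ^ (1 / 2 : ℝ)) * (9 * (NN a p : ℝ) ^ 2 * sqrt K + |m * Lx p ^ (1 / 4 : ℝ)|) ≤
          |ell| * p + 2 * (μ₀ * p) * (9 * ((2 ^ a) ^ 2 * (p : ℝ) ^ 2) * sqrt K + |m| * p) := by (clear * - b1 b2 hN2 b3 hμ hp1; gcongr)
      have hb6 : |ell| * p + 2 * (μ₀ * p) * (9 * ((2 ^ a) ^ 2 * (p : ℝ) ^ 2) * sqrt K + |m| * p) ≤ (|ell| + 2 * μ₀ * (9 * (2 ^ a) ^ 2 * sqrt K + |m|)) * (p : ℝ) ^ 3 := by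
        have c1 : |ell| * p ≤ |ell| * (p : ℝ) ^ 3 := mul_le_mul_of_nonneg_left (by nlinarith only [hθ, hθ1, hp1, sq_nonneg ((p : ℝ) - 1)]) (abs_nonneg _)
        have c2 : |m| * p * p ≤ |m| * (p : ℝ) ^ 3 := by
          have : (p : ℝ) * p ≤ (p : ℝ) ^ 3 := by nlinarith only [hp1, sq_nonneg (p : ℝ)]
          calc |m| * p * p = |m| * (p * p) := by ring
            _ ≤ _ := mul_le_mul_of_nonneg_left this (abs_nonneg _)
        have c3 : 2 * (μ₀ * p) * (|m| * p) ≤ 2 * μ₀ * (|m| * (p : ℝ) ^ 3) := by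
          calc 2 * (μ₀ * p) * (|m| * p) = 2 * μ₀ * (|m| * p * p) := by ring
            _ ≤ _ := mul_le_mul_of_nonneg_left c2 (by positivity)
        calc |ell| * p + 2 * (μ₀ * p) * (9 * ((2 ^ a) ^ 2 * (p : ℝ) ^ 2) * sqrt K + |m| * p) =
              |ell| * p + 2 * μ₀ * (9 * (2 ^ a) ^ 2 * sqrt K) * (p : ℝ) ^ 3 + 2 * (μ₀ * p) * (|m| * p) := by ring
          _ ≤ |ell| * (p : ℝ) ^ 3 + 2 * μ₀ * (9 * (2 ^ a) ^ 2 * sqrt K) * (p : ℝ) ^ 3 + 2 * μ₀ * (|m| * (p : ℝ) ^ 3) := by linarith only [c1, c3]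
          _ = _ := by ring
      calc sqrt K * (2 * NN a p) * (|ell * Lx p ^ (3 / 4 : ℝ)| + 2 * (μ₀ * Lx p ^ (1 / 2 : ℝ)) * (9 * (NN a p : ℝ) ^ 2 * sqrt K + |m * Lx p ^ (1 / 4 : ℝ)|)) ≤
            sqrt K * (2 * (2 ^ a * p)) * ((|ell| + 2 * μ₀ * (9 * (2 ^ a) ^ 2 * sqrt K + |m|)) * (p : ℝ) ^ 3) := by
              refine mul_le_mul ?_ (hb5.trans hb6) (by (clear * - hμ hL0; positivity)) (by positivity)
              gcongr
        _ = C1 * (p : ℝ) ^ 4 := by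
              rw [hC1]
              ring
    have hAinv : 2 / (|τ| / 4 * X ^ 4) = 8 / |τ| / X ^ 4 := by
      field_simp
      norm_num
    rw [hAinv]
    have b7 : C1 * (p : ℝ) ^ 4 * (1 / 2 ^ P) ≤ 2 * C1 * (p : ℝ) ^ 5 / X ^ 4 := by
      have hX1 : 1 ≤ X := by linarith only [hθ, hθ1, g3]
      calc C1 * (p : ℝ) ^ 4 * (1 / 2 ^ P) ≤ C1 * (p : ℝ) ^ 4 * (2 / X ^ 8) := mul_le_mul_of_nonneg_left hPX (by positivity)
        _ = 2 * C1 * (p : ℝ) ^ 4 / X ^ 8 := by ring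
        _ ≤ 2 * C1 * (p : ℝ) ^ 5 / X ^ 4 := by
          refine div_le_div₀ (by positivity) ?_ (by positivity) (pow_le_pow_right₀ hX1 (by norm_num))
          have : (p : ℝ) ^ 4 ≤ (p : ℝ) ^ 5 := pow_le_pow_right₀ hp1' (by norm_num)
          exact mul_le_mul_of_nonneg_left this (by positivity)
    have b8 : 8 / |τ| / X ^ 4 ≤ 8 / |τ| * (p : ℝ) ^ 5 / X ^ 4 := by
      refine div_le_div_of_nonneg_right ?_ (by positivity)
      have : (1 : ℝ) ≤ (p : ℝ) ^ 5 := one_le_pow₀ hp1'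
      exact le_mul_of_one_le_right (by positivity) this
    calc 2 * (9 * (NN a p : ℝ) ^ 2 * (sqrt K * (2 * NN a p) * (|ell * Lx p ^ (3 / 4 : ℝ)| + 2 * (μ₀ * Lx p ^ (1 / 2 : ℝ)) * (9 * (NN a p : ℝ) ^ 2 * sqrt K +
          |m * Lx p ^ (1 / 4 : ℝ)|)) * (1 / 2 ^ P) + 8 / |τ| / X ^ 4)) ≤
          2 * (9 * ((2 ^ a) ^ 2 * (p : ℝ) ^ 2) * (2 * C1 * (p : ℝ) ^ 5 / X ^ 4 + 8 / |τ| * (p : ℝ) ^ 5 / X ^ 4)) := by
            have b9 := (mul_le_mul_of_nonneg_right b4 (by positivity : (0 : ℝ) ≤ 1 / 2 ^ P)).trans b7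
            have b10 := add_le_add b9 b8
            refine mul_le_mul_of_nonneg_left (mul_le_mul (by gcongr) b10 (by (clear * - hμ hL0 hτ g3; positivity)) (by positivity)) (by norm_num)
      _ = 36 * (2 ^ a) ^ 2 * (C1 + 4 / |τ|) * (p : ℝ) ^ 7 / X ^ 4 := by ring
      _ ≤ X / X ^ 4 := div_le_div_of_nonneg_right g2 (by positivity)
      _ ≤ (X ^ 2)⁻¹ := by
          rw [div_le_iff₀ (by positivity)]
          have e1 : (X ^ 2)⁻¹ * X ^ 4 = X ^ 2 := by field_simp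
          rw [e1]
          nlinarith only [g3]
  · rw [rpow_neg (by norm_num), hX2, inv_eq_one_div]
    refine one_div_le_one_div_of_le (by norm_num) ?_
    nlinarith only [g3]
  · rw [hl4, hL]
    have h1 : 2 ≤ e3 * p := by
      rw [div_le_iff₀ he3] at hp6
      linarith only [hp6]
    nlinarith only [hθ, hθ1, hl2, h1]
  · rw [hl4, hL]
    nlinarith only [hl2, hp1]
  · obtain ⟨Z, hZ⟩ : ∃ Z : ℝ, Z = 2 ^ (θ / 16 * (p : ℝ)) := ⟨_, rfl⟩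
    have hZ0 : 0 < Z := by rw [hZ]; positivity
    rw [← hZ] at g4 ⊢
    have h1 : log 2 ≤ Lx p ^ (1 / 4 : ℝ) := by
      have h2 : (1 : ℝ) ≤ Lx p := by
        rw [hL]
        have := Real.log_two_gt_d9
        nlinarith only [hθ, hθ1, hp1, this]
      have h3 : (1 : ℝ) ≤ Lx p ^ (1 / 4 : ℝ) := one_le_rpow h2 (by norm_num)
      linarith only [hl3, h3]
    calc 36 * sqrt K * (1 + B) * (NN a p : ℝ) ^ 4 * (2 / Z) ≤ 36 * sqrt K * (1 + B) * ((2 ^ a) ^ 4 * (p : ℝ) ^ 4) * (2 / Z) := by (clear * - hN4 hB hZ0; gcongr)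
      _ = (720 * sqrt K * (1 + B) * (2 ^ a) ^ 4 / (e * log 2) * (p : ℝ) ^ 4) * (e * log 2 / 10) / Z := by
        field_simp
        ring
      _ ≤ Z * (e * log 2 / 10) / Z := by gcongr
      _ = e / 10 * log 2 := by field_simp
      _ ≤ _ := mul_le_mul_of_nonneg_left h1 (by positivity)

variable {H₀ : ℝ → ℝ}

theorem lower (h2 : ContDiff ℝ 2 H₀) (hp : Function.Periodic H₀ (2 * π)) {τ : ℝ} (hτ : τ ≠ 0) {σ : ℝ} (hσ : |σ| = 1) (a : ℕ) {ell h m e e1 e2 e3 : ℝ}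
    (hh : 0 < h) (hhl : h < ell) (he : 0 < e) (he2 : 0 < e2) (he2' : e2 ≤ 1) (he3 : 0 < e3) (hc : (2 / e ^ 2 + ell ^ 2 / e2) * e1 ^ 2 ≤ e2 / 4) :
    ∀ᵐ ω ∂(PP nu1), ∃ p₀ : ℕ, ∀ p : ℕ, p₀ ≤ p →
      CX σ (Hx H₀ τ ω) (NN a p) ((ell + h) * Lx p ^ (3 / 4 : ℝ)) - CX σ (Hx H₀ τ ω) (NN a p) (ell * Lx p ^ (3 / 4 : ℝ)) ≤ (h * (m + e1) - e3) * Lx p →
      CX σ (Hx H₀ τ ω) (NN a p) ((ell - h) * Lx p ^ (3 / 4 : ℝ)) - CX σ (Hx H₀ τ ω) (NN a p) (ell * Lx p ^ (3 / 4 : ℝ)) ≤ (-(h * (m - e1)) - e3) * Lx p →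
      ell * m * Lx p - CX σ (Hx H₀ τ ω) (NN a p) (ell * Lx p ^ (3 / 4 : ℝ)) ≤ (1 - e2) * Lx p →
      ∀ c : ℝ × ℝ, ∃ R ∈ Icc ((2 : ℝ) ^ p) (2 ^ (p + 1)), (m - e) * Lx p ^ (1 / 4 : ℝ) ≤ σ * Mx (Hx H₀ τ ω) (NN a p) R c := by
  obtain ⟨K, B, hK1, hB0, hKB⟩ := hx_bd h2 hp τ
  obtain ⟨θ, hθ⟩ : ∃ θ : ℝ, θ = e2 / 8 := ⟨_, rfl⟩
  have hθ0 : 0 < θ := by rw [hθ]; positivity
  have hθ1 : θ ≤ 1 / 8 := by rw [hθ]; linarith
  have hell : 0 < ell := by linarith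
  obtain ⟨μ₀, hμ⟩ : ∃ μ₀ : ℝ, μ₀ = 2 / e ^ 2 + ell ^ 2 / e2 := ⟨_, rfl⟩
  rw [← hμ] at hc
  have hμ0 : 0 < μ₀ := by rw [hμ]; positivity
  have hμ1 : 2 ≤ μ₀ * e ^ 2 := by
    have e5 : μ₀ * e ^ 2 = 2 + ell ^ 2 / e2 * e ^ 2 := by
      rw [hμ]
      field_simp
    have e6 : 0 ≤ ell ^ 2 / e2 * e ^ 2 := by positivity
    linarith only [e5, e6]
  have hμ2 : ell ^ 2 / (4 * μ₀) ≤ e2 / 4 := by
    rw [div_le_div_iff₀ (by positivity) (by norm_num)]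
    have e5 : ell ^ 2 ≤ μ₀ * e2 := by
      have e6 : μ₀ * e2 = 2 / e ^ 2 * e2 + ell ^ 2 := by
        rw [hμ]
        field_simp
      have e7 : 0 ≤ 2 / e ^ 2 * e2 := by positivity
      linarith
    linarith
  obtain ⟨p₁, hp₁1, hp₁⟩ := low_par a hτ (K := K) (B := B) (ell := ell) (μ₀ := μ₀) (m := m) (e := e) (e3 := e3) (θ := θ) hμ0.le hB0 he he3 hθ0 hθ1
  have hl2 : 0 < log 2 := log_pos (by norm_num)
  obtain ⟨P, hP⟩ : ∃ P : ℕ → ℕ, P = fun p : ℕ => ⌊θ * (p : ℝ)⌋₊ := ⟨_, rfl⟩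
  have hPle : ∀ p, (P p : ℝ) ≤ θ * p := fun p => by
    rw [hP]
    exact Nat.floor_le (by positivity)
  have hP2 : ∀ p, 2 * P p ≤ p := fun p => by
    have h1 := hPle p
    have h3 : (2 * P p : ℝ) ≤ p := by
      have : θ * (p : ℝ) ≤ 1 / 8 * p := mul_le_mul_of_nonneg_right hθ1 (Nat.cast_nonneg _)
      have : (0 : ℝ) ≤ p := Nat.cast_nonneg _
      linarith
    exact_mod_cast h3
  obtain ⟨n, hn⟩ : ∃ n : ℕ → ℕ, n = fun p => 2 ^ (p - 2 * P p) := ⟨_, rfl⟩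
  obtain ⟨Rt, hRt⟩ : ∃ Rt : ℕ → ℕ → ℝ, Rt = fun p i : ℕ => (2 : ℝ) ^ p + (i : ℝ) * 2 ^ P p := ⟨_, rfl⟩
  have hn0 : ∀ p, 0 < n p := fun p => by rw [hn]; positivity
  have hnP : ∀ p, (n p : ℝ) * 2 ^ P p * 2 ^ P p = 2 ^ p := fun p => by
    rw [hn]
    simp only [Nat.cast_pow, Nat.cast_ofNat]
    rw [← pow_add, ← pow_add]
    congr 1
    have := hP2 p
    omega
  have hRlo : ∀ p i, (2 : ℝ) ^ p ≤ Rt p i := fun p i => by
    rw [hRt]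
    have : (0 : ℝ) ≤ i * 2 ^ P p := by positivity
    simp only
    linarith only [this]
  have hRhi : ∀ p, ∀ i < n p, Rt p i ≤ 2 ^ (p + 1) := fun p i hi => by
    rw [hRt]
    have h1 : (i : ℝ) ≤ n p := by exact_mod_cast hi.le
    have h3 := hnP p
    have h4 : (1 : ℝ) ≤ 2 ^ P p := one_le_pow₀ (by norm_num)
    have h5 : (n p : ℝ) * 2 ^ P p ≤ 2 ^ p := by
      have : 0 ≤ (n p : ℝ) * 2 ^ P p := by positivity
      nlinarith only [h3, he2', hθ, hθ0, h4, this]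
    have h6 : (i : ℝ) * 2 ^ P p ≤ (n p : ℝ) * 2 ^ P p := mul_le_mul_of_nonneg_right h1 (by positivity)
    simp only
    rw [pow_succ]
    linarith only [h5, h6]
  -- the bad sets
  obtain ⟨q, hq⟩ : ∃ q : ℕ → ℕ, q = fun p : ℕ => ⌈θ / 16 * (p : ℝ)⌉₊ := ⟨_, rfl⟩
  obtain ⟨A, hA⟩ : ∃ A : ℕ → ℕ × ℕ → Set Om, A = fun p v => {ω |
    CX σ (Hx H₀ τ ω) (NN a p) (ell * Lx p ^ (3 / 4 : ℝ) + h * Lx p ^ (3 / 4 : ℝ)) - CX σ (Hx H₀ τ ω) (NN a p) (ell * Lx p ^ (3 / 4 : ℝ)) ≤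
      h * Lx p ^ (3 / 4 : ℝ) * (m * Lx p ^ (1 / 4 : ℝ) + e1 * Lx p ^ (1 / 4 : ℝ)) - log 4 ∧
    CX σ (Hx H₀ τ ω) (NN a p) (ell * Lx p ^ (3 / 4 : ℝ) - h * Lx p ^ (3 / 4 : ℝ)) - CX σ (Hx H₀ τ ω) (NN a p) (ell * Lx p ^ (3 / 4 : ℝ)) ≤
      -(h * Lx p ^ (3 / 4 : ℝ) * (m * Lx p ^ (1 / 4 : ℝ) - e1 * Lx p ^ (1 / 4 : ℝ))) - log 4 ∧
    ell * Lx p ^ (3 / 4 : ℝ) * (m * Lx p ^ (1 / 4 : ℝ)) - CX σ (Hx H₀ τ ω) (NN a p) (ell * Lx p ^ (3 / 4 : ℝ)) ≤ (1 - e2) * Lx p ∧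
    ∀ i < n p, σ * Mx (Hx H₀ τ ω) (NN a p) (Rt p i) (0 + v.1 / 2 ^ q p, 0 + v.2 / 2 ^ q p) < m * Lx p ^ (1 / 4 : ℝ) - 9 / 10 * e * Lx p ^ (1 / 4 : ℝ)} := ⟨_, rfl⟩
  obtain ⟨I, hI⟩ : ∃ I : ℕ → Finset (ℕ × ℕ), I = fun p => Finset.range (1 * 2 ^ q p + 1) ×ˢ Finset.range (1 * 2 ^ q p + 1) := ⟨_, rfl⟩
  obtain ⟨E, hE⟩ : ∃ E : ℕ → Set Om, E = fun p => ⋃ v ∈ I p, A p v := ⟨_, rfl⟩
  have hz : ∀ p, p₁ ≤ p → 0 < Lx p ^ (1 / 4 : ℝ) ∧ Lx p = (Lx p ^ (1 / 4 : ℝ)) ^ 4 ∧ Lx p ^ (3 / 4 : ℝ) = (Lx p ^ (1 / 4 : ℝ)) ^ 3 ∧ Lx p ^ (1 / 2 : ℝ) = (Lx p ^ (1 / 4 : ℝ)) ^ 2 := by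
    intro p hpp
    have h1 : 0 < Lx p := by
      unfold Lx
      have : 1 ≤ p := by omega
      have : (1 : ℝ) ≤ p := by exact_mod_cast this
      positivity
    refine ⟨by positivity, ?_, ?_, ?_⟩
    · rw [← rpow_natCast, ← rpow_mul h1.le]
      norm_num
    · rw [← rpow_natCast, ← rpow_mul h1.le]
      norm_num
    · rw [← rpow_natCast, ← rpow_mul h1.le]
      norm_num
  have hmeas : ∀ p, p₁ ≤ p → (PP nu1).real (E p) ≤ 448 * (2 : ℝ) ^ (-(θ / 8 * p)) := by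
    intro p hpp
    obtain ⟨l, Am, hl, hA1, hA2, hδ, hδ2, hlog1, hlog2, _⟩ := hp₁ p hpp
    obtain ⟨hz0, hz4, hz3, hz2⟩ := hz p hpp
    have h1 : ∀ v ∈ I p, (PP nu1).real (A p v) ≤ 28 * (2 : ℝ) ^ (-(θ / 4 * p)) := by
      intro v _
      rw [hA]
      have hb := low_pt h2 hτ hσ (fun ω => (hKB ω).1) hl (lam := ell * Lx p ^ (3 / 4 : ℝ)) (mu := μ₀ * Lx p ^ (1 / 2 : ℝ)) (m := m * Lx p ^ (1 / 4 : ℝ))
        (by rw [hz3]; positivity) (by rw [hz2]; positivity) hA1 (e := 1 / 2 ^ P p) (by positivity) (hn0 p) (Rt := Rt p)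
        (fun i _ => lt_of_lt_of_le (by positivity) (hRlo p i))
        (fun i _ => by
          refine hA2.trans (mul_le_mul_of_nonneg_right ?_ (by positivity))
          refine le_trans ?_ (hRlo p i)
          refine pow_le_pow_right₀ (by norm_num) ?_
          have h1 := hP2 p
          rw [hP] at h1
          simp only at h1
          omega)
        (fun i _ j _ hij => by
          refine hA2.trans (mul_le_mul_of_nonneg_right ?_ (by positivity))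
          rw [hRt]
          have e5 : (2 : ℝ) ^ p + j * 2 ^ P p - (2 ^ p + i * 2 ^ P p) = ((j : ℝ) - i) * 2 ^ P p := by ring
          simp only
          rw [e5, abs_mul, abs_of_pos (by positivity : (0 : ℝ) < 2 ^ P p)]
          have e6 : (1 : ℝ) ≤ |(j : ℝ) - i| := by
            have e7 : (1 : ℤ) ≤ |(j : ℤ) - i| := Int.one_le_abs (by omega)
            have e8 : ((1 : ℤ) : ℝ) ≤ ((|(j : ℤ) - i| : ℤ) : ℝ) := by exact_mod_cast e7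
            push_cast at e8
            exact e8
          rw [hP]
          exact le_mul_of_one_le_left (by positivity) e6)
        (fun i hi j hj => by
          rw [hRt]
          have e5 : (2 : ℝ) ^ p + j * 2 ^ P p - (2 ^ p + i * 2 ^ P p) = ((j : ℝ) - i) * 2 ^ P p := by ring
          simp only
          rw [e5, abs_mul, abs_of_pos (by positivity : (0 : ℝ) < 2 ^ P p)]
          have e6 : |(j : ℝ) - i| ≤ n p := by
            have h1 : (i : ℝ) ≤ n p := by exact_mod_cast hi.le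
            have h3 : (j : ℝ) ≤ n p := by exact_mod_cast hj.le
            have h4 : (0 : ℝ) ≤ i := Nat.cast_nonneg _
            have h5 : (0 : ℝ) ≤ j := Nat.cast_nonneg _
            rw [abs_le]
            constructor <;> linarith only [h1, h3]
          have e7 := hRlo p i
          rw [hRt] at e7
          simp only at e7
          rw [one_div, inv_mul_eq_div, le_div_iff₀ (by positivity)]
          calc |(j : ℝ) - i| * 2 ^ P p * 2 ^ P p ≤ n p * 2 ^ P p * 2 ^ P p := by (clear * - e6; gcongr)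
            _ = 2 ^ p := hnP p
            _ ≤ _ := e7)
        (δ := 2 ^ (-(θ / 4 * (p : ℝ)))) (by positivity) hδ2 (by rw [hP]; exact hδ)
        (h := h * Lx p ^ (3 / 4 : ℝ)) (e1 := e1 * Lx p ^ (1 / 4 : ℝ)) (t := 9 / 10 * e * Lx p ^ (1 / 4 : ℝ)) (V := (1 - e2 / 2) * Lx p) (W := (1 - e2) * Lx p)
        (by rw [hz3]; positivity) (by positivity)
        (by
          obtain ⟨z, hzz⟩ : ∃ z : ℝ, z = Lx p ^ (1 / 4 : ℝ) := ⟨_, rfl⟩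
          rw [hz2, ← hzz]
          rw [← hzz] at hz4 hz0
          rw [hz4] at hlog2 ⊢
          have hz40 : 0 ≤ z ^ 4 := by positivity
          have q1 : μ₀ * z ^ 2 * (e1 * z) ^ 2 = μ₀ * e1 ^ 2 * z ^ 4 := by ring
          have q2 : μ₀ * z ^ 2 * (9 / 10 * e * z) ^ 2 = 81 / 100 * (μ₀ * e ^ 2) * z ^ 4 := by ring
          rw [q1, q2]
          have q3 : μ₀ * e1 ^ 2 * z ^ 4 ≤ e2 / 4 * z ^ 4 := mul_le_mul_of_nonneg_right hc hz40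
          have q4 : 81 / 100 * 2 * z ^ 4 ≤ 81 / 100 * (μ₀ * e ^ 2) * z ^ 4 := mul_le_mul_of_nonneg_right (by linarith only [hμ1]) hz40
          have q5 : 0 ≤ e2 * z ^ 4 := by positivity
          linarith only [hlog2, hz40, q3, q4, q5])
        (by
          obtain ⟨z, hzz⟩ : ∃ z : ℝ, z = Lx p ^ (1 / 4 : ℝ) := ⟨_, rfl⟩
          rw [hz2, hz3, ← hzz]
          rw [← hzz] at hz4 hz0
          rw [hz4]
          have hz40 : 0 ≤ z ^ 4 := by positivity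
          have q1 : μ₀ * z ^ 2 * (e1 * z) ^ 2 = μ₀ * e1 ^ 2 * z ^ 4 := by ring
          have q2 : (ell * z ^ 3) ^ 2 / (4 * (μ₀ * z ^ 2)) = ell ^ 2 / (4 * μ₀) * z ^ 4 := by
            field_simp
          rw [q1, q2]
          have q3 : μ₀ * e1 ^ 2 * z ^ 4 ≤ e2 / 4 * z ^ 4 := mul_le_mul_of_nonneg_right hc hz40
          have q4 : ell ^ 2 / (4 * μ₀) * z ^ 4 ≤ e2 / 4 * z ^ 4 := mul_le_mul_of_nonneg_right hμ2 hz40
          linarith only [q3, q4]) (0 + v.1 / 2 ^ q p, 0 + v.2 / 2 ^ q p)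
      refine hb.trans ?_
      have hV : exp ((1 - e2 / 2) * Lx p) / n p ≤ 2 ^ (-(θ / 4 * (p : ℝ))) := by
        rw [div_le_iff₀ (by exact_mod_cast hn0 p)]
        have e5 : exp ((1 - e2 / 2) * Lx p) = 2 ^ ((1 - e2 / 2) * (p : ℝ)) := by
          rw [rpow_def_of_pos (by norm_num)]
          congr 1
          unfold Lx
          ring
        have e6 : (n p : ℝ) = 2 ^ ((p : ℝ) - 2 * P p) := by
          rw [hn]
          simp only [Nat.cast_pow, Nat.cast_ofNat]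
          rw [← rpow_natCast, Nat.cast_sub (hP2 p)]
          push_cast
          rfl
        rw [e5, e6, ← rpow_add (by norm_num)]
        refine two_rpow_le ?_
        have h3 := hPle p
        have h4 : (0 : ℝ) ≤ θ * p := by positivity
        have h5 : e2 = 8 * θ := by rw [hθ]; ring
        rw [h5]
        nlinarith only [h3]
      have e7 : 4 * exp ((1 - e2 / 2) * Lx p) / (n p : ℝ) = 4 * (exp ((1 - e2 / 2) * Lx p) / n p) := by ring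
      rw [e7]
      linarith only [hV]
    rw [hE]
    refine (measureReal_biUnion_finset_le _ _).trans ((Finset.sum_le_sum h1).trans ?_)
    rw [Finset.sum_const, nsmul_eq_mul]
    have hqp : (q p : ℝ) ≤ θ / 16 * p + 1 := by
      rw [hq]
      exact (Nat.ceil_lt_add_one (by positivity)).le
    have hcard : ((I p).card : ℝ) ≤ 2 ^ (2 * q p + 2 : ℝ) := by
      rw [hI]
      simp only [Finset.card_product, Finset.card_range, one_mul]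
      have e1' : 1 ≤ 2 ^ q p := Nat.one_le_two_pow
      have e3' : (2 ^ q p + 1) * (2 ^ q p + 1) ≤ (2 * 2 ^ q p) * (2 * 2 ^ q p) := by
        gcongr <;> omega
      have e4 : (((2 ^ q p + 1) * (2 ^ q p + 1) : ℕ) : ℝ) ≤ (((2 * 2 ^ q p) * (2 * 2 ^ q p) : ℕ) : ℝ) := by exact_mod_cast e3'
      refine e4.trans (le_of_eq ?_)
      rw [show 2 * (q p : ℝ) + 2 = ((2 * q p + 2 : ℕ) : ℝ) by push_cast; ring, rpow_natCast]
      push_cast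
      ring
    calc ((I p).card : ℝ) * (28 * (2 : ℝ) ^ (-(θ / 4 * p))) ≤ 2 ^ (2 * q p + 2 : ℝ) * (28 * (2 : ℝ) ^ (-(θ / 4 * p))) :=
          mul_le_mul_of_nonneg_right hcard (by positivity)
      _ = 28 * (2 : ℝ) ^ (2 * q p + 2 + -(θ / 4 * p) : ℝ) := by
          rw [rpow_add (by norm_num : (0 : ℝ) < 2) (2 * q p + 2 : ℝ)]
          ring
      _ ≤ 28 * (2 : ℝ) ^ (4 + -(θ / 8 * p) : ℝ) := by
          refine mul_le_mul_of_nonneg_left (two_rpow_le ?_) (by norm_num)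
          linarith only [hqp]
      _ = _ := by
          rw [rpow_add (by norm_num)]
          norm_num
          ring
  filter_upwards [bcl (by norm_num) (by positivity) hmeas] with ω hω
  obtain ⟨p₃, hp₃⟩ := hω
  refine ⟨p₁ + p₃, fun p hpp d1 d2 d3 c => ?_⟩
  have hnot := hp₃ p (by omega)
  obtain ⟨l, Am, hl, hA1, hA2, hδ, hδ2, hlog1, hlog2, hgr⟩ := hp₁ p (by omega)
  obtain ⟨hz0, hz4, hz3, hz2⟩ := hz p (by omega)
  obtain ⟨j, hj, hj'⟩ := grid (x := Int.fract c.1) (s := 0) (M := 1) (q := q p) (Int.fract_nonneg _) (by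
    have := (Int.fract_lt_one c.1).le
    push_cast
    linarith only [this])
  obtain ⟨j₂, hj₂, hj₂'⟩ := grid (x := Int.fract c.2) (s := 0) (M := 1) (q := q p) (Int.fract_nonneg _) (by
    have := (Int.fract_lt_one c.2).le
    push_cast
    linarith only [this])
  have hmem : (j, j₂) ∈ I p := by
    rw [hI]
    simp only [Finset.mem_product, Finset.mem_range]
    exact ⟨hj, hj₂⟩
  have hgood : ω ∉ A p (j, j₂) := fun h => hnot (by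
    rw [hE]
    exact mem_biUnion hmem h)
  obtain ⟨z, hzz⟩ : ∃ z : ℝ, z = Lx p ^ (1 / 4 : ℝ) := ⟨_, rfl⟩
  have hgood2 : ∃ i < n p, m * z - 9 / 10 * e * z ≤ σ * Mx (Hx H₀ τ ω) (NN a p) (Rt p i) (0 + j / 2 ^ q p, 0 + j₂ / 2 ^ q p) := by
    by_contra hcon
    push Not at hcon
    refine hgood ?_
    rw [hA]
    refine ⟨?_, ?_, ?_, ?_⟩
    · rw [← add_mul]
      refine d1.trans ?_
      rw [hz3, ← hzz]
      rw [← hzz] at hz4
      rw [hz4] at hlog1 ⊢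
      have e5 : h * z ^ 3 * (m * z + e1 * z) = h * (m + e1) * z ^ 4 := by ring
      rw [e5]
      linarith only [hlog1]
    · rw [← sub_mul]
      refine d2.trans ?_
      rw [hz3, ← hzz]
      rw [← hzz] at hz4
      rw [hz4] at hlog1 ⊢
      have e5 : h * z ^ 3 * (m * z - e1 * z) = h * (m - e1) * z ^ 4 := by ring
      rw [e5]
      linarith only [hlog1]
    · refine le_trans (le_of_eq ?_) d3
      congr 1
      rw [hz3, ← hzz]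
      rw [← hzz] at hz4
      rw [hz4]
      ring
    · rw [← hzz]
      exact hcon
  obtain ⟨i, hi, hgi⟩ := hgood2
  refine ⟨Rt p i, ⟨hRlo p i, hRhi p i hi⟩, ?_⟩
  have hper := Mx_per (Hx H₀ τ ω) (NN a p) (Rt p i) (Int.fract c.1, Int.fract c.2) ⌊c.1⌋ ⌊c.2⌋
  simp only [Int.fract_add_floor] at hper
  have hce : Mx (Hx H₀ τ ω) (NN a p) (Rt p i) c = Mx (Hx H₀ τ ω) (NN a p) (Rt p i) (Int.fract c.1, Int.fract c.2) := hper
  have hlip := Mx_lip (hKB ω).1 (hKB ω).2 (NN_pos a p) (Rt p i) (Rt p i) (Int.fract c.1, Int.fract c.2) (0 + j / 2 ^ q p, 0 + j₂ / 2 ^ q p)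
  have hD : |Rt p i - Rt p i| + |Int.fract c.1 - (0 + (j : ℝ) / 2 ^ q p)| + |Int.fract c.2 - (0 + (j₂ : ℝ) / 2 ^ q p)| ≤ 2 / 2 ^ (θ / 16 * (p : ℝ)) := by
    have h1 : (2 : ℝ) ^ (θ / 16 * (p : ℝ)) ≤ 2 ^ q p := by
      rw [← rpow_natCast 2 (q p)]
      refine two_rpow_le ?_
      rw [hq]
      exact Nat.le_ceil _
    have h3 : (2 : ℝ) / 2 ^ q p ≤ 2 / 2 ^ (θ / 16 * (p : ℝ)) := div_le_div_of_nonneg_left (by norm_num) (by positivity) h1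
    have h4 : (1 : ℝ) / 2 ^ q p + 1 / 2 ^ q p = 2 / 2 ^ q p := by ring
    rw [sub_self, abs_zero, zero_add]
    linarith only [hj', hj₂', h3, h4]
  have hlip2 : |Mx (Hx H₀ τ ω) (NN a p) (Rt p i) c - Mx (Hx H₀ τ ω) (NN a p) (Rt p i) (0 + j / 2 ^ q p, 0 + j₂ / 2 ^ q p)| ≤ e / 10 * z := by
    rw [hce, hzz]
    refine hlip.trans ?_
    refine le_trans ?_ hgr
    exact mul_le_mul_of_nonneg_left hD (by (clear * - hK1 hB0; positivity))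
  have hfin : σ * Mx (Hx H₀ τ ω) (NN a p) (Rt p i) (0 + j / 2 ^ q p, 0 + j₂ / 2 ^ q p) - σ * Mx (Hx H₀ τ ω) (NN a p) (Rt p i) c ≤ e / 10 * z := by
    rw [← mul_sub]
    refine (le_abs_self _).trans ?_
    rw [abs_mul, hσ, one_mul, abs_sub_comm]
    exact hlip2
  rw [← hzz]
  linarith only [hgi, hfin]

end Pool.Agent.Helper93.EX
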