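import Mathlib

/-!
# EX: replacing the factors of a product measure one by one
-/

open MeasureTheory Set
open scoped ENNReal

set_option autoImplicit false

namespace Pool.Agent.Helper93.EX

variable {κ : Type} [Fintype κ] [DecidableEq κ] {E ι : Type} [MeasurableSpace E]

omit [Fintype κ] in
private theorem marg_ind {μ lam : κ → Measure E} [∀ i, SigmaFinite (μ i)] [∀ i, SigmaFinite (lam i)] {c : ℝ≥0∞} {T : ι → E → E} {K : ι → ℝ≥0∞}
    (h1 : ∀ i (g : E → ℝ≥0∞), Measurable g → (∀ j y, g (T j y) ≤ K j * g y) → ∫⁻ y, g y ∂(μ i) ≤ c * ∫⁻ y, g y ∂(lam i))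
    {F : (κ → E) → ℝ≥0∞} (hF : Measurable F) (hT : ∀ x i j, F (Function.update x i (T j (x i))) ≤ K j * F x) (s : Finset κ) :
    ∀ x, (∫⋯∫⁻_s, F ∂μ) x ≤ c ^ s.card * (∫⋯∫⁻_s, F ∂lam) x := by
  classical
  induction s using Finset.induction_on with
  | empty =>
    intro x
    simp
  | insert i s hi ih =>
    intro x
    rw [lmarginal_insert F hF hi x, lmarginal_insert F hF hi x, Finset.card_insert_of_notMem hi, pow_succ, mul_assoc]
    have hm : Measurable fun y => (∫⋯∫⁻_s, F ∂lam) (Function.update x i y) := (hF.lmarginal lam).comp (measurable_update x)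
    calc ∫⁻ y, (∫⋯∫⁻_s, F ∂μ) (Function.update x i y) ∂(μ i) ≤ ∫⁻ y, c ^ s.card * (∫⋯∫⁻_s, F ∂lam) (Function.update x i y) ∂(μ i) :=
          lintegral_mono fun y => ih _
      _ = c ^ s.card * ∫⁻ y, (∫⋯∫⁻_s, F ∂lam) (Function.update x i y) ∂(μ i) := lintegral_const_mul _ hm
      _ ≤ c ^ s.card * (c * ∫⁻ y, (∫⋯∫⁻_s, F ∂lam) (Function.update x i y) ∂(lam i)) := by
          refine mul_le_mul_right ?_ _
          refine h1 i _ hm fun j y => ?_
          unfold lmarginal
          have h2 : ∀ y' : E, ∀ z : (∀ k : s, E), Function.updateFinset (Function.update x i y') s z = Function.update (Function.updateFinset x s z) i y' := by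
            intro y' z
            funext k
            unfold Function.updateFinset Function.update
            by_cases hk : k = i
            · subst hk
              simp [hi]
            · simp [hk]
          simp only [h2]
          have hmz : Measurable fun z : (∀ k : s, E) => F (Function.update (Function.updateFinset x s z) i y) := by
            have e : (fun z : (∀ k : s, E) => F (Function.update (Function.updateFinset x s z) i y)) =
                fun z => F (Function.updateFinset (Function.update x i y) s z) := funext fun z => by rw [h2]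
            rw [e]
            exact hF.comp measurable_updateFinset
          rw [← lintegral_const_mul _ hmz]
          refine lintegral_mono fun z => ?_
          have h3 := hT (Function.update (Function.updateFinset x s z) i y) i j
          simpa using h3

/-- the factors of a product measure are replaced one by one, for functions with a regularity `F (T j) ≤ K j F` in each variable -/
theorem marg {μ lam : κ → Measure E} [∀ i, SigmaFinite (μ i)] [∀ i, SigmaFinite (lam i)] {c : ℝ≥0∞} {T : ι → E → E} {K : ι → ℝ≥0∞}
    (h1 : ∀ i (g : E → ℝ≥0∞), Measurable g → (∀ j y, g (T j y) ≤ K j * g y) → ∫⁻ y, g y ∂(μ i) ≤ c * ∫⁻ y, g y ∂(lam i))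
    {F : (κ → E) → ℝ≥0∞} (hF : Measurable F) (hT : ∀ x i j, F (Function.update x i (T j (x i))) ≤ K j * F x) :
    ∫⁻ x, F x ∂(Measure.pi μ) ≤ c ^ Fintype.card κ * ∫⁻ x, F x ∂(Measure.pi lam) := by
  by_cases hE : Nonempty (κ → E)
  · obtain ⟨x⟩ := hE
    rw [lintegral_eq_lmarginal_univ x, lintegral_eq_lmarginal_univ x]
    exact marg_ind h1 hF hT Finset.univ x
  · rw [not_nonempty_iff] at hE
    simp [lintegral_of_isEmpty]

end Pool.Agent.Helper93.EX
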