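import Pool.Agent.Helper93.EX.Per
import Pool.Agent.Helper93.AO.Law

/-!
# EX: a law with a uniform component; the law of one or two phases
-/

open MeasureTheory Set
open scoped ENNReal

set_option autoImplicit false

namespace Pool.Agent.Helper93.EX

open Pool.Agent.Helper93.AO

/-- the uniform law on `[-1, 1]` -/
noncomputable def uJ : Measure J1 := (2⁻¹ : ℝ≥0∞) • Measure.comap Subtype.val (volume : Measure ℝ)

theorem lint_uJ {g : ℝ → ℝ≥0∞} (_hg : Measurable g) : ∫⁻ x : J1, g (x : ℝ) ∂uJ = 2⁻¹ * ∫⁻ x in Icc (-1 : ℝ) 1, g x := by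
  unfold uJ
  rw [lintegral_smul_measure, smul_eq_mul]
  congr 1
  rw [← (MeasurableEmbedding.subtype_coe measurableSet_Icc).lintegral_map, map_comap_subtype_coe measurableSet_Icc]

instance uJ_prob : IsProbabilityMeasure uJ := by
  constructor
  have h := lint_uJ (g := fun _ => 1) measurable_const
  simp only [lintegral_const, one_mul, Measure.restrict_apply MeasurableSet.univ, univ_inter, Real.volume_Icc] at h
  rw [h, show (1 : ℝ) - -1 = 2 by norm_num, ENNReal.ofReal_ofNat]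
  exact ENNReal.inv_mul_cancel (by norm_num) (by norm_num)

/-- the midpoint -/
noncomputable def mid (q : J1 × J1) : J1 := ⟨((q.1 : ℝ) + q.2) / 2, by
  obtain ⟨⟨x, hx1, hx2⟩, ⟨y, hy1, hy2⟩⟩ := q
  constructor <;> simp only <;> linarith⟩

theorem mid_meas : Measurable mid := by
  unfold mid
  exact Measurable.subtype_mk (by fun_prop)

/-- the law of the midpoint of a uniform point and a point with law `nu0` -/
noncomputable def nu1 : Measure J1 := Measure.map mid (uJ.prod nu0)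

instance nu1_prob : IsProbabilityMeasure nu1 := Measure.isProbabilityMeasure_map mid_meas.aemeasurable

theorem nu1_rapid : Rapid nu1 := by
  intro n
  obtain ⟨C, hC⟩ := nu0_rapid n
  have hC0 : 0 ≤ C := by
    have := (norm_nonneg _).trans (hC 0)
    simpa using this
  refine ⟨2 ^ n * C, fun u => ?_⟩
  have e1 : ch nu1 u = ch uJ (u / 2) * ch nu0 (u / 2) := by
    unfold ch nu1
    have hc : Continuous eo := by
      unfold eo
      fun_prop
    rw [integral_map mid_meas.aemeasurable (by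
      apply Continuous.aestronglyMeasurable
      exact hc.comp (by fun_prop))]
    have e2 : ∀ q : J1 × J1, eo (u * (mid q : ℝ)) = eo (u / 2 * (q.1 : ℝ)) * eo (u / 2 * (q.2 : ℝ)) := by
      intro q
      unfold eo mid
      rw [← Complex.exp_add]
      congr 1
      push_cast
      ring
    simp only [e2]
    exact integral_prod_mul (fun x : J1 => eo (u / 2 * (x : ℝ))) (fun x : J1 => eo (u / 2 * (x : ℝ)))
  have e3 : ‖ch uJ (u / 2)‖ ≤ 1 := by
    unfold ch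
    refine (norm_integral_le_integral_norm _).trans ?_
    have : ∀ x : J1, ‖eo (u / 2 * (x : ℝ))‖ = 1 := fun x => Complex.norm_exp_ofReal_mul_I _
    simp [this]
  rw [e1, norm_mul]
  have h1 := hC (u / 2)
  have h2 : (1 + |u|) ^ n ≤ 2 ^ n * (1 + |u / 2|) ^ n := by
    rw [← mul_pow]
    refine pow_le_pow_left₀ (by positivity) ?_ n
    rw [abs_div, abs_two]
    linarith [abs_nonneg u]
  calc ‖ch uJ (u / 2)‖ * ‖ch nu0 (u / 2)‖ ≤ 1 * (C / (1 + |u / 2|) ^ n) := mul_le_mul e3 h1 (norm_nonneg _) zero_le_one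
    _ ≤ 2 ^ n * C / (1 + |u|) ^ n := by
      rw [one_mul, div_le_div_iff₀ (by positivity) (by positivity)]
      calc C * (1 + |u|) ^ n ≤ C * (2 ^ n * (1 + |u / 2|) ^ n) := mul_le_mul_of_nonneg_left h2 hC0
        _ = _ := by ring

theorem lint_nu1 {g : ℝ → ℝ≥0∞} (hg : Measurable g) : ∫⁻ x : J1, g (x : ℝ) ∂nu1 = ∫⁻ v : J1, (2⁻¹ * ∫⁻ u in Icc (-1 : ℝ) 1, g ((u + (v : ℝ)) / 2)) ∂nu0 := by
  unfold nu1
  have hgm : Measurable fun x : J1 => g (x : ℝ) := hg.comp measurable_subtype_coe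
  have hgm2 : Measurable fun q : J1 × J1 => g (mid q : ℝ) := hgm.comp mid_meas
  rw [lintegral_map hgm mid_meas, lintegral_prod_symm _ hgm2.aemeasurable]
  congr 1
  funext v
  have h := lint_uJ (g := fun u => g ((u + v) / 2)) (hg.comp (by fun_prop))
  rw [← h]
  rfl

private theorem const_nu {c : ℝ≥0∞} {g : J1 → ℝ≥0∞} (ν : Measure J1) [IsProbabilityMeasure ν] (h : ∀ v, g v ≤ c) : ∫⁻ v, g v ∂ν ≤ c := by
  calc ∫⁻ v, g v ∂ν ≤ ∫⁻ _, c ∂ν := lintegral_mono h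
    _ = c := by simp

private theorem const_nu' {c : ℝ≥0∞} {g : J1 → ℝ≥0∞} (ν : Measure J1) [IsProbabilityMeasure ν] (h : ∀ v, c ≤ g v) : c ≤ ∫⁻ v, g v ∂ν := by
  calc c = ∫⁻ _, c ∂ν := by simp
    _ ≤ ∫⁻ v, g v ∂ν := lintegral_mono h

private theorem half_of {x : ℝ} : (2⁻¹ : ℝ≥0∞) * ENNReal.ofReal (2 * x) = ENNReal.ofReal x := by
  rw [ENNReal.ofReal_mul (by norm_num), ENNReal.ofReal_ofNat, ← mul_assoc, ENNReal.inv_mul_cancel (by norm_num) (by norm_num), one_mul]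

theorem one_up {g : ℝ → ℝ≥0∞} (hm : Measurable g) (hg : Function.Periodic g 1) {A : ℝ} (hA : A ≠ 0) (B b : ℝ) :
    ∫⁻ y : J1 × J1, g (A * (y.1 : ℝ) + B * (y.2 : ℝ) + b) ∂(nu1.prod nu1) ≤ ENNReal.ofReal (1 + 1 / |A|) * ∫⁻ x in Ioc (0 : ℝ) 1, g x := by
  rw [lintegral_prod_symm _ (by
    apply Measurable.aemeasurable
    exact hm.comp (by fun_prop))]
  refine const_nu nu1 fun y2 => ?_
  rw [lint_nu1 (g := fun x => g (A * x + B * (y2 : ℝ) + b)) (hm.comp (by fun_prop))]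
  refine const_nu nu0 fun v => ?_
  have h := per_up hm hg (α := A / 2) (div_ne_zero hA two_ne_zero) (A / 2 * v + B * (y2 : ℝ) + b) (show (-1 : ℝ) ≤ 1 by norm_num)
  have e : ∀ u : ℝ, A * ((u + v) / 2) + B * (y2 : ℝ) + b = A / 2 * u + (A / 2 * v + B * (y2 : ℝ) + b) := fun u => by ring
  simp only [e]
  calc _ ≤ 2⁻¹ * (ENNReal.ofReal (1 - -1 + 1 / |A / 2|) * ∫⁻ x in Ioc (0 : ℝ) 1, g x) := mul_le_mul_right h _
    _ = _ := by
      have e2 : (1 : ℝ) - -1 + 1 / |A / 2| = 2 * (1 + 1 / |A|) := by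
        rw [abs_div, abs_two]
        have : |A| ≠ 0 := abs_ne_zero.2 hA
        field_simp
        ring
      rw [e2, ← mul_assoc, half_of]

theorem one_lo {g : ℝ → ℝ≥0∞} (hm : Measurable g) (hg : Function.Periodic g 1) {A : ℝ} (hA : A ≠ 0) (B b : ℝ) :
    ENNReal.ofReal (1 - 1 / |A|) * ∫⁻ x in Ioc (0 : ℝ) 1, g x ≤ ∫⁻ y : J1 × J1, g (A * (y.1 : ℝ) + B * (y.2 : ℝ) + b) ∂(nu1.prod nu1) := by
  rw [lintegral_prod_symm _ (by
    apply Measurable.aemeasurable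
    exact hm.comp (by fun_prop))]
  refine const_nu' nu1 fun y2 => ?_
  rw [lint_nu1 (g := fun x => g (A * x + B * (y2 : ℝ) + b)) (hm.comp (by fun_prop))]
  refine const_nu' nu0 fun v => ?_
  have h := per_lo hm hg (α := A / 2) (div_ne_zero hA two_ne_zero) (A / 2 * v + B * (y2 : ℝ) + b) (show (-1 : ℝ) ≤ 1 by norm_num)
  have e : ∀ u : ℝ, A * ((u + v) / 2) + B * (y2 : ℝ) + b = A / 2 * u + (A / 2 * v + B * (y2 : ℝ) + b) := fun u => by ring
  simp only [e]
  calc _ = 2⁻¹ * (ENNReal.ofReal (1 - -1 - 1 / |A / 2|) * ∫⁻ x in Ioc (0 : ℝ) 1, g x) := by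
        have e2 : (1 : ℝ) - -1 - 1 / |A / 2| = 2 * (1 - 1 / |A|) := by
          rw [abs_div, abs_two]
          have : |A| ≠ 0 := abs_ne_zero.2 hA
          field_simp
          ring
        rw [e2, ← mul_assoc, half_of]
    _ ≤ _ := mul_le_mul_right h _

theorem two_up {g : ℝ × ℝ → ℝ≥0∞} (hm : Measurable g) (h1 : ∀ x y, g (x + 1, y) = g (x, y)) (h2 : ∀ x y, g (x, y + 1) = g (x, y)) {Q : ℝ}
    (hQ : ∀ x y t, g (x, y + t) ≤ ENNReal.ofReal (Real.exp (Q * |t|)) * g (x, y)) {A A' : ℝ} (hA : A ≠ 0) (hA' : A' ≠ A) (B B' b b' : ℝ) :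
    ∫⁻ y : J1 × J1, g (A * (y.1 : ℝ) + B * (y.2 : ℝ) + b, A' * (y.1 : ℝ) + B' * (y.2 : ℝ) + b') ∂(nu1.prod nu1) ≤
      ENNReal.ofReal (Real.exp (|Q| * (|A' - A| / |A|)) * (1 + 1 / |A| + 1 / |A' - A|)) * ∫⁻ z in Ioc (0 : ℝ) 1 ×ˢ Ioc (0 : ℝ) 1, g z := by
  rw [lintegral_prod_symm _ (by
    apply Measurable.aemeasurable
    exact hm.comp (by fun_prop))]
  refine const_nu nu1 fun y2 => ?_
  rw [lint_nu1 (g := fun x => g (A * x + B * (y2 : ℝ) + b, A' * x + B' * (y2 : ℝ) + b')) (hm.comp (by fun_prop))]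
  refine const_nu nu0 fun v => ?_
  have hne : A' / 2 ≠ A / 2 := fun h => hA' (by linarith)
  have h := per_two hm h1 h2 hQ (α := A / 2) (β := A' / 2) (div_ne_zero hA two_ne_zero) hne (A / 2 * v + B * (y2 : ℝ) + b) (A' / 2 * v + B' * (y2 : ℝ) + b')
    (show (-1 : ℝ) ≤ 1 by norm_num)
  have e : ∀ u : ℝ, A * ((u + v) / 2) + B * (y2 : ℝ) + b = A / 2 * u + (A / 2 * v + B * (y2 : ℝ) + b) := fun u => by ring
  have e' : ∀ u : ℝ, A' * ((u + v) / 2) + B' * (y2 : ℝ) + b' = A' / 2 * u + (A' / 2 * v + B' * (y2 : ℝ) + b') := fun u => by ring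
  simp only [e, e']
  refine (mul_le_mul_right h _).trans (le_of_eq ?_)
  have hA0 : |A| ≠ 0 := abs_ne_zero.2 hA
  have hD0 : |A' - A| ≠ 0 := abs_ne_zero.2 (sub_ne_zero.2 hA')
  have e1 : |A' / 2 - A / 2| = |A' - A| / 2 := by
    rw [← sub_div, abs_div, abs_two]
  have e2 : |A / 2| = |A| / 2 := by rw [abs_div, abs_two]
  have e3 : Real.exp (|Q| * (|A' / 2 - A / 2| / |A / 2|)) * ((1 : ℝ) - -1 + 1 / |A / 2| + 1 / |A' / 2 - A / 2|) =
      2 * (Real.exp (|Q| * (|A' - A| / |A|)) * (1 + 1 / |A| + 1 / |A' - A|)) := by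
    rw [e1, e2]
    have e4 : |A' - A| / 2 / (|A| / 2) = |A' - A| / |A| := by field_simp
    rw [e4]
    field_simp
    ring
  rw [e3, ← mul_assoc, half_of]

end Pool.Agent.Helper93.EX
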