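import Pool.Agent.Helper93.EX.Marg

/-!
# EX: integrals of periodic functions over long intervals; two phases
-/

open MeasureTheory Set
open scoped ENNReal

set_option autoImplicit false

namespace Pool.Agent.Helper93.EX

private theorem sh1 {g : ℝ → ℝ≥0∞} (hg : Function.Periodic g 1) (t : ℝ) : ∫⁻ x in Ioc t (t + 1), g x = ∫⁻ x in Ioc (0 : ℝ) 1, g x := by
  have h := (isAddFundamentalDomain_Ioc (T := 1) one_pos t).setLIntegral_eq (isAddFundamentalDomain_Ioc (T := 1) one_pos 0) g (fun s x => ?_)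
  · rw [zero_add] at h
    exact h
  · obtain ⟨s, hs⟩ := s
    obtain ⟨n, hn⟩ := AddSubgroup.mem_zmultiples_iff.1 hs
    subst hn
    show g (n • (1 : ℝ) + x) = g x
    rw [add_comm]
    exact hg.zsmul n x

private theorem shn {g : ℝ → ℝ≥0∞} (hg : Function.Periodic g 1) (t : ℝ) (n : ℕ) : ∫⁻ x in Ioc t (t + n), g x = n * ∫⁻ x in Ioc (0 : ℝ) 1, g x := by
  induction n with
  | zero => simp
  | succ n ih =>
    have e : Ioc t (t + ((n + 1 : ℕ) : ℝ)) = Ioc t (t + n) ∪ Ioc (t + n) (t + n + 1) := by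
      rw [Ioc_union_Ioc_eq_Ioc (by linarith [Nat.cast_nonneg (α := ℝ) n]) (by linarith)]
      push_cast
      rw [← add_assoc]
    rw [e, lintegral_union measurableSet_Ioc (by
      rw [Set.disjoint_left]
      intro x hx hx2
      exact absurd hx2.1 (not_lt.2 hx.2)), ih, sh1 hg]
    push_cast
    ring

private theorem aff_sub {g : ℝ → ℝ≥0∞} (hm : Measurable g) {α : ℝ} (hα : 0 < α) (b s t : ℝ) :
    ∫⁻ u in Ioc s t, g (α * u + b) = ENNReal.ofReal (1 / α) * ∫⁻ x in Ioc (α * s + b) (α * t + b), g x := by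
  have hmp : Measure.map (fun u : ℝ => α * u + b) volume = ENNReal.ofReal (1 / α) • volume := by
    have h1 : (fun u : ℝ => α * u + b) = (fun x => x + b) ∘ (fun u => α * u) := rfl
    rw [h1, ← Measure.map_map (by fun_prop) (by fun_prop), Real.map_volume_mul_left hα.ne', Measure.map_smul, map_add_right_eq_self, abs_of_pos (inv_pos.2 hα), one_div]
  have h2 := setLIntegral_map (μ := volume) (s := Ioc (α * s + b) (α * t + b)) measurableSet_Ioc hm (show Measurable (fun u : ℝ => α * u + b) by fun_prop)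
  have h3 : (fun u : ℝ => α * u + b) ⁻¹' Ioc (α * s + b) (α * t + b) = Ioc s t := by
    ext u
    simp only [mem_preimage, mem_Ioc, add_lt_add_iff_right, add_le_add_iff_right]
    rw [mul_lt_mul_iff_right₀ hα, mul_le_mul_iff_right₀ hα]
  rw [h3, hmp, Measure.restrict_smul, lintegral_smul_measure, smul_eq_mul] at h2
  exact h2.symm

private theorem up_pos {g : ℝ → ℝ≥0∞} (hm : Measurable g) (hg : Function.Periodic g 1) {α : ℝ} (hα : 0 < α) (b : ℝ) {s t : ℝ} (hst : s ≤ t) :
    ∫⁻ u in Ioc s t, g (α * u + b) ≤ ENNReal.ofReal (t - s + 1 / α) * ∫⁻ x in Ioc (0 : ℝ) 1, g x := by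
  rw [aff_sub hm hα]
  obtain ⟨n, hn⟩ : ∃ n : ℕ, n = ⌈α * (t - s)⌉₊ := ⟨_, rfl⟩
  have h1 : α * (t - s) ≤ n := by rw [hn]; exact Nat.le_ceil _
  have h2 : (n : ℝ) ≤ α * (t - s) + 1 := by
    rw [hn]
    exact (Nat.ceil_lt_add_one (mul_nonneg hα.le (by linarith))).le
  calc ENNReal.ofReal (1 / α) * ∫⁻ x in Ioc (α * s + b) (α * t + b), g x
      ≤ ENNReal.ofReal (1 / α) * ∫⁻ x in Ioc (α * s + b) (α * s + b + n), g x :=
        mul_le_mul_right (lintegral_mono_set (Ioc_subset_Ioc_right (by linarith))) _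
    _ = ENNReal.ofReal (1 / α) * (n * ∫⁻ x in Ioc (0 : ℝ) 1, g x) := by rw [shn hg]
    _ = ENNReal.ofReal (1 / α * n) * ∫⁻ x in Ioc (0 : ℝ) 1, g x := by
        rw [ENNReal.ofReal_mul (by positivity), ENNReal.ofReal_natCast, mul_assoc]
    _ ≤ _ := by
        refine mul_le_mul_left (ENNReal.ofReal_le_ofReal ?_) _
        rw [div_mul_eq_mul_div, one_mul, div_le_iff₀ hα]
        have : (t - s + 1 / α) * α = α * (t - s) + 1 := by field_simp
        linarith

private theorem lo_pos {g : ℝ → ℝ≥0∞} (hm : Measurable g) (hg : Function.Periodic g 1) {α : ℝ} (hα : 0 < α) (b : ℝ) {s t : ℝ} (hst : s ≤ t) :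
    ENNReal.ofReal (t - s - 1 / α) * ∫⁻ x in Ioc (0 : ℝ) 1, g x ≤ ∫⁻ u in Ioc s t, g (α * u + b) := by
  rw [aff_sub hm hα]
  obtain ⟨n, hn⟩ : ∃ n : ℕ, n = ⌊α * (t - s)⌋₊ := ⟨_, rfl⟩
  have h1 : (n : ℝ) ≤ α * (t - s) := by rw [hn]; exact Nat.floor_le (mul_nonneg hα.le (by linarith))
  have h2 : α * (t - s) - 1 ≤ n := by
    rw [hn]
    exact (Nat.sub_one_lt_floor _).le
  calc ENNReal.ofReal (t - s - 1 / α) * ∫⁻ x in Ioc (0 : ℝ) 1, g x ≤ ENNReal.ofReal (1 / α * n) * ∫⁻ x in Ioc (0 : ℝ) 1, g x := by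
        refine mul_le_mul_left (ENNReal.ofReal_le_ofReal ?_) _
        rw [div_mul_eq_mul_div, one_mul, le_div_iff₀ hα]
        have : (t - s - 1 / α) * α = α * (t - s) - 1 := by field_simp
        linarith
    _ = ENNReal.ofReal (1 / α) * (n * ∫⁻ x in Ioc (0 : ℝ) 1, g x) := by
        rw [ENNReal.ofReal_mul (by positivity), ENNReal.ofReal_natCast, mul_assoc]
    _ = ENNReal.ofReal (1 / α) * ∫⁻ x in Ioc (α * s + b) (α * s + b + n), g x := by rw [shn hg]
    _ ≤ ENNReal.ofReal (1 / α) * ∫⁻ x in Ioc (α * s + b) (α * t + b), g x :=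
        mul_le_mul_right (lintegral_mono_set (Ioc_subset_Ioc_right (by linarith))) _

private theorem refl_int (g : ℝ → ℝ≥0∞) (s t : ℝ) : ∫⁻ u in Icc s t, g (-u) = ∫⁻ u in Icc (-t) (-s), g u := by
  rw [← lintegral_indicator measurableSet_Icc, ← lintegral_indicator measurableSet_Icc, ← lintegral_neg_eq_self]
  congr 1
  funext u
  by_cases h : u ∈ Icc (-t) (-s)
  · rw [indicator_of_mem h, indicator_of_mem (by constructor <;> linarith [h.1, h.2])]
    simp
  · rw [indicator_of_notMem h, indicator_of_notMem (fun h2 => h (by constructor <;> linarith [h2.1, h2.2]))]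

/-- upper bound for the mean of a periodic function along an interval -/
theorem per_up {g : ℝ → ℝ≥0∞} (hm : Measurable g) (hg : Function.Periodic g 1) {α : ℝ} (hα : α ≠ 0) (b : ℝ) {s t : ℝ} (hst : s ≤ t) :
    ∫⁻ u in Icc s t, g (α * u + b) ≤ ENNReal.ofReal (t - s + 1 / |α|) * ∫⁻ x in Ioc (0 : ℝ) 1, g x := by
  rcases lt_or_gt_of_ne hα with h | h
  · have h1 := refl_int (fun u => g (-α * u + b)) s t
    have e : ∀ u : ℝ, -α * -u + b = α * u + b := fun u => by ring
    simp only [e] at h1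
    rw [h1, ← setLIntegral_congr Ioc_ae_eq_Icc, abs_of_neg h]
    have h2 := up_pos hm hg (show 0 < -α by linarith) b (show -t ≤ -s by linarith)
    rwa [show -s - -t = t - s by ring] at h2
  · rw [← setLIntegral_congr Ioc_ae_eq_Icc, abs_of_pos h]
    exact up_pos hm hg h b hst

/-- lower bound for the mean of a periodic function along an interval -/
theorem per_lo {g : ℝ → ℝ≥0∞} (hm : Measurable g) (hg : Function.Periodic g 1) {α : ℝ} (hα : α ≠ 0) (b : ℝ) {s t : ℝ} (hst : s ≤ t) :
    ENNReal.ofReal (t - s - 1 / |α|) * ∫⁻ x in Ioc (0 : ℝ) 1, g x ≤ ∫⁻ u in Icc s t, g (α * u + b) := by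
  rcases lt_or_gt_of_ne hα with h | h
  · have h1 := refl_int (fun u => g (-α * u + b)) s t
    have e : ∀ u : ℝ, -α * -u + b = α * u + b := fun u => by ring
    simp only [e] at h1
    rw [h1, ← setLIntegral_congr (Ioc_ae_eq_Icc (a := -t) (b := -s)), abs_of_neg h]
    have h2 := lo_pos hm hg (show 0 < -α by linarith) b (show -t ≤ -s by linarith)
    rwa [show -s - -t = t - s by ring] at h2
  · rw [← setLIntegral_congr (Ioc_ae_eq_Icc (a := s) (b := t)), abs_of_pos h]
    exact lo_pos hm hg h b hst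

private theorem shift_int {g : ℝ → ℝ≥0∞} (hm : Measurable g) (hg : Function.Periodic g 1) (b : ℝ) :
    ∫⁻ x in Ioc (0 : ℝ) 1, g (x + b) = ∫⁻ x in Ioc (0 : ℝ) 1, g x := by
  have h := aff_sub hm one_pos b 0 1
  simp only [one_mul, zero_add, mul_zero, ne_eq, one_ne_zero, not_false_eq_true, div_self, ENNReal.ofReal_one] at h
  rw [h, add_comm 1 b]
  exact sh1 hg b

/-- two phases: `g` is periodic in both variables and log-Lipschitz in the second one -/
theorem per_two {g : ℝ × ℝ → ℝ≥0∞} (hm : Measurable g) (h1 : ∀ x y, g (x + 1, y) = g (x, y)) (h2 : ∀ x y, g (x, y + 1) = g (x, y)) {Q : ℝ}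
    (hQ : ∀ x y t, g (x, y + t) ≤ ENNReal.ofReal (Real.exp (Q * |t|)) * g (x, y)) {α β : ℝ} (hα : α ≠ 0) (hβ : β ≠ α) (b b' : ℝ) {s t : ℝ} (hst : s ≤ t) :
    ∫⁻ u in Icc s t, g (α * u + b, β * u + b') ≤
      ENNReal.ofReal (Real.exp (|Q| * (|β - α| / |α|)) * (t - s + 1 / |α| + 1 / |β - α|)) * ∫⁻ z in Ioc (0 : ℝ) 1 ×ˢ Ioc (0 : ℝ) 1, g z := by
  have ha : 0 < |α| := abs_pos.2 hα
  have hd : 0 < |β - α| := abs_pos.2 (sub_ne_zero.2 hβ)
  obtain ⟨r, hr⟩ : ∃ r : ℝ, r = 1 / |α| := ⟨_, rfl⟩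
  have hr0 : 0 < r := by rw [hr]; positivity
  obtain ⟨e, he⟩ : ∃ e : ℝ, e = Real.exp (|Q| * (|β - α| / |α|)) := ⟨_, rfl⟩
  obtain ⟨F, hF⟩ : ∃ F : ℝ → ℝ≥0∞, F = fun u => g (α * u + b, β * u + b') := ⟨_, rfl⟩
  have hFm : Measurable F := by rw [hF]; exact hm.comp (by fun_prop)
  obtain ⟨G, hG⟩ : ∃ G : ℝ → ℝ≥0∞, G = fun ψ => ∫⁻ x in Ioc (0 : ℝ) 1, g (x, x + ψ) := ⟨_, rfl⟩
  have hGm : Measurable G := by
    rw [hG]
    exact (show Measurable (fun q : ℝ × ℝ => g (q.2, q.2 + q.1)) from hm.comp (by fun_prop)).lintegral_prod_right'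
  have hGp : Function.Periodic G 1 := by
    intro ψ
    rw [hG]
    simp only
    congr 1
    funext x
    rw [← add_assoc, h2]
  -- the mean of `G`
  have hGi : ∫⁻ ψ in Ioc (0 : ℝ) 1, G ψ = ∫⁻ z in Ioc (0 : ℝ) 1 ×ˢ Ioc (0 : ℝ) 1, g z := by
    rw [hG, Measure.volume_eq_prod, ← Measure.prod_restrict, lintegral_prod _ hm.aemeasurable]
    rw [lintegral_lintegral_swap (show Measurable (Function.uncurry fun ψ x => g (x, x + ψ)) from hm.comp (by fun_prop)).aemeasurable]
    congr 1
    funext x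
    have h3 := shift_int (g := fun y => g (x, y)) (hm.comp (by fun_prop)) (fun y => h2 x y) x
    rw [← h3]
    congr 1
    funext y
    rw [add_comm x y]
  rw [← hGi]
  -- averaging over a full turn of the first phase
  have key : ENNReal.ofReal r * ∫⁻ u in Icc s t, F u ≤ ENNReal.ofReal r * (ENNReal.ofReal e * ∫⁻ u in Icc (s - r) t, G ((β - α) * u + (b' - b))) := by
    have s1 : ∀ v ∈ Icc (0 : ℝ) r, ∫⁻ u in Icc s t, F u ≤ ∫⁻ u in Icc (s - r) t, F (u + v) := by
      intro v hv
      have e1 : ∫⁻ u in Icc s t, F u = ∫⁻ u in Icc (s - v) (t - v), F (u + v) := by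
        rw [← lintegral_indicator measurableSet_Icc, ← lintegral_indicator measurableSet_Icc, ← lintegral_add_right_eq_self _ v]
        congr 1
        funext u
        by_cases h : u + v ∈ Icc s t
        · rw [indicator_of_mem h, indicator_of_mem (by constructor <;> linarith [h.1, h.2])]
        · rw [indicator_of_notMem h, indicator_of_notMem (fun h2 => h (by constructor <;> linarith [h2.1, h2.2]))]
      rw [e1]
      exact lintegral_mono_set (Icc_subset_Icc (by linarith [hv.2]) (by linarith [hv.1]))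
    have s2 : ENNReal.ofReal r * ∫⁻ u in Icc s t, F u ≤ ∫⁻ v in Icc (0 : ℝ) r, ∫⁻ u in Icc (s - r) t, F (u + v) := by
      have e1 : ∫⁻ v in Icc (0 : ℝ) r, (∫⁻ u in Icc s t, F u) = ENNReal.ofReal r * ∫⁻ u in Icc s t, F u := by
        rw [lintegral_const, Measure.restrict_apply MeasurableSet.univ, univ_inter, Real.volume_Icc, sub_zero, mul_comm]
      rw [← e1]
      exact setLIntegral_mono' measurableSet_Icc s1
    refine s2.trans ?_
    rw [lintegral_lintegral_swap (show Measurable (Function.uncurry fun v u => F (u + v)) from hFm.comp (by fun_prop)).aemeasurable, ← mul_assoc,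
      ← lintegral_const_mul _ (show Measurable fun u => G ((β - α) * u + (b' - b)) from hGm.comp (by fun_prop))]
    refine lintegral_mono fun u => ?_
    have s3 : ∀ v ∈ Icc (0 : ℝ) r, F (u + v) ≤ ENNReal.ofReal e * g (α * v + (α * u + b), α * v + (α * u + b) + ((β - α) * u + (b' - b))) := by
      intro v hv
      have e1 : F (u + v) = g (α * v + (α * u + b), α * v + (α * u + b) + ((β - α) * u + (b' - b)) + (β - α) * v) := by
        rw [hF]
        simp only
        congr 2 <;> ring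
      rw [e1]
      refine (hQ _ _ _).trans (mul_le_mul_left (ENNReal.ofReal_le_ofReal ?_) _)
      rw [he, Real.exp_le_exp]
      calc Q * |(β - α) * v| ≤ |Q| * |(β - α) * v| := mul_le_mul_of_nonneg_right (le_abs_self Q) (abs_nonneg _)
        _ = |Q| * (|β - α| * v) := by rw [abs_mul, abs_of_nonneg hv.1]
        _ ≤ |Q| * (|β - α| / |α|) := by
          refine mul_le_mul_of_nonneg_left ?_ (abs_nonneg _)
          rw [div_eq_mul_one_div, ← hr]
          exact mul_le_mul_of_nonneg_left hv.2 (abs_nonneg _)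
    have hgm : Measurable fun x => g (x, x + ((β - α) * u + (b' - b))) := hm.comp (by fun_prop)
    calc ∫⁻ v in Icc (0 : ℝ) r, F (u + v) ≤ ∫⁻ v in Icc (0 : ℝ) r, ENNReal.ofReal e * g (α * v + (α * u + b), α * v + (α * u + b) + ((β - α) * u + (b' - b))) :=
          setLIntegral_mono' measurableSet_Icc s3
      _ = ENNReal.ofReal e * ∫⁻ v in Icc (0 : ℝ) r, g (α * v + (α * u + b), α * v + (α * u + b) + ((β - α) * u + (b' - b))) :=
          lintegral_const_mul _ (hgm.comp (by fun_prop))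
      _ = ENNReal.ofReal e * (ENNReal.ofReal r * G ((β - α) * u + (b' - b))) := by
          congr 1
          rw [hG]
          simp only
          -- a full turn
          have hper : Function.Periodic (fun x => g (x, x + ((β - α) * u + (b' - b)))) 1 := by
            intro x
            show g (x + 1, x + 1 + _) = g (x, x + _)
            rw [h1, show x + 1 + ((β - α) * u + (b' - b)) = x + ((β - α) * u + (b' - b)) + 1 by ring, h2]
          rcases lt_or_gt_of_ne hα with h | h
          · have g1 := refl_int (fun v => g (-α * v + (α * u + b), -α * v + (α * u + b) + ((β - α) * u + (b' - b)))) 0 r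
            have e2 : ∀ v : ℝ, -α * -v = α * v := fun v => by ring
            simp only [e2] at g1
            rw [g1, ← setLIntegral_congr Ioc_ae_eq_Icc, aff_sub hgm (show 0 < -α by linarith) (α * u + b) (-r) (-0)]
            have e3 : -α * -r + (α * u + b) = (α * u + b - 1) + 0 ∨ True := Or.inr trivial
            have e4 : -α * (-r) = -1 := by
              rw [hr, abs_of_neg h]
              field_simp
            have e5 : -α * (-0) = (0 : ℝ) := by ring
            rw [e4, e5, zero_add, show -1 + (α * u + b) = (α * u + b - 1) by ring]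
            have e6 := sh1 hper (α * u + b - 1)
            rw [sub_add_cancel] at e6
            rw [e6, hr, abs_of_neg h]
          · rw [← setLIntegral_congr Ioc_ae_eq_Icc, aff_sub hgm h (α * u + b) 0 r]
            have e4 : α * r = 1 := by
              rw [hr, abs_of_pos h]
              field_simp
            rw [e4, mul_zero, zero_add, add_comm (1 : ℝ), sh1 hper, hr, abs_of_pos h]
      _ = ENNReal.ofReal r * ENNReal.ofReal e * G ((β - α) * u + (b' - b)) := by ring
  have hr1 : ENNReal.ofReal r ≠ 0 := by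
    rw [Ne, ENNReal.ofReal_eq_zero, not_le]
    exact hr0
  have key2 : ∫⁻ u in Icc s t, F u ≤ ENNReal.ofReal e * ∫⁻ u in Icc (s - r) t, G ((β - α) * u + (b' - b)) :=
    (ENNReal.mul_le_mul_iff_right hr1 ENNReal.ofReal_ne_top).1 key
  have h3 := per_up hGm hGp (sub_ne_zero.2 hβ) (b' - b) (show s - r ≤ t by linarith)
  calc ∫⁻ u in Icc s t, g (α * u + b, β * u + b') = ∫⁻ u in Icc s t, F u := by rw [hF]
    _ ≤ ENNReal.ofReal e * ∫⁻ u in Icc (s - r) t, G ((β - α) * u + (b' - b)) := key2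
    _ ≤ ENNReal.ofReal e * (ENNReal.ofReal (t - (s - r) + 1 / |β - α|) * ∫⁻ x in Ioc (0 : ℝ) 1, G x) := mul_le_mul_right h3 _
    _ = ENNReal.ofReal (e * (t - s + 1 / |α| + 1 / |β - α|)) * ∫⁻ x in Ioc (0 : ℝ) 1, G x := by
        rw [← mul_assoc, ← ENNReal.ofReal_mul (by rw [he]; positivity)]
        congr 3
        rw [← hr]
        ring
    _ = _ := by rw [he]

end Pool.Agent.Helper93.EX
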