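import Pool.Agent.Helper93.EX.Ae
import Pool.Agent.Helper93.AO.Cont
import Pool.Agent.Helper93.AO.Law

/-!
# EX: prevalence

`V` is the space of the `2π`-periodic functions of class `C^k`, given by `IsPer`. The sets of violations are Borel sets; the law of the random function has compact support, and almost surely
none of its translates is a violation.
-/

open MeasureTheory Real Set Filter Topology

set_option autoImplicit false

namespace Pool.Agent.Helper93.EX

open Pool.Agent.Helper93.AO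
open Pool.Agent.Helper22.LP (Fr fdet)
open Pool.Agent.Helper92.LA (Fb)
open Pool.Agent.Helper88.EX (idf Es Es_one Es_neg Es_le meas_up meas_lo)

section

variable {k : ℕ} {V : Type} [TopologicalSpace V] {val : V → ℝ → ℝ}

private theorem ov93 (h : IsPer k val) (hk : 2 ≤ k) {H : V} (hH : ∀ t, 0 < val H t + deriv (deriv (val H)) t) : IsOv (val H) :=
  ⟨(h.smooth H).of_le (by exact_mod_cast hk), h.per H, hH⟩

theorem cont93 (h : IsPer k val) {j : ℕ} (hj : j ≤ k) : Continuous fun f : V => UniformFun.ofFun (iteratedDeriv j (val f)) :=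
  (continuous_apply (⟨j, by omega⟩ : Fin (k + 1))).comp h.top.continuous

private theorem ball93 (h : IsPer k val) {j : ℕ} (hj : j ≤ k) (H : V) {ε : ℝ} (hε : 0 < ε) :
    ∀ᶠ f : V in 𝓝 H, ∀ t, |iteratedDeriv j (val f) t - iteratedDeriv j (val H) t| < ε := by
  have h1 := ((cont93 h hj).tendsto H)
  rw [UniformFun.tendsto_iff_tendstoUniformly, Metric.tendstoUniformly_iff] at h1
  filter_upwards [h1 ε hε] with f hf t
  have := hf t
  rw [dist_comm, Real.dist_eq] at this
  exact this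

private theorem two93 (f : ℝ → ℝ) : iteratedDeriv 2 f = deriv (deriv f) := by
  rw [iteratedDeriv_succ, iteratedDeriv_one]

/-- positive radius of curvature is an open condition -/
private theorem pos93 (h : IsPer k val) (hk : 2 ≤ k) {H : V} (hH : ∀ t, 0 < val H t + deriv (deriv (val H)) t) :
    ∀ᶠ f : V in 𝓝 H, ∀ t, 0 < val f t + deriv (deriv (val f)) t := by
  have h2 : ContDiff ℝ 2 (val H) := (h.smooth H).of_le (by exact_mod_cast hk)
  have hc : Continuous fun t => val H t + deriv (deriv (val H)) t := by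
    rw [← two93]
    exact h2.continuous.add (h2.continuous_iteratedDeriv 2 le_rfl)
  have hp : Function.Periodic (fun t => val H t + deriv (deriv (val H)) t) (2 * π) := by
    intro t
    have e1 : Function.Periodic (deriv (val H)) (2 * π) := by
      intro s
      have h3 : (fun x => val H (x + 2 * π)) = val H := funext (h.per H)
      calc deriv (val H) (s + 2 * π) = deriv (fun x => val H (x + 2 * π)) s := (deriv_comp_add_const _ _ _).symm
        _ = _ := by rw [h3]
    have e2 : deriv (deriv (val H)) (t + 2 * π) = deriv (deriv (val H)) t := by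
      have h3 : (fun x => deriv (val H) (x + 2 * π)) = deriv (val H) := funext e1
      calc deriv (deriv (val H)) (t + 2 * π) = deriv (fun x => deriv (val H) (x + 2 * π)) t := (deriv_comp_add_const _ _ _).symm
        _ = _ := by rw [h3]
    simp only [h.per H t, e2]
  have hK : IsCompact (Icc (0 : ℝ) (2 * π)) := isCompact_Icc
  obtain ⟨x, _, hx⟩ := hK.exists_isMinOn ⟨0, by constructor <;> positivity⟩ hc.continuousOn
  have hm : ∀ t, val H x + deriv (deriv (val H)) x ≤ val H t + deriv (deriv (val H)) t := by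
    intro t
    obtain ⟨s, hs, he⟩ := hp.exists_mem_Ico₀ (by positivity) t
    rw [he]
    exact hx ⟨hs.1, hs.2.le⟩
  have hx0 := hH x
  filter_upwards [ball93 h (j := 0) (by omega) H (ε := (val H x + deriv (deriv (val H)) x) / 2) (by linarith),
    ball93 h (j := 2) hk H (ε := (val H x + deriv (deriv (val H)) x) / 2) (by linarith)] with f h3 h4 t
  have h5 := (abs_lt.1 (h3 t)).1
  have h6 := (abs_lt.1 (h4 t)).1
  rw [iteratedDeriv_zero, iteratedDeriv_zero] at h5
  rw [two93, two93] at h6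
  linarith [hm t]

/-- the violation set for one compact set of lattices and one constant -/
def U93 (val : V → ℝ → ℝ) (M C : ℕ) : Set V :=
  {H | (∀ t, 0 < val H t + deriv (deriv (val H)) t) ∧ ∃ ab : Fr, Fb ((M + 1 : ℕ) : ℝ) ab ∧ ∃ R : ℝ, 2 < R ∧ ∃ c : ℝ × ℝ, C * gR R < |Er ab (val H) c R|}

private theorem fb93 {M : ℝ} {ab : Fr} (h : Fb M ab) : fdet ab ≠ 0 := by
  intro h0
  have := h.det
  rw [h0, abs_zero, mul_zero] at this
  linarith

theorem U_open93 (h : IsPer k val) (hk : 2 ≤ k) (M C : ℕ) : IsOpen (U93 val M C) := by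
  rw [isOpen_iff_mem_nhds]
  rintro H ⟨hH, ab, hab, R, hR, c, hv⟩
  obtain ⟨ε, hε, hh⟩ := open_viol (ov93 h hk hH) (fb93 hab) hR hv
  filter_upwards [pos93 h hk hH, ball93 h (j := 0) (by omega) H hε] with f h1 h2
  obtain ⟨R', hR', c', h3⟩ := hh (val f) (ov93 h hk h1) (fun t => by simpa only [iteratedDeriv_zero] using h2 t)
  exact ⟨h1, ab, hab, R', hR', c', h3⟩

/-- the Borel set of all violations -/
def B93 (val : V → ℝ → ℝ) : Set V := ⋃ M : ℕ, ⋂ C : ℕ, U93 val M C

theorem t2_93 (h : IsPer k val) : T2Space V := by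
  refine T2Space.of_injective_continuous (f := fun f : V => UniformFun.ofFun (iteratedDeriv 0 (val f))) ?_ (cont93 h (Nat.zero_le k))
  intro f g hfg
  have h1 : iteratedDeriv 0 (val f) = iteratedDeriv 0 (val g) := hfg
  rw [iteratedDeriv_zero, iteratedDeriv_zero] at h1
  exact h.inj h1


/-- outside the set of violations -/
theorem not_B93 (h : IsPer k val) (hk : 2 ≤ k) {H : V} (hB : H ∉ B93 val) (hH : ∀ t, 0 < val H t + deriv (deriv (val H)) t) {K : Set Fr} (hK : IsCompact K) (hdet : ∀ p ∈ K, fdet p ≠ 0) :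
    ∃ C : ℝ, ∀ p ∈ K, ∀ R : ℝ, 2 ≤ R → ∀ c : ℝ × ℝ, |Er p (val H) c R| ≤ C * gR R := by
  -- bounds on the compact set
  obtain ⟨B, hB'⟩ := hK.isBounded.exists_norm_le
  have hcd : Continuous fun p : Fr => |fdet p| := by
    unfold fdet
    fun_prop
  obtain ⟨d, hd, hdd⟩ : ∃ d : ℝ, 0 < d ∧ ∀ p ∈ K, d ≤ |fdet p| := by
    rcases K.eq_empty_or_nonempty with h0 | h0
    · exact ⟨1, one_pos, fun p hp => by rw [h0] at hp; exact absurd hp (notMem_empty p)⟩
    · obtain ⟨q, hq, hmin⟩ := hK.exists_isMinOn h0 hcd.continuousOn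
      exact ⟨_, abs_pos.2 (hdet q hq), fun p hp => hmin hp⟩
  obtain ⟨M, hM⟩ := exists_nat_ge (max B (1 / d))
  have hM1 : B ≤ ((M + 1 : ℕ) : ℝ) := by
    push_cast
    linarith [le_max_left B (1 / d)]
  have hM2 : 1 / d ≤ ((M + 1 : ℕ) : ℝ) := by
    push_cast
    linarith [le_max_right B (1 / d)]
  have hM3 : 1 ≤ ((M + 1 : ℕ) : ℝ) := by
    push_cast
    linarith [Nat.cast_nonneg (α := ℝ) M]
  have hfb : ∀ p ∈ K, Fb ((M + 1 : ℕ) : ℝ) p := by
    intro p hp
    have h1 := hB' p hp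
    have h2 : ‖p.1‖ ≤ B := (norm_fst_le p).trans h1
    have h3 : ‖p.2‖ ≤ B := (norm_snd_le p).trans h1
    refine ⟨?_, ?_, ?_, ?_, ?_⟩
    · exact ((norm_fst_le p.1).trans h2).trans hM1
    · exact ((norm_snd_le p.1).trans h2).trans hM1
    · exact ((norm_fst_le p.2).trans h3).trans hM1
    · exact ((norm_snd_le p.2).trans h3).trans hM1
    · have h4 := hdd p hp
      have h5 : 1 = 1 / d * d := by field_simp
      calc (1 : ℝ) = 1 / d * d := h5
        _ ≤ ((M + 1 : ℕ) : ℝ) * |fdet p| := mul_le_mul hM2 h4 hd.le (by positivity)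
  -- a constant
  have h6 : ∃ C : ℕ, H ∉ U93 val M C := by
    by_contra hh
    push Not at hh
    apply hB
    unfold B93
    rw [mem_iUnion]
    exact ⟨M, mem_iInter.2 hh⟩
  obtain ⟨C, hC⟩ := h6
  obtain ⟨C', hC'⟩ := two_of_lt (ov93 h hk hH) hM3 (C := (C : ℝ)) (fun ab hab R hR c => by
    by_contra hh
    exact hC ⟨hH, ab, hab, R, hR, c, not_le.1 hh⟩)
  exact ⟨C', fun p hp R hR c => hC' p (hfb p hp) R hR c⟩

/-- the violations of the upper bound -/
def VU (σ : ℝ) (val : V → ℝ → ℝ) : Set V := {H : V | (∀ t, 0 < val H t + deriv (deriv (val H)) t) ∧ ∃ ε : ℝ, 0 < ε ∧ ∀ R₀ : ℝ, ∃ R : ℝ, R₀ ≤ R ∧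
      ∃ c : ℝ × ℝ, (kap σ * aff (val H) ^ (3 / 4 : ℝ) + ε) * gR R < σ * Er idf (val H) c R}

/-- the violations of the lower bound -/
def VL (σ : ℝ) (val : V → ℝ → ℝ) : Set V := {H : V | (∀ t, 0 < val H t + deriv (deriv (val H)) t) ∧ ∃ ε : ℝ, 0 < ε ∧ ∃ R₀ : ℝ, ∃ c : ℝ × ℝ,
      ∀ R : ℝ, R₀ ≤ R → Es σ (val H) c R < (kap σ * aff (val H) ^ (3 / 4 : ℝ) - ε) * gR R}

omit [TopologicalSpace V] in
theorem law_of {σ : ℝ} {H : V} (hH : ∀ t, 0 < val H t + deriv (deriv (val H)) t) (h1 : H ∉ VU σ val) (h2 : H ∉ VL σ val) : Law σ (val H) := by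
  refine ⟨fun ε hε => ?_, fun ε hε c R₀ => ?_⟩
  · by_contra hcon
    push Not at hcon
    exact h1 ⟨hH, ε, hε, fun R₀ => by
      obtain ⟨R, hR, c, hc⟩ := hcon R₀
      exact ⟨R, hR, c, hc⟩⟩
  · by_contra hcon
    push Not at hcon
    exact h2 ⟨hH, ε, hε, R₀, c, fun R hR => hcon R hR⟩

omit [TopologicalSpace V] in
theorem not_of_law {σ : ℝ} {H : V} (h : (∀ t, 0 < val H t + deriv (deriv (val H)) t) → Law σ (val H)) : H ∉ VU σ val ∧ H ∉ VL σ val := by
  constructor
  · rintro ⟨hH, ε, hε, hR⟩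
    obtain ⟨R₀, h1⟩ := (h hH).1 ε hε
    obtain ⟨R, hR1, c, hc⟩ := hR R₀
    exact absurd (h1 R hR1 c) (not_le.2 hc)
  · rintro ⟨hH, ε, hε, R₀, c, hR⟩
    obtain ⟨R, hR1, h1⟩ := (h hH).2 ε hε c R₀
    exact absurd h1 (not_le.2 (hR R hR1))

theorem prev_law [MeasurableSpace V] [BorelSpace V] (h : IsPer k val) (hk : 2 ≤ k) (hk5 : k ≤ 5) :
    ∃ B : Set V, (∀ H : V, H ∉ B → (∀ t, 0 < val H t + deriv (deriv (val H)) t) → (∀ K : Set Fr, IsCompact K → (∀ p ∈ K, fdet p ≠ 0) →
        ∃ C : ℝ, ∀ p ∈ K, ∀ R : ℝ, 2 ≤ R → ∀ c : ℝ × ℝ, |Er p (val H) c R| ≤ C * gR R) ∧ Law 1 (val H) ∧ Law (-1) (val H)) ∧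
      MeasurableSet B ∧ ∃ μ : Measure V, IsProbabilityMeasure μ ∧ (∃ K : Set V, IsCompact K ∧ μ Kᶜ = 0) ∧
        ∀ v : V, μ {w | ∃ u ∈ B, ∀ t, val u t = val w t + val v t} = 0 := by
  have ht2 : T2Space V := t2_93 h
  obtain ⟨B, hBdef⟩ : ∃ B : Set V, B = B93 val ∪ ((VU 1 val ∪ VL 1 val) ∪ (VU (-1) val ∪ VL (-1) val)) := ⟨_, rfl⟩
  have hB93 : MeasurableSet (B93 val) := MeasurableSet.iUnion fun M => MeasurableSet.iInter fun C => (U_open93 h hk M C).measurableSet
  have hBm : MeasurableSet B := by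
    rw [hBdef]
    exact hB93.union (((meas_up h hk (Or.inl rfl) (kap 1)).union (meas_lo h hk (Or.inl rfl) (kap 1))).union
      ((meas_up h hk (Or.inr rfl) (kap (-1))).union (meas_lo h hk (Or.inr rfl) (kap (-1)))))
  -- the random function as an element of `V`
  have hW : ∀ ω : Om, ∃ v : V, val v = WW ω := fun ω => h.surj (WW ω) ((WW_smooth ω).of_le (by exact_mod_cast hk5)) (WW_per ω)
  choose RW hRW using hW
  have hRc : Continuous RW := by
    rw [h.top.continuous_iff, continuous_pi_iff]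
    intro j
    have h1 := WW_cont_unif (j := (j : ℕ)) (by omega)
    refine h1.congr fun ω => ?_
    show _ = UniformFun.ofFun (iteratedDeriv j (val (RW ω)))
    rw [hRW]
  -- the sum of two functions
  have hA : ∀ w v : V, ∃ u : V, val u = fun t => val w t + val v t := fun w v =>
    h.surj _ ((h.smooth w).add (h.smooth v)) fun t => congrArg₂ (· + ·) (h.per w t) (h.per v t)
  choose ad had using hA
  have hAc : ∀ v : V, Continuous fun w : V => ad w v := by
    intro v
    rw [h.top.continuous_iff, continuous_pi_iff]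
    intro j
    have hj : (j : ℕ) ≤ k := by omega
    have h1 : Continuous fun w : V => UniformFun.ofFun (iteratedDeriv j (val w)) + UniformFun.ofFun (iteratedDeriv j (val v)) := (cont93 h hj).add continuous_const
    refine h1.congr fun w => ?_
    show _ = UniformFun.ofFun (iteratedDeriv j (val (ad w v)))
    rw [← UniformFun.ofFun_add, had]
    congr 1
    funext t
    have hj2 : ((j : ℕ) : WithTop ℕ∞) ≤ (k : WithTop ℕ∞) := by exact_mod_cast hj
    exact (iteratedDeriv_fun_add ((h.smooth w).of_le hj2).contDiffAt ((h.smooth v).of_le hj2).contDiffAt).symm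
  have hset : ∀ v : V, {w : V | ∃ u ∈ B, ∀ t, val u t = val w t + val v t} = {w | ad w v ∈ B} := by
    intro v
    ext w
    constructor
    · rintro ⟨u, hu, hh⟩
      have e : u = ad w v := h.inj (by rw [had]; exact funext hh)
      rw [e] at hu
      exact hu
    · intro hh
      exact ⟨_, hh, fun t => by rw [had]⟩
  refine ⟨B, ?_, hBm, Measure.map RW (PP nu1), Measure.isProbabilityMeasure_map hRc.measurable.aemeasurable, ?_, ?_⟩
  · intro H hB hH
    rw [hBdef] at hB
    simp only [mem_union, not_or] at hB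
    obtain ⟨b0, ⟨b1, b2⟩, b3, b4⟩ := hB
    exact ⟨fun K hK hdet => not_B93 h hk b0 hH hK hdet, law_of hH b1 b2, law_of hH b3 b4⟩
  · have hcp : IsCompact (range RW) := isCompact_range hRc
    refine ⟨range RW, hcp, ?_⟩
    rw [Measure.map_apply hRc.measurable hcp.isClosed.measurableSet.compl]
    have : RW ⁻¹' (range RW)ᶜ = ∅ := by
      ext ω
      simp
    rw [this, measure_empty]
  · intro v
    rw [hset]
    have hm : MeasurableSet {w : V | ad w v ∈ B} := (hAc v).measurable hBm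
    rw [Measure.map_apply hRc.measurable hm, ← compl_compl (RW ⁻¹' {w | ad w v ∈ B}), ← mem_ae_iff]
    have hv2 : ContDiff ℝ 2 (val v) := (h.smooth v).of_le (by exact_mod_cast hk)
    filter_upwards [as_lat nu1_rapid hv2 (h.per v) one_ne_zero, as_law hv2 (h.per v) one_ne_zero (Or.inl rfl), as_law hv2 (h.per v) one_ne_zero (Or.inr rfl)] with ω hω hω1 hω2 hcon
    have e : val (ad (RW ω) v) = Hx (val v) 1 ω := by
      rw [had, hRW]
      funext t
      show WW ω t + val v t = val v t + 1 * WW ω t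
      ring
    have hcon' : ad (RW ω) v ∈ B := hcon
    rw [← e] at hω1 hω2
    have n1 := not_of_law hω1
    have n2 := not_of_law hω2
    rw [hBdef] at hcon'
    simp only [mem_union] at hcon'
    rcases hcon' with hcon' | (hc | hc) | (hc | hc)
    · unfold B93 at hcon'
      rw [mem_iUnion] at hcon'
      obtain ⟨M, hM⟩ := hcon'
      rw [mem_iInter] at hM
      have hpos := (hM 0).1
      rw [e] at hpos
      obtain ⟨C, hC⟩ := hω hpos ((M + 1 : ℕ) : ℝ) (by push_cast; linarith [Nat.cast_nonneg (α := ℝ) M])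
      obtain ⟨-, ab, hab, R, hR, c, hlt⟩ := hM ⌈C⌉₊
      rw [e] at hlt
      have h1 := hC ab hab R hR.le c
      have hg : 0 ≤ gR R := mul_nonneg (rpow_nonneg (by linarith) _) (rpow_nonneg (log_nonneg (by linarith)) _)
      have h2 : C * gR R ≤ (⌈C⌉₊ : ℝ) * gR R := mul_le_mul_of_nonneg_right (Nat.le_ceil C) hg
      linarith
    · exact n1.1 hc
    · exact n1.2 hc
    · exact n2.1 hc
    · exact n2.2 hc

end

end Pool.Agent.Helper93.EX
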