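import Pool.Agent.Helper93.EX.Ae4
import Pool.Agent.Helper93.EX.Prev
import Pool.Agent.Helper99.EX.B4

/-!
# EX4: the law of the large values, prevalence
-/

open MeasureTheory Real Set Filter Topology

set_option autoImplicit false

namespace Pool.Agent.Helper93.EX

open Pool.Agent.Helper93.AO
open Pool.Agent.Helper22.LP (Fr fdet)
open Pool.Agent.Helper92.LA (Fb)
open Pool.Agent.Helper88.EX (idf Es Es_one Es_neg Es_le meas_up meas_lo)

section

variable {k : ℕ} {V : Type} [TopologicalSpace V] {val : V → ℝ → ℝ}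

/-- the violations of the upper bound of the measure -/
def VU4 (σ : ℝ) (val : V → ℝ → ℝ) : Set V := {H : V | (∀ t, 0 < val H t + deriv (deriv (val H)) t) ∧ ∃ t : ℝ, 0 < t ∧ ∃ ε : ℝ, 0 < ε ∧
  ∀ p₀ : ℕ, ∃ p : ℕ, p₀ ≤ p ∧ ∃ c : ℝ × ℝ, 2 ^ ((1 - (t / (kap σ * aff (val H) ^ (3 / 4 : ℝ))) ^ 4 + ε) * p : ℝ) < LV (fun R => Es σ (val H) c R) t (2 ^ p) (2 ^ (p + 1))}

/-- the violations of the lower bound of the measure -/
def VL4 (σ : ℝ) (val : V → ℝ → ℝ) : Set V := {H : V | (∀ t, 0 < val H t + deriv (deriv (val H)) t) ∧ ∃ t : ℝ, 0 < t ∧ t < kap σ * aff (val H) ^ (3 / 4 : ℝ) ∧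
  ∃ ε : ℝ, 0 < ε ∧ ∀ p₀ : ℕ, ∃ p : ℕ, p₀ ≤ p ∧ ∃ j : ℕ, j < 2 ∧ ∃ c : ℝ × ℝ,
    LV (fun R => Es σ (val H) c R) t (2 ^ p * (1 + j / 2)) (2 ^ p * (1 + (j + 1) / 2)) < 2 ^ ((1 - (t / (kap σ * aff (val H) ^ (3 / 4 : ℝ))) ^ 4 - ε) * p : ℝ)}

omit [TopologicalSpace V] in
theorem law4_of {σ : ℝ} {H : V} (hH : ∀ t, 0 < val H t + deriv (deriv (val H)) t) (h1 : H ∉ VU4 σ val) (h2 : H ∉ VL4 σ val) : Law4 σ (val H) := by
  refine ⟨fun t ht ε hε => ?_, fun t ht htT ε hε => ?_⟩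
  · by_contra hcon
    push Not at hcon
    exact h1 ⟨hH, t, ht, ε, hε, hcon⟩
  · by_contra hcon
    push Not at hcon
    exact h2 ⟨hH, t, ht, htT, ε, hε, hcon⟩

omit [TopologicalSpace V] in
theorem not_of_law4 {σ : ℝ} {H : V} (h : (∀ t, 0 < val H t + deriv (deriv (val H)) t) → Law4 σ (val H)) : H ∉ VU4 σ val ∧ H ∉ VL4 σ val := by
  constructor
  · rintro ⟨hH, t, ht, ε, hε, hp⟩
    obtain ⟨p₀, h1⟩ := (h hH).1 t ht ε hε
    obtain ⟨p, hp1, c, hc⟩ := hp p₀
    exact absurd (h1 p hp1 c) (not_le.2 hc)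
  · rintro ⟨hH, t, ht, htT, ε, hε, hp⟩
    obtain ⟨p₀, h1⟩ := (h hH).2 t ht htT ε hε
    obtain ⟨p, hp1, j, hj, c, hc⟩ := hp p₀
    exact absurd (h1 p hp1 j hj c) (not_le.2 hc)

theorem prev_law4 [MeasurableSpace V] [BorelSpace V] (h : IsPer k val) (hk : 2 ≤ k) (hk5 : k ≤ 5) :
    ∃ B : Set V, (∀ H : V, H ∉ B → (∀ t, 0 < val H t + deriv (deriv (val H)) t) → (∀ K : Set Fr, IsCompact K → (∀ p ∈ K, fdet p ≠ 0) →
        ∃ C : ℝ, ∀ p ∈ K, ∀ R : ℝ, 2 ≤ R → ∀ c : ℝ × ℝ, |Er p (val H) c R| ≤ C * gR R) ∧ ∀ σ : ℝ, σ = 1 ∨ σ = -1 → Law σ (val H) ∧ Law4 σ (val H)) ∧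
      MeasurableSet B ∧ ∃ μ : Measure V, IsProbabilityMeasure μ ∧ (∃ K : Set V, IsCompact K ∧ μ Kᶜ = 0) ∧
        ∀ v : V, μ {w | ∃ u ∈ B, ∀ t, val u t = val w t + val v t} = 0 := by
  have ht2 : T2Space V := t2_93 h
  have hk1 : 0 < kap 1 := by
    have := Jc_pos (Or.inl rfl : (1 : ℝ) = 1 ∨ (1 : ℝ) = -1)
    unfold kap
    positivity
  have hk2 : 0 < kap (-1) := by
    have := Jc_pos (Or.inr rfl : (-1 : ℝ) = 1 ∨ (-1 : ℝ) = -1)
    unfold kap
    positivity
  obtain ⟨B, hBdef⟩ : ∃ B : Set V, B = (B93 val ∪ ((VU 1 val ∪ VL 1 val) ∪ (VU (-1) val ∪ VL (-1) val))) ∪ ((VU4 1 val ∪ VL4 1 val) ∪ (VU4 (-1) val ∪ VL4 (-1) val)) := ⟨_, rfl⟩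
  have hB93 : MeasurableSet (B93 val) := MeasurableSet.iUnion fun M => MeasurableSet.iInter fun C => (U_open93 h hk M C).measurableSet
  have hBm : MeasurableSet B := by
    rw [hBdef]
    exact (hB93.union (((meas_up h hk (Or.inl rfl) (kap 1)).union (meas_lo h hk (Or.inl rfl) (kap 1))).union
      ((meas_up h hk (Or.inr rfl) (kap (-1))).union (meas_lo h hk (Or.inr rfl) (kap (-1)))))).union
      (((meas_up4 h hk (Or.inl rfl) hk1).union (meas_lo4 h hk (Or.inl rfl) hk1)).union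
      ((meas_up4 h hk (Or.inr rfl) hk2).union (meas_lo4 h hk (Or.inr rfl) hk2)))
  -- the random function as an element of `V`
  have hW : ∀ ω : Om, ∃ v : V, val v = WW ω := fun ω => h.surj (WW ω) ((WW_smooth ω).of_le (by exact_mod_cast hk5)) (WW_per ω)
  choose RW hRW using hW
  have hRc : Continuous RW := by
    rw [h.top.continuous_iff, continuous_pi_iff]
    intro j
    have h1 := WW_cont_unif (j := (j : ℕ)) (by omega)
    refine h1.congr fun ω => ?_
    show _ = UniformFun.ofFun (iteratedDeriv j (val (RW ω)))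
    rw [hRW]
  -- the sum of two functions
  have hA : ∀ w v : V, ∃ u : V, val u = fun t => val w t + val v t := fun w v =>
    h.surj _ ((h.smooth w).add (h.smooth v)) fun t => congrArg₂ (· + ·) (h.per w t) (h.per v t)
  choose ad had using hA
  have hAc : ∀ v : V, Continuous fun w : V => ad w v := by
    intro v
    rw [h.top.continuous_iff, continuous_pi_iff]
    intro j
    have hj : (j : ℕ) ≤ k := by omega
    have h1 : Continuous fun w : V => UniformFun.ofFun (iteratedDeriv j (val w)) + UniformFun.ofFun (iteratedDeriv j (val v)) := (cont93 h hj).add continuous_const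
    refine h1.congr fun w => ?_
    show _ = UniformFun.ofFun (iteratedDeriv j (val (ad w v)))
    rw [← UniformFun.ofFun_add, had]
    congr 1
    funext t
    have hj2 : ((j : ℕ) : WithTop ℕ∞) ≤ (k : WithTop ℕ∞) := by exact_mod_cast hj
    exact (iteratedDeriv_fun_add ((h.smooth w).of_le hj2).contDiffAt ((h.smooth v).of_le hj2).contDiffAt).symm
  have hset : ∀ v : V, {w : V | ∃ u ∈ B, ∀ t, val u t = val w t + val v t} = {w | ad w v ∈ B} := by
    intro v
    ext w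
    constructor
    · rintro ⟨u, hu, hh⟩
      have e : u = ad w v := h.inj (by rw [had]; exact funext hh)
      rw [e] at hu
      exact hu
    · intro hh
      exact ⟨_, hh, fun t => by rw [had]⟩
  refine ⟨B, ?_, hBm, Measure.map RW (PP nu1), Measure.isProbabilityMeasure_map hRc.measurable.aemeasurable, ?_, ?_⟩
  · intro H hB hH
    rw [hBdef] at hB
    simp only [mem_union, not_or] at hB
    obtain ⟨⟨b0, ⟨b1, b2⟩, b3, b4⟩, ⟨b5, b6⟩, b7, b8⟩ := hB
    refine ⟨fun K hK hdet => not_B93 h hk b0 hH hK hdet, fun σ hσ => ?_⟩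
    rcases hσ with rfl | rfl
    · exact ⟨law_of hH b1 b2, law4_of hH b5 b6⟩
    · exact ⟨law_of hH b3 b4, law4_of hH b7 b8⟩
  · have hcp : IsCompact (range RW) := isCompact_range hRc
    refine ⟨range RW, hcp, ?_⟩
    rw [Measure.map_apply hRc.measurable hcp.isClosed.measurableSet.compl]
    have : RW ⁻¹' (range RW)ᶜ = ∅ := by
      ext ω
      simp
    rw [this, measure_empty]
  · intro v
    rw [hset]
    have hm : MeasurableSet {w : V | ad w v ∈ B} := (hAc v).measurable hBm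
    rw [Measure.map_apply hRc.measurable hm, ← compl_compl (RW ⁻¹' {w | ad w v ∈ B}), ← mem_ae_iff]
    have hv2 : ContDiff ℝ 2 (val v) := (h.smooth v).of_le (by exact_mod_cast hk)
    filter_upwards [as_lat nu1_rapid hv2 (h.per v) one_ne_zero, as_law hv2 (h.per v) one_ne_zero (Or.inl rfl), as_law hv2 (h.per v) one_ne_zero (Or.inr rfl),
      as_law4 hv2 (h.per v) one_ne_zero (Or.inl rfl), as_law4 hv2 (h.per v) one_ne_zero (Or.inr rfl)] with ω hω hω1 hω2 hω3 hω4 hcon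
    have e : val (ad (RW ω) v) = Hx (val v) 1 ω := by
      rw [had, hRW]
      funext t
      show WW ω t + val v t = val v t + 1 * WW ω t
      ring
    have hcon' : ad (RW ω) v ∈ B := hcon
    rw [← e] at hω1 hω2 hω3 hω4
    have n1 := not_of_law hω1
    have n2 := not_of_law hω2
    have n3 := not_of_law4 hω3
    have n4 := not_of_law4 hω4
    rw [hBdef] at hcon'
    simp only [mem_union] at hcon'
    rcases hcon' with (hcon' | (hc | hc) | (hc | hc)) | ((hc | hc) | (hc | hc))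
    · unfold B93 at hcon'
      rw [mem_iUnion] at hcon'
      obtain ⟨M, hM⟩ := hcon'
      rw [mem_iInter] at hM
      have hpos := (hM 0).1
      rw [e] at hpos
      obtain ⟨C, hC⟩ := hω hpos ((M + 1 : ℕ) : ℝ) (by push_cast; linarith [Nat.cast_nonneg (α := ℝ) M])
      obtain ⟨-, ab, hab, R, hR, c, hlt⟩ := hM ⌈C⌉₊
      rw [e] at hlt
      have h1 := hC ab hab R hR.le c
      have hg : 0 ≤ gR R := mul_nonneg (rpow_nonneg (by linarith) _) (rpow_nonneg (log_nonneg (by linarith)) _)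
      have h2 : C * gR R ≤ (⌈C⌉₊ : ℝ) * gR R := mul_le_mul_of_nonneg_right (Nat.le_ceil C) hg
      linarith
    · exact n1.1 hc
    · exact n1.2 hc
    · exact n2.1 hc
    · exact n2.2 hc
    · exact n3.1 hc
    · exact n3.2 hc
    · exact n4.1 hc
    · exact n4.2 hc

end

end Pool.Agent.Helper93.EX
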