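import Pool.Agent.Helper93.EX.Wave
import Pool.Agent.Helper93.EX.Second

/-!
# EX: the sum `Mx` of the resampled support function as a sum of independent waves
-/

open MeasureTheory Set Real

set_option autoImplicit false

namespace Pool.Agent.Helper93.EX

open Pool.Agent.Helper93.AO
open Pool.Agent.Helper22.AE (rho nk tk box cz)

/-- the coordinates used -/
noncomputable def cc (N l : ℕ) (k : prim N) : ℕ × ℕ := (l, idx l (tk k))

/-- the amplitudes -/
noncomputable def aal (σ : ℝ) (H : ℝ → ℝ) (N : ℕ) (k : prim N) : ℝ := σ * ak H k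

/-- the waves -/
noncomputable def ff (N : ℕ) (k : prim N) : ℝ → ℝ := fJ ((N - 1) / sn k)

/-- the factor of the first random coefficient -/
noncomputable def ss (τ : ℝ) (l N : ℕ) (k : prim N) : ℝ := τ * nk k * cos (tk k - th l (idx l (tk k))) / 2 ^ (21 * l)

/-- the factor of the second random coefficient -/
noncomputable def ss' (τ : ℝ) (l N : ℕ) (k : prim N) : ℝ := τ * nk k * (16 ^ l * sin (tk k - th l (idx l (tk k)))) / 2 ^ (21 * l)

noncomputable def uu (H : ℝ → ℝ) (N : ℕ) (k : prim N) : ℝ := nk k * H (tk k)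

noncomputable def ww (c : ℝ × ℝ) (N : ℕ) (k : prim N) : ℝ := ((k : ℤ × ℤ).1 : ℝ) * c.1 + ((k : ℤ × ℤ).2 : ℝ) * c.2

theorem cc_inj {N l : ℕ} (hl : 20 * (N : ℝ) ^ 2 ≤ 16 ^ l) : Function.Injective (cc N l) := by
  intro k k' h
  unfold cc at h
  exact Subtype.ext (idx_inj hl k.2 k'.2 (congrArg Prod.snd h))

theorem ss_low {τ : ℝ} {l N : ℕ} (k : prim N) : |τ| / (2 * 2 ^ (21 * l)) ≤ |ss τ l N k| := by
  unfold ss
  have h1 := nk_one k.2
  have h2 := idx_near l (tk k)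
  obtain ⟨x, hx⟩ : ∃ x : ℝ, x = tk k - th l (idx l (tk k)) := ⟨_, rfl⟩
  rw [← hx] at h2 ⊢
  have hA : (1 : ℝ) ≤ 16 ^ l := one_le_pow₀ (by norm_num)
  have h3 : |sin (x / 2)| ≤ 2 / 5 := by
    rw [abs_mul, abs_of_pos (by positivity : (0 : ℝ) < 16 ^ l)] at h2
    have := abs_nonneg (sin (x / 2))
    nlinarith
  have h4 : 1 / 2 ≤ cos x := by
    have e : cos x = 1 - 2 * sin (x / 2) ^ 2 := by
      have h5 := cos_two_mul (x / 2)
      have h6 := sin_sq_add_cos_sq (x / 2)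
      rw [show 2 * (x / 2) = x by ring] at h5
      linarith
    have h7 : sin (x / 2) ^ 2 ≤ (2 / 5) ^ 2 := by
      rw [← sq_abs]
      exact pow_le_pow_left₀ (abs_nonneg _) h3 2
    rw [e]
    norm_num at h7 ⊢
    linarith
  rw [abs_div, abs_mul, abs_mul, abs_of_nonneg (show 0 ≤ nk k from norm_nonneg _), abs_of_pos (show 0 < cos x by linarith), abs_of_pos (show (0 : ℝ) < 2 ^ (21 * l) by positivity),
    div_le_div_iff₀ (by positivity) (by positivity)]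
  have h8 : 1 / 2 ≤ nk k * cos x := by nlinarith
  have h9 : 0 ≤ |τ| * 2 ^ (21 * l) := by positivity
  nlinarith

variable {H₀ : ℝ → ℝ}

theorem rep_ak (h2 : ContDiff ℝ 2 H₀) (τ : ℝ) {N l : ℕ} (hl : 20 * (N : ℝ) ^ 2 ≤ 16 ^ l) (x ω : Om) {k : ℤ × ℤ} (hk : k ∈ prim N) :
    ak (Hx H₀ τ (upd (FF l (Ix N l)) x ω)) k = ak (Hx H₀ τ (upd (FF l (Ix N l)) om0 ω)) k := by
  unfold ak
  rw [hx_rho h2, hx_rho h2, (jet_prim hl hk x ω).2]

theorem rep_Mx (h2 : ContDiff ℝ 2 H₀) (τ σ : ℝ) {N l : ℕ} (hl : 20 * (N : ℝ) ^ 2 ≤ 16 ^ l) (x ω : Om) (R : ℝ) (c : ℝ × ℝ) :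
    σ * Mx (Hx H₀ τ (upd (FF l (Ix N l)) x ω)) N R c = Ms (aal σ (Hx H₀ τ (upd (FF l (Ix N l)) om0 ω)) N) (ff N)
      (Ph (ss τ l N) (ss' τ l N) (uu (Hx H₀ τ (upd (FF l (Ix N l)) om0 ω)) N) (ww c N) (cc N l) R x) := by
  unfold Mx Ms
  rw [Finset.mul_sum, ← Finset.sum_coe_sort (prim N)]
  refine Finset.sum_congr rfl fun k _ => ?_
  unfold aal ff Ph ss ss' uu ww cc
  rw [rep_ak h2 τ hl x ω k.2, ← mul_assoc]
  congr 2
  have h := (jet_prim hl k.2 x ω).1
  unfold Hx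
  rw [h]
  ring

theorem rep_CX (h2 : ContDiff ℝ 2 H₀) (τ σ : ℝ) {N l : ℕ} (hl : 20 * (N : ℝ) ^ 2 ≤ 16 ^ l) (x ω : Om) (lam : ℝ) :
    CX σ (Hx H₀ τ (upd (FF l (Ix N l)) x ω)) N lam = Cs (aal σ (Hx H₀ τ (upd (FF l (Ix N l)) om0 ω)) N) (ff N) lam := by
  unfold CX Cs
  rw [← Finset.sum_coe_sort (prim N)]
  refine Finset.sum_congr rfl fun k _ => ?_
  unfold aal ff
  rw [rep_ak h2 τ hl x ω k.2]
  congr 1
  ring

theorem hx_bd (h2 : ContDiff ℝ 2 H₀) (hp : Function.Periodic H₀ (2 * π)) (τ : ℝ) :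
    ∃ K B : ℝ, 1 ≤ K ∧ 0 ≤ B ∧ ∀ ω : Om, (∀ t, |rho (Hx H₀ τ ω) t| ≤ K) ∧ ∀ t, |Hx H₀ τ ω t| ≤ B := by
  obtain ⟨C, hC, hW⟩ := WW_bound
  have hcd : Continuous (deriv (deriv H₀)) := by
    have h1 : ContDiff ℝ 1 (deriv H₀) := by
      have h := (contDiff_succ_iff_deriv (n := 1) (f := H₀)).1 (by
        rw [one_add_one_eq_two]
        exact h2)
      exact h.2.2
    exact h1.continuous_deriv (le_refl _)
  have hrc : Continuous (rho H₀) := by
    unfold rho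
    exact h2.continuous.add hcd
  have hpd : Function.Periodic (deriv H₀) (2 * π) := by
    intro s
    have h3 : (fun x => H₀ (x + 2 * π)) = H₀ := funext hp
    calc deriv H₀ (s + 2 * π) = deriv (fun x => H₀ (x + 2 * π)) s := (deriv_comp_add_const _ _ _).symm
      _ = _ := by rw [h3]
  have hpdd : Function.Periodic (deriv (deriv H₀)) (2 * π) := by
    intro s
    have h3 : (fun x => deriv H₀ (x + 2 * π)) = deriv H₀ := funext hpd
    calc deriv (deriv H₀) (s + 2 * π) = deriv (fun x => deriv H₀ (x + 2 * π)) s := (deriv_comp_add_const _ _ _).symm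
      _ = _ := by rw [h3]
  have hrp : Function.Periodic (rho H₀) (2 * π) := by
    intro t
    unfold rho
    rw [hp, hpdd]
  have bdd : ∀ F : ℝ → ℝ, Continuous F → Function.Periodic F (2 * π) → ∃ M : ℝ, 0 ≤ M ∧ ∀ t, |F t| ≤ M := by
    intro F hF hFp
    obtain ⟨M, hM⟩ := isCompact_Icc.exists_bound_of_continuousOn (s := Icc (0 : ℝ) (2 * π)) hF.continuousOn
    refine ⟨|M|, abs_nonneg _, fun t => ?_⟩
    obtain ⟨s, hs, he⟩ := hFp.exists_mem_Ico₀ (by positivity) t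
    rw [he]
    exact (hM s ⟨hs.1, hs.2.le⟩).trans (le_abs_self _)
  obtain ⟨M1, hM1, hb1⟩ := bdd _ hrc hrp
  obtain ⟨M2, hM2, hb2⟩ := bdd _ h2.continuous hp
  refine ⟨1 + M1 + |τ| * (2 * C), M2 + |τ| * C, by nlinarith [abs_nonneg τ], by positivity, fun ω => ⟨fun t => ?_, fun t => ?_⟩⟩
  · rw [hx_rho h2]
    have w0 := hW 0 (by norm_num) ω t
    have w2 := hW 2 (by norm_num) ω t
    rw [iteratedDeriv_zero] at w0
    rw [iteratedDeriv_succ, iteratedDeriv_one] at w2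
    have w3 : |rho (WW ω) t| ≤ 2 * C := by
      unfold rho
      refine (abs_add_le _ _).trans ?_
      linarith
    calc |rho H₀ t + τ * rho (WW ω) t| ≤ |rho H₀ t| + |τ * rho (WW ω) t| := abs_add_le _ _
      _ ≤ M1 + |τ| * (2 * C) := by
        rw [abs_mul]
        exact add_le_add (hb1 t) (mul_le_mul_of_nonneg_left w3 (abs_nonneg _))
      _ ≤ _ := by linarith
  · have w0 := hW 0 (by norm_num) ω t
    rw [iteratedDeriv_zero] at w0
    unfold Hx
    calc |H₀ t + τ * WW ω t| ≤ |H₀ t| + |τ * WW ω t| := abs_add_le _ _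
      _ ≤ _ := by
        rw [abs_mul]
        exact add_le_add (hb2 t) (mul_le_mul_of_nonneg_left w0 (abs_nonneg _))

private theorem c0 (t : ℝ) : Continuous fun ω : Om => WW ω t := WW_cont.comp (continuous_id.prodMk continuous_const)

private theorem c2 (t : ℝ) : Continuous fun ω : Om => deriv (deriv (WW ω)) t := by
  have h : Continuous fun ω : Om => ((ω, t) : Om × ℝ) := by fun_prop
  have h2 := WW_cont2.comp h
  simpa only [Function.comp_def] using h2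

theorem ak_cont (h2 : ContDiff ℝ 2 H₀) (τ : ℝ) (k : ℤ × ℤ) : Continuous fun ω : Om => ak (Hx H₀ τ ω) k := by
  have e : (fun ω : Om => ak (Hx H₀ τ ω) k) = fun ω => nk k ^ (-(3 / 2) : ℝ) * sqrt (rho H₀ (tk k) + τ * (WW ω (tk k) + deriv (deriv (WW ω)) (tk k))) := by
    funext ω
    unfold ak
    rw [hx_rho h2]
    rfl
  rw [e]
  have a0 := c0 (tk k)
  have a2 := c2 (tk k)
  fun_prop

theorem Mx_cont (h2 : ContDiff ℝ 2 H₀) (τ : ℝ) (N : ℕ) (R : ℝ) (c : ℝ × ℝ) : Continuous fun ω : Om => Mx (Hx H₀ τ ω) N R c := by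
  unfold Mx
  refine continuous_finsetSum _ fun k _ => (ak_cont h2 τ k).mul ((fJ_cont _).comp ?_)
  have a0 := c0 (tk k)
  unfold Hx
  fun_prop

theorem CX_cont (h2 : ContDiff ℝ 2 H₀) (τ σ : ℝ) (N : ℕ) (lam : ℝ) : Continuous fun ω : Om => CX σ (Hx H₀ τ ω) N lam := by
  unfold CX
  refine continuous_finsetSum _ fun k _ => (La_cont (fJ_cont _)).comp (continuous_const.mul (ak_cont h2 τ k))

end Pool.Agent.Helper93.EX
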