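import Pool.Agent.Helper93.EX.Law2
import Pool.Agent.Helper93.EX.Defs

/-!
# EX: sums of independent waves with uniform phases: Laplace transform, tilting
-/

open MeasureTheory Set Real
open scoped ENNReal

set_option autoImplicit false

namespace Pool.Agent.Helper93.EX

open Pool.Agent.Helper93.AO

variable {κ : Type} [Fintype κ] [DecidableEq κ]

/-- the sum of waves -/
noncomputable def Ms (al : κ → ℝ) (f : κ → ℝ → ℝ) (z : κ → ℝ) : ℝ := ∑ k, al k * f k (z k)

/-- the exponent of its Laplace transform -/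
noncomputable def Cs (al : κ → ℝ) (f : κ → ℝ → ℝ) (s : ℝ) : ℝ := ∑ k, La (f k) (s * al k)

omit [DecidableEq κ] in
theorem Ms_cont {al : κ → ℝ} {f : κ → ℝ → ℝ} (hf : ∀ k, Continuous (f k)) : Continuous (Ms al f) := by
  unfold Ms
  exact continuous_finsetSum _ fun k _ => continuous_const.mul ((hf k).comp (continuous_apply k))

omit [DecidableEq κ] in
theorem Ms_bd {al : κ → ℝ} {f : κ → ℝ → ℝ} (hb : ∀ k x, |f k x| ≤ 1) (z : κ → ℝ) : |Ms al f z| ≤ ∑ k, |al k| := by
  unfold Ms
  refine (Finset.abs_sum_le_sum_abs _ _).trans (Finset.sum_le_sum fun k _ => ?_)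
  rw [abs_mul]
  exact mul_le_of_le_one_right (abs_nonneg _) (hb k _)

private theorem exp_La {g : ℝ → ℝ} (hg : Continuous g) (s : ℝ) : exp (La g s) = ∫ x, exp (s * g x) ∂uI := by
  unfold La uI
  rw [← intervalIntegral.integral_of_le zero_le_one, exp_log]
  exact intervalIntegral.intervalIntegral_pos_of_pos_on ((by fun_prop : Continuous fun x => exp (s * g x)).intervalIntegrable _ _) (fun x _ => exp_pos _) one_pos

omit [DecidableEq κ] in
/-- the Laplace transform of the sum -/
theorem mgf {al : κ → ℝ} {f : κ → ℝ → ℝ} (hf : ∀ k, Continuous (f k)) (s : ℝ) :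
    ∫ z, exp (s * Ms al f z) ∂(Measure.pi fun _ : κ => uI) = exp (Cs al f s) := by
  have e : ∀ z : κ → ℝ, exp (s * Ms al f z) = ∏ k, exp (s * al k * f k (z k)) := by
    intro z
    rw [← exp_sum]
    congr 1
    unfold Ms
    rw [Finset.mul_sum]
    exact Finset.sum_congr rfl fun k _ => by ring
  simp only [e]
  rw [integral_fintype_prod_eq_prod (fun k x => exp (s * al k * f k x))]
  unfold Cs
  rw [exp_sum]
  exact Finset.prod_congr rfl fun k _ => (exp_La (hf k) _).symm

omit [DecidableEq κ] in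
theorem int_bd {g : (κ → ℝ) → ℝ} (hg : Measurable g) {B : ℝ} (hB : ∀ z, |g z| ≤ B) : Integrable g (Measure.pi fun _ : κ => uI) :=
  Integrable.of_bound hg.aestronglyMeasurable B (Filter.Eventually.of_forall hB)

/-- the weight -/
noncomputable def Yw (al : κ → ℝ) (f : κ → ℝ → ℝ) (lam mu m : ℝ) (z : κ → ℝ) : ℝ :=
  exp (lam * Ms al f z - Cs al f lam - mu * (Ms al f z - m) ^ 2)

omit [DecidableEq κ] in
theorem Yw_cont {al : κ → ℝ} {f : κ → ℝ → ℝ} (hf : ∀ k, Continuous (f k)) (lam mu m : ℝ) : Continuous (Yw al f lam mu m) := by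
  unfold Yw
  have := Ms_cont (al := al) hf
  fun_prop

omit [DecidableEq κ] in
/-- upper bound of the weight -/
theorem Yw_le {al : κ → ℝ} {f : κ → ℝ → ℝ} {lam mu m : ℝ} (hmu : 0 < mu) (z : κ → ℝ) : Yw al f lam mu m z ≤ exp (lam * m - Cs al f lam + lam ^ 2 / (4 * mu)) := by
  unfold Yw
  rw [exp_le_exp]
  obtain ⟨x, hx⟩ : ∃ x : ℝ, x = Ms al f z - m := ⟨_, rfl⟩
  have e : lam * Ms al f z = lam * m + lam * x := by rw [hx]; ring
  rw [e, ← hx]
  have h : lam * x - mu * x ^ 2 ≤ lam ^ 2 / (4 * mu) := by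
    rw [le_div_iff₀ (by positivity)]
    nlinarith [sq_nonneg (2 * mu * x - lam)]
  linarith

omit [DecidableEq κ] in
/-- lower bound of the mean of the weight -/
theorem Yw_mean {al : κ → ℝ} {f : κ → ℝ → ℝ} (hf : ∀ k, Continuous (f k)) (hb : ∀ k x, |f k x| ≤ 1) {lam mu m h e : ℝ} (hh : 0 < h) (hmu : 0 ≤ mu)
    (c1 : Cs al f (lam + h) - Cs al f lam ≤ h * (m + e) - log 4) (c2 : Cs al f (lam - h) - Cs al f lam ≤ -(h * (m - e)) - log 4) :
    exp (-(mu * e ^ 2)) / 2 ≤ ∫ z, Yw al f lam mu m z ∂(Measure.pi fun _ : κ => uI) := by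
  obtain ⟨P, hP⟩ : ∃ P : Measure (κ → ℝ), P = Measure.pi fun _ : κ => uI := ⟨_, rfl⟩
  rw [← hP]
  have hPp : IsProbabilityMeasure P := by rw [hP]; infer_instance
  obtain ⟨B, hB⟩ : ∃ B : ℝ, B = ∑ k, |al k| := ⟨_, rfl⟩
  have hMB : ∀ z, |Ms al f z| ≤ B := fun z => by rw [hB]; exact Ms_bd hb z
  have hMc := Ms_cont (al := al) hf
  have hexpb : ∀ s : ℝ, Integrable (fun z => exp (s * Ms al f z)) P := by
    intro s
    rw [hP]
    refine int_bd (by fun_prop) (B := exp (|s| * B)) fun z => ?_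
    rw [abs_of_pos (exp_pos _), exp_le_exp]
    calc s * Ms al f z ≤ |s * Ms al f z| := le_abs_self _
      _ = |s| * |Ms al f z| := abs_mul _ _
      _ ≤ |s| * B := mul_le_mul_of_nonneg_left (hMB z) (abs_nonneg _)
  have hY : Integrable (Yw al f lam mu m) P := by
    rw [hP]
    refine int_bd (Yw_cont hf lam mu m).measurable (B := exp (|lam| * B - Cs al f lam)) fun z => ?_
    unfold Yw
    rw [abs_of_pos (exp_pos _), exp_le_exp]
    have h1 : lam * Ms al f z ≤ |lam| * B := by
      calc lam * Ms al f z ≤ |lam * Ms al f z| := le_abs_self _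
        _ = |lam| * |Ms al f z| := abs_mul _ _
        _ ≤ |lam| * B := mul_le_mul_of_nonneg_left (hMB z) (abs_nonneg _)
    have h2 : 0 ≤ mu * (Ms al f z - m) ^ 2 := mul_nonneg hmu (sq_nonneg _)
    linarith
  -- pointwise
  obtain ⟨L, hL⟩ : ∃ L : (κ → ℝ) → ℝ, L = fun z => exp (-(mu * e ^ 2)) * (exp (-Cs al f lam) * exp (lam * Ms al f z) -
      exp (-Cs al f lam - h * (m + e)) * exp ((lam + h) * Ms al f z) - exp (-Cs al f lam + h * (m - e)) * exp ((lam - h) * Ms al f z)) := ⟨_, rfl⟩
  have hpt : ∀ z, L z ≤ Yw al f lam mu m z := by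
    intro z
    obtain ⟨x, hx⟩ : ∃ x : ℝ, x = Ms al f z - m := ⟨_, rfl⟩
    have e1 : L z = exp (-(mu * e ^ 2)) * (exp (lam * Ms al f z - Cs al f lam) * (1 - exp (h * (x - e)) - exp (-(h * (x + e))))) := by
      have A1 : exp (-Cs al f lam) * exp (lam * Ms al f z) = exp (lam * Ms al f z - Cs al f lam) := by
        rw [← exp_add]
        congr 1
        ring
      have A2 : exp (-Cs al f lam - h * (m + e)) * exp ((lam + h) * Ms al f z) = exp (lam * Ms al f z - Cs al f lam) * exp (h * (x - e)) := by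
        rw [← exp_add, ← exp_add, hx]
        congr 1
        ring
      have A3 : exp (-Cs al f lam + h * (m - e)) * exp ((lam - h) * Ms al f z) = exp (lam * Ms al f z - Cs al f lam) * exp (-(h * (x + e))) := by
        rw [← exp_add, ← exp_add, hx]
        congr 1
        ring
      rw [hL]
      simp only
      rw [A1, A2, A3]
      ring
    have e2 : Yw al f lam mu m z = exp (lam * Ms al f z - Cs al f lam) * exp (-(mu * x ^ 2)) := by
      unfold Yw
      rw [← exp_add, hx]
      congr 1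
    rw [e1, e2, mul_left_comm]
    refine mul_le_mul_of_nonneg_left ?_ (exp_pos _).le
    have p1 := exp_pos (h * (x - e))
    have p2 := exp_pos (-(h * (x + e)))
    have p3 := exp_pos (-(mu * e ^ 2))
    have p4 := exp_pos (-(mu * x ^ 2))
    by_cases hxe : |x| ≤ e
    · have h1 : x ^ 2 ≤ e ^ 2 := by
        rw [← sq_abs x]
        exact pow_le_pow_left₀ (abs_nonneg _) hxe 2
      have h2 : exp (-(mu * e ^ 2)) ≤ exp (-(mu * x ^ 2)) := exp_le_exp.2 (by nlinarith)
      nlinarith
    · rcases not_le.1 hxe |> lt_abs.1 with h1 | h1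
      · have h2 : 1 < exp (h * (x - e)) := by
          rw [← exp_zero]
          exact exp_lt_exp.2 (mul_pos hh (by linarith))
        nlinarith
      · have h2 : 1 < exp (-(h * (x + e))) := by
          rw [← exp_zero]
          exact exp_lt_exp.2 (by nlinarith)
        nlinarith
  have hLi : Integrable L P := by
    rw [hL]
    exact ((((hexpb lam).const_mul _).sub ((hexpb (lam + h)).const_mul _)).sub ((hexpb (lam - h)).const_mul _)).const_mul _
  have hLv : ∫ z, L z ∂P = exp (-(mu * e ^ 2)) * (1 - exp (Cs al f (lam + h) - Cs al f lam - h * (m + e)) - exp (Cs al f (lam - h) - Cs al f lam + h * (m - e))) := by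
    have s1 := integral_sub (((hexpb lam).const_mul (exp (-Cs al f lam))).sub ((hexpb (lam + h)).const_mul (exp (-Cs al f lam - h * (m + e)))))
      ((hexpb (lam - h)).const_mul (exp (-Cs al f lam + h * (m - e))))
    have s2 := integral_sub ((hexpb lam).const_mul (exp (-Cs al f lam))) ((hexpb (lam + h)).const_mul (exp (-Cs al f lam - h * (m + e))))
    simp only [Pi.sub_apply] at s1
    rw [hL, integral_const_mul]
    congr 1
    rw [s1, s2, integral_const_mul, integral_const_mul, integral_const_mul, hP, mgf hf, mgf hf, mgf hf,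
      ← exp_add, ← exp_add, ← exp_add]
    congr 1
    · congr 1
      · rw [neg_add_cancel, exp_zero]
      · congr 1
        ring
    · congr 1
      ring
  have q1 : exp (Cs al f (lam + h) - Cs al f lam - h * (m + e)) ≤ 1 / 4 := by
    calc exp (Cs al f (lam + h) - Cs al f lam - h * (m + e)) ≤ exp (-log 4) := exp_le_exp.2 (by linarith)
      _ = 1 / 4 := by rw [exp_neg, exp_log (by norm_num)]; norm_num
  have q2 : exp (Cs al f (lam - h) - Cs al f lam + h * (m - e)) ≤ 1 / 4 := by
    calc exp (Cs al f (lam - h) - Cs al f lam + h * (m - e)) ≤ exp (-log 4) := exp_le_exp.2 (by linarith)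
      _ = 1 / 4 := by rw [exp_neg, exp_log (by norm_num)]; norm_num
  calc exp (-(mu * e ^ 2)) / 2 = exp (-(mu * e ^ 2)) * (1 - 1 / 4 - 1 / 4) := by ring
    _ ≤ exp (-(mu * e ^ 2)) * (1 - exp (Cs al f (lam + h) - Cs al f lam - h * (m + e)) - exp (Cs al f (lam - h) - Cs al f lam + h * (m - e))) :=
        mul_le_mul_of_nonneg_left (by linarith) (exp_pos _).le
    _ = ∫ z, L z ∂P := hLv.symm
    _ ≤ _ := integral_mono hLi hY hpt

end Pool.Agent.Helper93.EX
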