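import Pool.Agent.Helper93.EX.Samp

/-!
# EX: the almost sure upper bound
-/

open MeasureTheory Set Real

set_option autoImplicit false

namespace Pool.Agent.Helper93.EX

open Pool.Agent.Helper93.AO
open Pool.Agent.Helper22.AE (rho nk tk box cz)

theorem NN_le (a : ℕ) {p : ℕ} (hp : 1 ≤ p) : (NN a p : ℝ) ≤ 2 ^ a * p := by
  unfold NN
  rw [Nat.cast_pow, Nat.cast_ofNat, pow_add]
  have h1 : (2 : ℝ) ^ (Nat.log 2 p / 2) ≤ p := by
    have h2 : 2 ^ (Nat.log 2 p / 2) ≤ p := (Nat.pow_le_pow_right (by norm_num) (Nat.div_le_self _ _)).trans (Nat.pow_log_le_self 2 (by omega))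
    exact_mod_cast h2
  rw [mul_comm]
  exact mul_le_mul_of_nonneg_left h1 (by positivity)

theorem NN_pos (a p : ℕ) : 1 ≤ NN a p := Nat.one_le_two_pow

/-- the tail of the sum at one time -/
theorem up_tail {κ : Type} [Fintype κ] [DecidableEq κ] {al : κ → ℝ} {f : κ → ℝ → ℝ} (hf : ∀ k, Continuous (f k)) (hper : ∀ k, Function.Periodic (f k) 1)
    (hb : ∀ k x, |f k x| ≤ 1) {lam : ℝ} {c : κ → ℕ × ℕ} (hc : Function.Injective c) {s s' u w : κ → ℝ} {a R : ℝ} (ha : 0 < a) (h1 : ∀ k, a ≤ |R * s k|) (t : ℝ) :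
    (PP nu1).real {x | t < lam * Ms al f (Ph s s' u w c R x) - Cs al f lam} ≤ exp (-t) * (1 + 1 / a) ^ Fintype.card κ := by
  obtain ⟨Y, hY⟩ : ∃ Y : (κ → ℝ) → ℝ, Y = Yw al f lam 0 0 := ⟨_, rfl⟩
  have hYc : Continuous Y := by rw [hY]; exact Yw_cont hf lam 0 0
  have hYe : ∀ z, Y z = exp (lam * Ms al f z - Cs al f lam) := fun z => by
    rw [hY]
    unfold Yw
    congr 1
    ring
  have hYp : ∀ z i, Y (Function.update z i (z i + 1)) = Y z := fun z i => by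
    rw [hY]
    exact Yw_per hper lam 0 0 z i
  have hY0 : ∀ z, 0 ≤ Y z := fun z => by rw [hYe]; exact (exp_pos _).le
  obtain ⟨B, hB⟩ : ∃ B : ℝ, B = exp (|lam| * ∑ k, |al k| - Cs al f lam) := ⟨_, rfl⟩
  have hYB : ∀ z, Y z ≤ B := fun z => by
    rw [hYe, hB, exp_le_exp]
    have h2 := Ms_bd (al := al) hb z
    have h3 : lam * Ms al f z ≤ |lam| * ∑ k, |al k| := by
      calc lam * Ms al f z ≤ |lam * Ms al f z| := le_abs_self _
        _ = |lam| * |Ms al f z| := abs_mul _ _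
        _ ≤ _ := mul_le_mul_of_nonneg_left h2 (abs_nonneg _)
    linarith
  have hYi : Integrable Y (Measure.pi fun _ : κ => uI) := int_bd hYc.measurable (B := B) fun z => by
    rw [abs_of_nonneg (hY0 z)]
    exact hYB z
  have hm : ∫ z, Y z ∂(Measure.pi fun _ : κ => uI) = 1 := by
    have e : ∀ z, Y z = exp (-Cs al f lam) * exp (lam * Ms al f z) := fun z => by
      rw [hYe, ← exp_add]
      congr 1
      ring
    simp only [e]
    rw [integral_const_mul, mgf hf, ← exp_add, neg_add_cancel, exp_zero]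
  have hyl : ∫⁻ z, ENNReal.ofReal (Y z) ∂(Measure.pi fun _ : κ => uI) = 1 := by
    rw [← ofReal_integral_eq_lintegral_ofReal hYi (Filter.Eventually.of_forall hY0), hm, ENNReal.ofReal_one]
  have g1 := time_up (A := fun k => R * s k) (B := fun k => R * s' k) (b := fun k => R * u k + w k) ha h1 hc
    (F := fun z => ENNReal.ofReal (Y z)) hYc.measurable.ennreal_ofReal (fun z k => by simp only [hYp])
  rw [hyl, mul_one, ← ENNReal.ofReal_pow (by positivity)] at g1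
  have hZm : Measurable fun x : Om => Y (Ph s s' u w c R x) := hYc.measurable.comp (Ph_meas s s' u w c R)
  have hZi : Integrable (fun x : Om => Y (Ph s s' u w c R x)) (PP nu1) := Integrable.of_bound hZm.aestronglyMeasurable B (Filter.Eventually.of_forall fun x => by
    rw [Real.norm_eq_abs, abs_of_nonneg (hY0 _)]
    exact hYB _)
  have g2 : ∫ x, Y (Ph s s' u w c R x) ∂(PP nu1) ≤ (1 + 1 / a) ^ Fintype.card κ := by
    have g3 : ENNReal.ofReal (∫ x, Y (Ph s s' u w c R x) ∂(PP nu1)) ≤ ENNReal.ofReal ((1 + 1 / a) ^ Fintype.card κ) := by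
      rw [ofReal_integral_eq_lintegral_ofReal hZi (Filter.Eventually.of_forall fun x => hY0 _)]
      exact g1
    exact (ENNReal.ofReal_le_ofReal_iff (by positivity)).1 g3
  have hmk := mul_meas_ge_le_integral_of_nonneg (μ := PP nu1) (Filter.Eventually.of_forall fun x => hY0 (Ph s s' u w c R x)) hZi (exp t)
  have hsub : {x | t < lam * Ms al f (Ph s s' u w c R x) - Cs al f lam} ⊆ {x | exp t ≤ Y (Ph s s' u w c R x)} := by
    intro x hx
    show exp t ≤ Y _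
    rw [hYe, exp_le_exp]
    exact le_of_lt hx
  have h3 := measureReal_mono (μ := PP nu1) hsub
  have h4 : exp t * (PP nu1).real {x | t < lam * Ms al f (Ph s s' u w c R x) - Cs al f lam} ≤ (1 + 1 / a) ^ Fintype.card κ :=
    (mul_le_mul_of_nonneg_left h3 (exp_pos _).le).trans (hmk.trans g2)
  rw [exp_neg, inv_mul_eq_div, le_div_iff₀ (exp_pos _), mul_comm]
  exact h4

variable {H₀ : ℝ → ℝ}

/-- the tail at one time and one centre -/
theorem up_pt (h2 : ContDiff ℝ 2 H₀) {τ : ℝ} (hτ : τ ≠ 0) (σ : ℝ) {N l : ℕ} (hl : 20 * (N : ℝ) ^ 2 ≤ 16 ^ l) {R : ℝ} (hR : 0 < R) (c : ℝ × ℝ) (lam t : ℝ) :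
    (PP nu1).real {ω | CX σ (Hx H₀ τ ω) N lam + t < lam * (σ * Mx (Hx H₀ τ ω) N R c)} ≤
      exp (-t) * (1 + 1 / (R * (|τ| / (2 * 2 ^ (21 * l))))) ^ (prim N).card := by
  have ht : 0 < |τ| := abs_pos.2 hτ
  have ha : 0 < R * (|τ| / (2 * 2 ^ (21 * l))) := by positivity
  refine prob_le (FF l (Ix N l)) ?_ (by positivity) fun ω => ?_
  · exact (isOpen_lt ((CX_cont h2 τ σ N lam).add continuous_const) (continuous_const.mul (continuous_const.mul (Mx_cont h2 τ N R c)))).measurableSet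
  · have h1 := up_tail (al := aal σ (Hx H₀ τ (upd (FF l (Ix N l)) om0 ω)) N) (f := ff N) (fun k => fJ_cont _) (fun k => fJ_per _) (fun k x => fJ_bd _ x) (lam := lam)
      (cc_inj hl) (s := ss τ l N) (s' := ss' τ l N) (u := uu (Hx H₀ τ (upd (FF l (Ix N l)) om0 ω)) N) (w := ww c N) (R := R) ha
      (fun k => by
        rw [abs_mul, abs_of_pos hR]
        exact mul_le_mul_of_nonneg_left (ss_low k) hR.le) t
    rw [Fintype.card_coe] at h1
    refine le_trans (le_of_eq ?_) h1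
    congr 1
    ext x
    simp only [mem_ofPred_eq]
    rw [rep_CX h2 τ σ hl x ω lam, rep_Mx h2 τ σ hl x ω R c]
    constructor <;> intro h <;> linarith

/-- grid points -/
theorem grid {x : ℝ} {s : ℝ} {M q : ℕ} (h1 : s ≤ x) (h2 : x ≤ s + M) : ∃ i < M * 2 ^ q + 1, |x - (s + i / 2 ^ q)| ≤ 1 / 2 ^ q := by
  have hq : (0 : ℝ) < 2 ^ q := by positivity
  refine ⟨⌊(x - s) * 2 ^ q⌋₊, ?_, ?_⟩
  · have h3 : (x - s) * 2 ^ q ≤ ((M * 2 ^ q : ℕ) : ℝ) := by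
      push_cast
      exact mul_le_mul_of_nonneg_right (by linarith) hq.le
    have h4 := Nat.floor_le_floor h3
    rw [Nat.floor_natCast] at h4
    omega
  · have h0 : 0 ≤ (x - s) * 2 ^ q := mul_nonneg (by linarith) hq.le
    have h3 := Nat.floor_le h0
    have h4 := Nat.lt_floor_add_one ((x - s) * 2 ^ q)
    have e : x - (s + (⌊(x - s) * 2 ^ q⌋₊ : ℝ) / 2 ^ q) = ((x - s) * 2 ^ q - ⌊(x - s) * 2 ^ q⌋₊) / 2 ^ q := by
      field_simp
      ring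
    rw [e, abs_div, abs_of_pos hq, div_le_div_iff_of_pos_right hq, abs_of_nonneg (by linarith)]
    linarith

theorem ev_small (K B : ℝ) (a : ℕ) {ell ε θ : ℝ} (hε : 0 < ε) (hθ : 0 < θ) : ∃ p₀ : ℕ, 1 ≤ p₀ ∧ ∀ p : ℕ, p₀ ≤ p →
    ell * Lx p ^ (3 / 4 : ℝ) * (36 * sqrt K * (1 + |B|) * (NN a p : ℝ) ^ 4 * (3 / 2 ^ (θ * p))) ≤ ε * Lx p := by
  obtain ⟨p₀, hp₀⟩ := poly_le (|ell| * (108 * sqrt K * (1 + |B|) * (2 ^ a) ^ 4) / (ε * log 2)) 5 hθ
  refine ⟨p₀ + 2, by omega, fun p hp => ?_⟩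
  have h1 := hp₀ p (by omega)
  have hp1 : (1 : ℝ) ≤ p := by
    have : 1 ≤ p := by omega
    exact_mod_cast this
  have hl2 : 0 < log 2 := log_pos (by norm_num)
  have hl3 : log 2 ≤ 1 := by
    have := Real.log_two_lt_d9
    linarith
  have hL0 : 0 < Lx p := by unfold Lx; positivity
  have hL1 : Lx p ^ (3 / 4 : ℝ) ≤ p := by
    rcases le_total 1 (Lx p) with h | h
    · calc Lx p ^ (3 / 4 : ℝ) ≤ Lx p ^ (1 : ℝ) := rpow_le_rpow_of_exponent_le h (by norm_num)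
        _ = p * log 2 := by rw [rpow_one]; rfl
        _ ≤ p * 1 := mul_le_mul_of_nonneg_left hl3 (by linarith)
        _ = p := mul_one _
    · exact (rpow_le_one hL0.le h (by norm_num)).trans hp1
  have hN : (NN a p : ℝ) ^ 4 ≤ (2 ^ a) ^ 4 * (p : ℝ) ^ 4 := by
    rw [← mul_pow]
    exact pow_le_pow_left₀ (Nat.cast_nonneg _) (NN_le a (by omega)) 4
  have h2 : (0 : ℝ) < 2 ^ (θ * p) := by positivity
  have h3 : ell * Lx p ^ (3 / 4 : ℝ) ≤ |ell| * p := by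
    calc ell * Lx p ^ (3 / 4 : ℝ) ≤ |ell| * Lx p ^ (3 / 4 : ℝ) := mul_le_mul_of_nonneg_right (le_abs_self _) (by positivity)
      _ ≤ _ := mul_le_mul_of_nonneg_left hL1 (abs_nonneg _)
  calc ell * Lx p ^ (3 / 4 : ℝ) * (36 * sqrt K * (1 + |B|) * (NN a p : ℝ) ^ 4 * (3 / 2 ^ (θ * p)))
      ≤ |ell| * p * (36 * sqrt K * (1 + |B|) * ((2 ^ a) ^ 4 * (p : ℝ) ^ 4) * (3 / 2 ^ (θ * p))) := by
        refine mul_le_mul h3 ?_ (by positivity) (by positivity)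
        gcongr
    _ = |ell| * (108 * sqrt K * (1 + |B|) * (2 ^ a) ^ 4) / (ε * log 2) * (p : ℝ) ^ 5 * (ε * log 2) / 2 ^ (θ * p) := by
        field_simp
        ring
    _ ≤ 2 ^ (θ * p) * (ε * log 2) / 2 ^ (θ * p) := by gcongr
    _ = ε * log 2 := by field_simp
    _ ≤ ε * Lx p := by
        unfold Lx
        have : ε * log 2 * 1 ≤ ε * log 2 * p := mul_le_mul_of_nonneg_left hp1 (by positivity)
        linarith

/-- the level used for the upper bound -/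
theorem level_up (a : ℕ) {τ : ℝ} (hτ : τ ≠ 0) : ∃ p₀ : ℕ, 1 ≤ p₀ ∧ ∀ p : ℕ, p₀ ≤ p → ∃ l : ℕ, 20 * (NN a p : ℝ) ^ 2 ≤ 16 ^ l ∧
    ∀ R : ℝ, 2 ^ p ≤ R → (1 + 1 / (R * (|τ| / (2 * 2 ^ (21 * l))))) ^ (prim (NN a p)).card ≤ 2 := by
  have ht : 0 < |τ| := abs_pos.2 hτ
  obtain ⟨p₁, hp₁⟩ := poly_le (16 * (20 * (2 ^ a) ^ 2)) 2 (θ := 1 / 25) (by norm_num)
  obtain ⟨p₂, hp₂⟩ := poly_le (36 * (2 ^ a) ^ 2 / |τ|) 2 (θ := 79 / 100) (by norm_num)
  refine ⟨p₁ + p₂ + 1, by omega, fun p hp => ⟨p / 100, ?_, fun R hR => ?_⟩⟩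
  · have h1 := hp₁ p (by omega)
    have hN : (NN a p : ℝ) ^ 2 ≤ (2 ^ a) ^ 2 * (p : ℝ) ^ 2 := by
      rw [← mul_pow]
      exact pow_le_pow_left₀ (Nat.cast_nonneg _) (NN_le a (by omega)) 2
    have h2 : (2 : ℝ) ^ (1 / 25 * (p : ℝ)) ≤ 16 * 16 ^ (p / 100) := by
      have e : (16 : ℝ) * 16 ^ (p / 100) = 2 ^ ((4 + 4 * (p / 100) : ℕ) : ℝ) := by
        rw [rpow_natCast, pow_add, pow_mul]
        norm_num
      rw [e]
      refine rpow_le_rpow_of_exponent_le (by norm_num) ?_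
      have h3 : p < 100 * (p / 100) + 100 := by omega
      have h4 : (p : ℝ) < 100 * ((p / 100 : ℕ) : ℝ) + 100 := by exact_mod_cast h3
      push_cast
      linarith
    linarith
  · have h1 := hp₂ p (by omega)
    have hN : ((prim (NN a p)).card : ℝ) ≤ 9 * (2 ^ a) ^ 2 * (p : ℝ) ^ 2 := by
      refine (prim_card _).trans ?_
      rw [mul_assoc, ← mul_pow]
      exact mul_le_mul_of_nonneg_left (pow_le_pow_left₀ (Nat.cast_nonneg _) (NN_le a (by omega)) 2) (by norm_num)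
    have h2 : (2 : ℝ) ^ (79 / 100 * (p : ℝ)) * 2 ^ (21 * (p / 100)) ≤ R := by
      refine le_trans ?_ hR
      rw [← rpow_natCast 2 (21 * (p / 100)), ← rpow_natCast 2 p, ← rpow_add (by norm_num)]
      refine rpow_le_rpow_of_exponent_le (by norm_num) ?_
      have h3 : 100 * (p / 100) ≤ p := by omega
      have h4 : 100 * ((p / 100 : ℕ) : ℝ) ≤ p := by exact_mod_cast h3
      push_cast
      linarith
    have hR0 : 0 < R := lt_of_lt_of_le (by positivity) hR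
    obtain ⟨A, hA⟩ : ∃ A : ℝ, A = R * (|τ| / (2 * 2 ^ (21 * (p / 100)))) := ⟨_, rfl⟩
    have hA0 : 0 < A := by rw [hA]; positivity
    rw [← hA]
    have h5 : 2 ^ (79 / 100 * (p : ℝ)) * (|τ| / 2) ≤ A := by
      rw [hA]
      calc (2 : ℝ) ^ (79 / 100 * (p : ℝ)) * (|τ| / 2) = (2 : ℝ) ^ (79 / 100 * (p : ℝ)) * 2 ^ (21 * (p / 100)) * (|τ| / (2 * 2 ^ (21 * (p / 100)))) := by
            field_simp
        _ ≤ _ := mul_le_mul_of_nonneg_right h2 (by positivity)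
    have h6 : ((prim (NN a p)).card : ℝ) ≤ A / 2 := by
      have h7 : 36 * (2 ^ a) ^ 2 * (p : ℝ) ^ 2 ≤ 2 ^ (79 / 100 * (p : ℝ)) * |τ| := by
        have e : 36 * (2 ^ a) ^ 2 / |τ| * (p : ℝ) ^ 2 = 36 * (2 ^ a) ^ 2 * (p : ℝ) ^ 2 / |τ| := by ring
        rw [e, div_le_iff₀ ht] at h1
        exact h1
      linarith
    calc (1 + 1 / A) ^ (prim (NN a p)).card ≤ exp (1 / A) ^ (prim (NN a p)).card := by
          refine pow_le_pow_left₀ (by positivity) ?_ _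
          have := add_one_le_exp (1 / A)
          linarith
      _ = exp ((prim (NN a p)).card * (1 / A)) := by rw [← exp_nat_mul]
      _ ≤ exp (1 / 2) := by
          rw [exp_le_exp, mul_one_div, div_le_iff₀ hA0]
          linarith
      _ ≤ 2 := by
          have h8 : exp (1 / 2) ^ 2 ≤ 2 ^ 2 := by
            rw [← exp_nat_mul]
            norm_num
            have := exp_one_lt_d9
            linarith
          exact le_of_pow_le_pow_left₀ (by norm_num) (by norm_num) h8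

theorem upper (h2 : ContDiff ℝ 2 H₀) (hp : Function.Periodic H₀ (2 * π)) {τ : ℝ} (hτ : τ ≠ 0) {σ : ℝ} (hσ : |σ| = 1) (a : ℕ) {ell ε : ℝ} (hell : 0 < ell) (hε : 0 < ε) :
    ∀ᵐ ω ∂(PP nu1), ∃ p₀ : ℕ, ∀ p : ℕ, p₀ ≤ p → ∀ R ∈ Icc ((2 : ℝ) ^ p) (2 ^ (p + 1)), ∀ c : ℝ × ℝ,
      σ * (ell * Lx p ^ (3 / 4 : ℝ)) * Mx (Hx H₀ τ ω) (NN a p) R c ≤ CX σ (Hx H₀ τ ω) (NN a p) (ell * Lx p ^ (3 / 4 : ℝ)) + (1 + ε) * Lx p := by
  obtain ⟨K, B, hK1, hB0, hKB⟩ := hx_bd h2 hp τ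
  obtain ⟨θ, hθ⟩ : ∃ θ : ℝ, θ = ε / 12 := ⟨_, rfl⟩
  have hθ0 : 0 < θ := by rw [hθ]; positivity
  obtain ⟨p₁, hp₁1, hp₁⟩ := ev_small K B a (ell := ell) (ε := ε / 2) (θ := θ) (by positivity) hθ0
  obtain ⟨p₂, hp₂1, hp₂⟩ := level_up a hτ
  have hl2 : 0 < log 2 := log_pos (by norm_num)
  -- the bad sets
  obtain ⟨q, hq⟩ : ∃ q : ℕ → ℕ, q = fun p : ℕ => ⌈θ * (p : ℝ)⌉₊ := ⟨_, rfl⟩
  obtain ⟨A, hA⟩ : ∃ A : ℕ → ℕ × ℕ × ℕ → Set Om, A = fun p v => {ω | CX σ (Hx H₀ τ ω) (NN a p) (ell * Lx p ^ (3 / 4 : ℝ)) + (1 + ε / 2) * Lx p <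
    (ell * Lx p ^ (3 / 4 : ℝ)) * (σ * Mx (Hx H₀ τ ω) (NN a p) (2 ^ p + v.1 / 2 ^ q p) (0 + v.2.1 / 2 ^ q p, 0 + v.2.2 / 2 ^ q p))} := ⟨_, rfl⟩
  obtain ⟨I, hI⟩ : ∃ I : ℕ → Finset (ℕ × ℕ × ℕ), I = fun p => Finset.range (2 ^ p * 2 ^ q p + 1) ×ˢ (Finset.range (1 * 2 ^ q p + 1) ×ˢ Finset.range (1 * 2 ^ q p + 1)) := ⟨_, rfl⟩
  obtain ⟨E, hE⟩ : ∃ E : ℕ → Set Om, E = fun p => ⋃ v ∈ I p, A p v := ⟨_, rfl⟩
  have hmeas : ∀ p, p₂ ≤ p → (PP nu1).real (E p) ≤ 256 * (2 : ℝ) ^ (-(ε / 4 * p)) := by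
    intro p hpp
    obtain ⟨l, hl, hl'⟩ := hp₂ p hpp
    have h1 : ∀ v ∈ I p, (PP nu1).real (A p v) ≤ exp (-((1 + ε / 2) * Lx p)) * 2 := by
      intro v _
      rw [hA]
      have hR : (2 : ℝ) ^ p ≤ 2 ^ p + v.1 / 2 ^ q p := by
        have : (0 : ℝ) ≤ v.1 / 2 ^ q p := by positivity
        linarith
      refine (up_pt h2 hτ σ hl (lt_of_lt_of_le (by positivity) hR) _ _ _).trans ?_
      exact mul_le_mul_of_nonneg_left (hl' _ hR) (exp_pos _).le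
    rw [hE]
    refine (measureReal_biUnion_finset_le _ _).trans ((Finset.sum_le_sum h1).trans ?_)
    rw [Finset.sum_const, nsmul_eq_mul]
    have hqp : (q p : ℝ) ≤ θ * p + 1 := by
      rw [hq]
      exact (Nat.ceil_lt_add_one (by positivity)).le
    have hcard : ((I p).card : ℝ) ≤ 2 ^ (p + 3 * q p + 3 : ℝ) := by
      rw [hI]
      simp only [Finset.card_product, Finset.card_range, one_mul]
      have e1 : 1 ≤ 2 ^ q p := Nat.one_le_two_pow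
      have e2 : 1 ≤ 2 ^ p * 2 ^ q p := Nat.one_le_iff_ne_zero.2 (by positivity)
      have e3 : (2 ^ p * 2 ^ q p + 1) * ((2 ^ q p + 1) * (2 ^ q p + 1)) ≤ (2 * (2 ^ p * 2 ^ q p)) * ((2 * 2 ^ q p) * (2 * 2 ^ q p)) := by
        gcongr <;> omega
      have e4 : (((2 ^ p * 2 ^ q p + 1) * ((2 ^ q p + 1) * (2 ^ q p + 1)) : ℕ) : ℝ) ≤ (((2 * (2 ^ p * 2 ^ q p)) * ((2 * 2 ^ q p) * (2 * 2 ^ q p)) : ℕ) : ℝ) := by exact_mod_cast e3
      refine e4.trans (le_of_eq ?_)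
      rw [show (p : ℝ) + 3 * (q p : ℝ) + 3 = ((p + 3 * q p + 3 : ℕ) : ℝ) by push_cast; ring, rpow_natCast]
      push_cast
      ring
    have hexp : exp (-((1 + ε / 2) * Lx p)) = 2 ^ (-((1 + ε / 2) * p) : ℝ) := by
      rw [rpow_def_of_pos (by norm_num)]
      congr 1
      unfold Lx
      ring
    rw [hexp]
    calc ((I p).card : ℝ) * (2 ^ (-((1 + ε / 2) * p) : ℝ) * 2) ≤ 2 ^ (p + 3 * q p + 3 : ℝ) * (2 ^ (-((1 + ε / 2) * p) : ℝ) * 2) :=
          mul_le_mul_of_nonneg_right hcard (by positivity)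
      _ = 2 ^ (p + 3 * q p + 3 + (-((1 + ε / 2) * p)) + 1 : ℝ) := by
          rw [rpow_add (by norm_num : (0 : ℝ) < 2) _ 1, rpow_add (by norm_num : (0 : ℝ) < 2) (p + 3 * q p + 3 : ℝ), rpow_one]
          ring
      _ ≤ 2 ^ (8 + -(ε / 4 * p) : ℝ) := by
          refine rpow_le_rpow_of_exponent_le (by norm_num) ?_
          rw [hθ] at hqp
          linarith
      _ = _ := by
          rw [rpow_add (by norm_num)]
          norm_num
  have hsum : ∑' p, (PP nu1) (E (p + p₂)) ≠ ⊤ := by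
    have hr0 : 0 < (2 : ℝ) ^ (-(ε / 4)) := by positivity
    have hr1 : (2 : ℝ) ^ (-(ε / 4)) < 1 := rpow_lt_one_of_one_lt_of_neg (by norm_num) (by linarith)
    have hs : Summable fun p : ℕ => 256 * (2 : ℝ) ^ (-(ε / 4 * ((p + p₂ : ℕ) : ℝ))) := by
      have e : ∀ p : ℕ, 256 * (2 : ℝ) ^ (-(ε / 4 * ((p + p₂ : ℕ) : ℝ))) = 256 * (2 : ℝ) ^ (-(ε / 4 * p₂)) * ((2 : ℝ) ^ (-(ε / 4))) ^ p := by
        intro p
        rw [← rpow_natCast, ← rpow_mul (by norm_num), mul_assoc, ← rpow_add (by norm_num)]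
        congr 2
        push_cast
        ring
      simp only [e]
      exact (summable_geometric_of_lt_one hr0.le hr1).mul_left _
    refine ne_top_of_le_ne_top (ENNReal.ofReal_ne_top (r := ∑' p : ℕ, 256 * (2 : ℝ) ^ (-(ε / 4 * ((p + p₂ : ℕ) : ℝ))))) ?_
    rw [ENNReal.ofReal_tsum_of_nonneg (fun p => by positivity) hs]
    refine ENNReal.tsum_le_tsum fun p => ?_
    rw [← ENNReal.ofReal_toReal (measure_ne_top (PP nu1) (E (p + p₂)))]
    exact ENNReal.ofReal_le_ofReal (hmeas (p + p₂) (by omega))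
  filter_upwards [ae_eventually_notMem hsum] with ω hω
  obtain ⟨p₃, hp₃⟩ := Filter.eventually_atTop.1 hω
  refine ⟨p₁ + p₂ + p₃, fun p hpp R hR c => ?_⟩
  have hnot : ω ∉ E p := by
    have h1 := hp₃ (p - p₂) (by omega)
    rwa [Nat.sub_add_cancel (by omega)] at h1
  obtain ⟨i, hi, hi'⟩ := grid (x := R) (s := 2 ^ p) (M := 2 ^ p) (q := q p) hR.1 (by
    have := hR.2
    rw [pow_succ] at this
    push_cast
    linarith)
  obtain ⟨j, hj, hj'⟩ := grid (x := Int.fract c.1) (s := 0) (M := 1) (q := q p) (Int.fract_nonneg _) (by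
    have := (Int.fract_lt_one c.1).le
    push_cast
    linarith)
  obtain ⟨j₂, hj₂, hj₂'⟩ := grid (x := Int.fract c.2) (s := 0) (M := 1) (q := q p) (Int.fract_nonneg _) (by
    have := (Int.fract_lt_one c.2).le
    push_cast
    linarith)
  have hmem : (i, j, j₂) ∈ I p := by
    rw [hI]
    simp only [Finset.mem_product, Finset.mem_range]
    exact ⟨hi, hj, hj₂⟩
  have hgood : ω ∉ A p (i, j, j₂) := fun h => hnot (by
    rw [hE]
    exact mem_biUnion hmem h)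
  rw [hA] at hgood
  simp only [mem_ofPred_eq, not_lt] at hgood
  -- comparison with the grid point
  have hper := Mx_per (Hx H₀ τ ω) (NN a p) R (Int.fract c.1, Int.fract c.2) ⌊c.1⌋ ⌊c.2⌋
  simp only [Int.fract_add_floor] at hper
  have hce : Mx (Hx H₀ τ ω) (NN a p) R c = Mx (Hx H₀ τ ω) (NN a p) R (Int.fract c.1, Int.fract c.2) := hper
  have hlip := Mx_lip (hKB ω).1 (hKB ω).2 (NN_pos a p) R (2 ^ p + i / 2 ^ q p) (Int.fract c.1, Int.fract c.2) (0 + j / 2 ^ q p, 0 + j₂ / 2 ^ q p)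
  have hD : |R - (2 ^ p + (i : ℝ) / 2 ^ q p)| + |Int.fract c.1 - (0 + (j : ℝ) / 2 ^ q p)| + |Int.fract c.2 - (0 + (j₂ : ℝ) / 2 ^ q p)| ≤ 3 / 2 ^ (θ * p) := by
    have h1 : (2 : ℝ) ^ (θ * p) ≤ 2 ^ q p := by
      rw [← rpow_natCast 2 (q p)]
      refine rpow_le_rpow_of_exponent_le (by norm_num) ?_
      rw [hq]
      exact Nat.le_ceil _
    have h3 : (3 : ℝ) / 2 ^ q p ≤ 3 / 2 ^ (θ * p) := div_le_div_of_nonneg_left (by norm_num) (by positivity) h1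
    have h4 : (1 : ℝ) / 2 ^ q p + 1 / 2 ^ q p + 1 / 2 ^ q p = 3 / 2 ^ q p := by ring
    linarith
  have hN1 : (0 : ℝ) ≤ NN a p := Nat.cast_nonneg _
  have hlip2 : |Mx (Hx H₀ τ ω) (NN a p) R c - Mx (Hx H₀ τ ω) (NN a p) (2 ^ p + i / 2 ^ q p) (0 + j / 2 ^ q p, 0 + j₂ / 2 ^ q p)| ≤
      36 * sqrt K * (1 + |B|) * (NN a p : ℝ) ^ 4 * (3 / 2 ^ (θ * p)) := by
    rw [hce]
    refine hlip.trans ?_
    rw [abs_of_nonneg hB0]
    exact mul_le_mul_of_nonneg_left hD (by positivity)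
  have hlam : 0 ≤ ell * Lx p ^ (3 / 4 : ℝ) := by
    have : 0 ≤ Lx p := by unfold Lx; positivity
    positivity
  have hsm := hp₁ p (by omega)
  have hfin : (ell * Lx p ^ (3 / 4 : ℝ)) * (σ * Mx (Hx H₀ τ ω) (NN a p) R c) ≤
      (ell * Lx p ^ (3 / 4 : ℝ)) * (σ * Mx (Hx H₀ τ ω) (NN a p) (2 ^ p + i / 2 ^ q p) (0 + j / 2 ^ q p, 0 + j₂ / 2 ^ q p)) + ε / 2 * Lx p := by
    have h1 : σ * Mx (Hx H₀ τ ω) (NN a p) R c - σ * Mx (Hx H₀ τ ω) (NN a p) (2 ^ p + i / 2 ^ q p) (0 + j / 2 ^ q p, 0 + j₂ / 2 ^ q p) ≤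
        36 * sqrt K * (1 + |B|) * (NN a p : ℝ) ^ 4 * (3 / 2 ^ (θ * p)) := by
      rw [← mul_sub]
      refine (le_abs_self _).trans ?_
      rw [abs_mul, hσ, one_mul]
      exact hlip2
    have h3 := mul_le_mul_of_nonneg_left h1 hlam
    rw [mul_sub] at h3
    linarith
  calc σ * (ell * Lx p ^ (3 / 4 : ℝ)) * Mx (Hx H₀ τ ω) (NN a p) R c = (ell * Lx p ^ (3 / 4 : ℝ)) * (σ * Mx (Hx H₀ τ ω) (NN a p) R c) := by ring
    _ ≤ _ := hfin
    _ ≤ _ := by linarith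

end Pool.Agent.Helper93.EX
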