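import Pool.Agent.Helper93.EX.Lower

/-!
# EX4: the almost sure upper bound for the measure of the large values
-/

open MeasureTheory Set Real

set_option autoImplicit false

namespace Pool.Agent.Helper93.EX

open Pool.Agent.Helper93.AO
open Pool.Agent.Helper22.AE (rho nk tk box cz)

/-- Markov's inequality for the number of events that occur -/
theorem count_markov {Ω ι : Type} [MeasurableSpace Ω] {μ : Measure Ω} [IsProbabilityMeasure μ] {J : Finset ι} {A : ι → Set Ω} (hA : ∀ j ∈ J, MeasurableSet (A j)) {b : ℝ}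
    (hb : ∀ j ∈ J, μ.real (A j) ≤ b) {Th : ℝ} (hTh : 0 < Th) : μ.real {ω | Th ≤ ∑ j ∈ J, (A j).indicator (fun _ => (1 : ℝ)) ω} ≤ J.card * b / Th := by
  have hi : ∀ j ∈ J, Integrable ((A j).indicator fun _ => (1 : ℝ)) μ := fun j hj => (integrable_const (1 : ℝ)).indicator (hA j hj)
  have h0 : ∀ ω, 0 ≤ ∑ j ∈ J, (A j).indicator (fun _ => (1 : ℝ)) ω := fun ω => Finset.sum_nonneg fun j _ => indicator_nonneg (fun _ _ => zero_le_one) _
  have hm := mul_meas_ge_le_integral_of_nonneg (μ := μ) (f := fun ω => ∑ j ∈ J, (A j).indicator (fun _ => (1 : ℝ)) ω) (Filter.Eventually.of_forall h0)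
    (integrable_finsetSum _ hi) Th
  have hs : ∫ ω, ∑ j ∈ J, (A j).indicator (fun _ => (1 : ℝ)) ω ∂μ ≤ J.card * b := by
    rw [integral_finsetSum _ hi]
    calc ∑ j ∈ J, ∫ ω, (A j).indicator (fun _ => (1 : ℝ)) ω ∂μ ≤ ∑ _j ∈ J, b := by
          refine Finset.sum_le_sum fun j hj => ?_
          rw [integral_indicator (hA j hj), setIntegral_const, smul_eq_mul, mul_one]
          exact hb j hj
      _ = _ := by rw [Finset.sum_const, nsmul_eq_mul]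
  rw [le_div_iff₀ hTh, mul_comm]
  exact hm.trans hs

theorem cover_vol {G : Finset ℕ} {x : ℕ → ℝ} {δ : ℝ} (hδ : 0 ≤ δ) {S : Set ℝ} (hS : S ⊆ ⋃ j ∈ G, Icc (x j - δ) (x j + δ)) : volume.real S ≤ G.card * (2 * δ) := by
  have h1 : volume.real (⋃ j ∈ G, Icc (x j - δ) (x j + δ)) ≤ G.card * (2 * δ) := by
    refine (measureReal_biUnion_finset_le _ _).trans ?_
    calc ∑ j ∈ G, volume.real (Icc (x j - δ) (x j + δ)) ≤ ∑ _j ∈ G, 2 * δ := by
          refine Finset.sum_le_sum fun j _ => ?_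
          rw [Real.volume_real_Icc_of_le (by linarith)]
          linarith
      _ = _ := by rw [Finset.sum_const, nsmul_eq_mul]
  refine (measureReal_mono hS ?_).trans h1
  refine ((measure_biUnion_finset_le _ _).trans_lt ?_).ne
  exact ENNReal.sum_lt_top.2 fun j _ => measure_Icc_lt_top

variable {H₀ : ℝ → ℝ}

theorem upper4 (h2 : ContDiff ℝ 2 H₀) (hp : Function.Periodic H₀ (2 * π)) {τ : ℝ} (hτ : τ ≠ 0) {σ : ℝ} (hσ : |σ| = 1) (a : ℕ) {ell s ε : ℝ} (hell : 0 < ell) (hε : 0 < ε) :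
    ∀ᵐ ω ∂(PP nu1), ∃ p₀ : ℕ, ∀ p : ℕ, p₀ ≤ p → ∀ c : ℝ × ℝ,
      volume.real {R : ℝ | R ∈ Icc ((2 : ℝ) ^ p) (2 ^ (p + 1)) ∧ CX σ (Hx H₀ τ ω) (NN a p) (ell * Lx p ^ (3 / 4 : ℝ)) + s * Lx p ≤
        σ * (ell * Lx p ^ (3 / 4 : ℝ)) * Mx (Hx H₀ τ ω) (NN a p) R c} ≤ 2 ^ ((1 - s + ε) * p : ℝ) := by
  obtain ⟨K, B, hK1, hB0, hKB⟩ := hx_bd h2 hp τ
  obtain ⟨θ, hθ⟩ : ∃ θ : ℝ, θ = ε / 16 := ⟨_, rfl⟩
  have hθ0 : 0 < θ := by rw [hθ]; positivity
  obtain ⟨p₁, hp₁1, hp₁⟩ := ev_small K B a (ell := ell) (ε := ε / 4) (θ := θ) (by positivity) hθ0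
  obtain ⟨p₂, hp₂1, hp₂⟩ := level_up a hτ
  have hl2 : 0 < log 2 := log_pos (by norm_num)
  obtain ⟨q, hq⟩ : ∃ q : ℕ → ℕ, q = fun p : ℕ => ⌈θ * (p : ℝ)⌉₊ := ⟨_, rfl⟩
  -- the events
  obtain ⟨A, hA⟩ : ∃ A : ℕ → ℕ × ℕ → ℕ → Set Om, A = fun (p : ℕ) (v : ℕ × ℕ) (i : ℕ) => {ω | CX σ (Hx H₀ τ ω) (NN a p) (ell * Lx p ^ (3 / 4 : ℝ)) + (s - ε / 2) * Lx p <
    (ell * Lx p ^ (3 / 4 : ℝ)) * (σ * Mx (Hx H₀ τ ω) (NN a p) (2 ^ p + (i : ℝ) / 2 ^ q p) (0 + (v.1 : ℝ) / 2 ^ q p, 0 + (v.2 : ℝ) / 2 ^ q p))} := ⟨_, rfl⟩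
  have hAm : ∀ p v i, MeasurableSet (A p v i) := fun p v i => by
    rw [hA]
    exact (isOpen_lt ((CX_cont h2 τ σ _ _).add continuous_const) (continuous_const.mul (continuous_const.mul (Mx_cont h2 τ _ _ _)))).measurableSet
  obtain ⟨J, hJ⟩ : ∃ J : ℕ → Finset ℕ, J = fun p => Finset.range (2 ^ p * 2 ^ q p + 1) := ⟨_, rfl⟩
  obtain ⟨Th, hTh⟩ : ∃ Th : ℕ → ℝ, Th = fun p : ℕ => (2 : ℝ) ^ q p * 2 ^ ((1 - s + ε) * p : ℝ) / 2 := ⟨_, rfl⟩
  have hTh0 : ∀ p, 0 < Th p := fun p => by rw [hTh]; positivity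
  obtain ⟨D, hD⟩ : ∃ D : ℕ → ℕ × ℕ → Set Om, D = fun p v => {ω | Th p ≤ ∑ i ∈ J p, (A p v i).indicator (fun _ => (1 : ℝ)) ω} := ⟨_, rfl⟩
  obtain ⟨I, hI⟩ : ∃ I : ℕ → Finset (ℕ × ℕ), I = fun p => Finset.range (1 * 2 ^ q p + 1) ×ˢ Finset.range (1 * 2 ^ q p + 1) := ⟨_, rfl⟩
  obtain ⟨E, hE⟩ : ∃ E : ℕ → Set Om, E = fun p => ⋃ v ∈ I p, D p v := ⟨_, rfl⟩
  have hmeas : ∀ p, p₂ ≤ p → (PP nu1).real (E p) ≤ 128 * (2 : ℝ) ^ (-(ε / 4 * p)) := by
    intro p hpp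
    obtain ⟨l, hl, hl'⟩ := hp₂ p hpp
    have hexp : exp (-((s - ε / 2) * Lx p)) = 2 ^ (-((s - ε / 2) * p) : ℝ) := by
      rw [rpow_def_of_pos (by norm_num)]
      congr 1
      unfold Lx
      ring
    have h1 : ∀ v ∈ I p, (PP nu1).real (D p v) ≤ 8 * (2 : ℝ) ^ (-(ε / 2 * p)) := by
      intro v _
      have h3 : ∀ i ∈ J p, (PP nu1).real (A p v i) ≤ 2 ^ (-((s - ε / 2) * p) : ℝ) * 2 := by
        intro i _
        have hR : (2 : ℝ) ^ p ≤ 2 ^ p + i / 2 ^ q p := by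
          have : (0 : ℝ) ≤ i / 2 ^ q p := by positivity
          linarith
        rw [hA]
        refine (up_pt h2 hτ σ hl (lt_of_lt_of_le (by positivity) hR) _ _ _).trans ?_
        rw [← hexp]
        exact mul_le_mul_of_nonneg_left (hl' _ hR) (exp_pos _).le
      rw [hD]
      refine (count_markov (fun i _ => hAm p v i) h3 (hTh0 p)).trans ?_
      rw [div_le_iff₀ (hTh0 p)]
      have hcard : ((J p).card : ℝ) ≤ 2 * (2 ^ p * 2 ^ q p) := by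
        rw [hJ]
        simp only [Finset.card_range]
        push_cast
        have : (1 : ℝ) ≤ 2 ^ p * 2 ^ q p := one_le_mul_of_one_le_of_one_le (one_le_pow₀ (by norm_num)) (one_le_pow₀ (by norm_num))
        linarith
      calc ((J p).card : ℝ) * (2 ^ (-((s - ε / 2) * p) : ℝ) * 2) ≤ 2 * (2 ^ p * 2 ^ q p) * (2 ^ (-((s - ε / 2) * p) : ℝ) * 2) :=
            mul_le_mul_of_nonneg_right hcard (by positivity)
        _ = 4 * 2 ^ q p * (2 ^ (p : ℝ) * 2 ^ (-((s - ε / 2) * p) : ℝ)) := by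
            rw [rpow_natCast]
            ring
        _ = 4 * 2 ^ q p * (2 ^ (-(ε / 2 * p) : ℝ) * 2 ^ ((1 - s + ε) * p : ℝ)) := by
            rw [← rpow_add (by norm_num), ← rpow_add (by norm_num)]
            congr 2
            ring
        _ = 8 * (2 : ℝ) ^ (-(ε / 2 * p)) * Th p := by
            rw [hTh]
            ring
    rw [hE]
    refine (measureReal_biUnion_finset_le _ _).trans ((Finset.sum_le_sum h1).trans ?_)
    rw [Finset.sum_const, nsmul_eq_mul]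
    have hqp : (q p : ℝ) ≤ θ * p + 1 := by
      rw [hq]
      exact (Nat.ceil_lt_add_one (by positivity)).le
    have hcard : ((I p).card : ℝ) ≤ 2 ^ (2 * q p + 2 : ℝ) := by
      rw [hI]
      simp only [Finset.card_product, Finset.card_range, one_mul]
      have e1' : 1 ≤ 2 ^ q p := Nat.one_le_two_pow
      have e3' : (2 ^ q p + 1) * (2 ^ q p + 1) ≤ (2 * 2 ^ q p) * (2 * 2 ^ q p) := by
        gcongr <;> omega
      have e4 : (((2 ^ q p + 1) * (2 ^ q p + 1) : ℕ) : ℝ) ≤ (((2 * 2 ^ q p) * (2 * 2 ^ q p) : ℕ) : ℝ) := by exact_mod_cast e3'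
      refine e4.trans (le_of_eq ?_)
      rw [show 2 * (q p : ℝ) + 2 = ((2 * q p + 2 : ℕ) : ℝ) by push_cast; ring, rpow_natCast]
      push_cast
      ring
    calc ((I p).card : ℝ) * (8 * (2 : ℝ) ^ (-(ε / 2 * p))) ≤ 2 ^ (2 * q p + 2 : ℝ) * (8 * (2 : ℝ) ^ (-(ε / 2 * p))) :=
          mul_le_mul_of_nonneg_right hcard (by positivity)
      _ = 8 * (2 : ℝ) ^ (2 * q p + 2 + -(ε / 2 * p) : ℝ) := by
          rw [rpow_add (by norm_num : (0 : ℝ) < 2) (2 * q p + 2 : ℝ)]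
          ring
      _ ≤ 8 * (2 : ℝ) ^ (4 + -(ε / 4 * p) : ℝ) := by
          refine mul_le_mul_of_nonneg_left (two_rpow_le ?_) (by norm_num)
          rw [hθ] at hqp
          have : 0 ≤ ε * p := by positivity
          linarith
      _ = _ := by
          rw [rpow_add (by norm_num)]
          norm_num
          ring
  filter_upwards [bcl (by norm_num) (by positivity) hmeas] with ω hω
  obtain ⟨p₃, hp₃⟩ := hω
  refine ⟨p₁ + p₂ + p₃, fun p hpp c => ?_⟩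
  have hnot := hp₃ p (by omega)
  obtain ⟨j, hj, hj'⟩ := grid (x := Int.fract c.1) (s := 0) (M := 1) (q := q p) (Int.fract_nonneg _) (by
    have := (Int.fract_lt_one c.1).le
    push_cast
    linarith)
  obtain ⟨j₂, hj₂, hj₂'⟩ := grid (x := Int.fract c.2) (s := 0) (M := 1) (q := q p) (Int.fract_nonneg _) (by
    have := (Int.fract_lt_one c.2).le
    push_cast
    linarith)
  have hmem : (j, j₂) ∈ I p := by
    rw [hI]
    simp only [Finset.mem_product, Finset.mem_range]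
    exact ⟨hj, hj₂⟩
  have hgood : ω ∉ D p (j, j₂) := fun h => hnot (by
    rw [hE]
    exact mem_biUnion hmem h)
  rw [hD] at hgood
  simp only [mem_ofPred_eq, not_le] at hgood
  classical
  obtain ⟨G, hG⟩ : ∃ G : Finset ℕ, G = (J p).filter fun i => ω ∈ A p (j, j₂) i := ⟨_, rfl⟩
  have hGc : (G.card : ℝ) < Th p := by
    refine lt_of_eq_of_lt ?_ hgood
    rw [hG, Finset.card_filter]
    push_cast
    exact Finset.sum_congr rfl fun i _ => by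
      rw [indicator_apply]
  have hq2 : (2 : ℝ) ^ (θ * p) ≤ 2 ^ q p := by
    rw [← rpow_natCast 2 (q p)]
    refine two_rpow_le ?_
    rw [hq]
    exact Nat.le_ceil _
  have hlam : 0 ≤ ell * Lx p ^ (3 / 4 : ℝ) := by
    have : 0 ≤ Lx p := by unfold Lx; positivity
    positivity
  have hL0 : 0 < Lx p := by
    unfold Lx
    have : 1 ≤ p := by omega
    have : (1 : ℝ) ≤ p := by exact_mod_cast this
    positivity
  have hsm := hp₁ p (by omega)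
  have hcov : {R : ℝ | R ∈ Icc ((2 : ℝ) ^ p) (2 ^ (p + 1)) ∧ CX σ (Hx H₀ τ ω) (NN a p) (ell * Lx p ^ (3 / 4 : ℝ)) + s * Lx p ≤
        σ * (ell * Lx p ^ (3 / 4 : ℝ)) * Mx (Hx H₀ τ ω) (NN a p) R c} ⊆ ⋃ i ∈ G, Icc ((2 ^ p + (i : ℝ) / 2 ^ q p) - 1 / 2 ^ q p) ((2 ^ p + (i : ℝ) / 2 ^ q p) + 1 / 2 ^ q p) := by
    rintro R ⟨hR, hev⟩
    obtain ⟨i, hi, hi'⟩ := grid (x := R) (s := 2 ^ p) (M := 2 ^ p) (q := q p) hR.1 (by
      have := hR.2
      rw [pow_succ] at this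
      push_cast
      linarith)
    have hper := Mx_per (Hx H₀ τ ω) (NN a p) R (Int.fract c.1, Int.fract c.2) ⌊c.1⌋ ⌊c.2⌋
    simp only [Int.fract_add_floor] at hper
    have hce : Mx (Hx H₀ τ ω) (NN a p) R c = Mx (Hx H₀ τ ω) (NN a p) R (Int.fract c.1, Int.fract c.2) := hper
    have hlip := Mx_lip (hKB ω).1 (hKB ω).2 (NN_pos a p) R (2 ^ p + i / 2 ^ q p) (Int.fract c.1, Int.fract c.2) (0 + j / 2 ^ q p, 0 + j₂ / 2 ^ q p)
    have hDD : |R - (2 ^ p + (i : ℝ) / 2 ^ q p)| + |Int.fract c.1 - (0 + (j : ℝ) / 2 ^ q p)| + |Int.fract c.2 - (0 + (j₂ : ℝ) / 2 ^ q p)| ≤ 3 / 2 ^ (θ * p) := by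
      have h3 : (3 : ℝ) / 2 ^ q p ≤ 3 / 2 ^ (θ * p) := div_le_div_of_nonneg_left (by norm_num) (by positivity) hq2
      have h4 : (1 : ℝ) / 2 ^ q p + 1 / 2 ^ q p + 1 / 2 ^ q p = 3 / 2 ^ q p := by ring
      linarith
    have hlip2 : |Mx (Hx H₀ τ ω) (NN a p) R c - Mx (Hx H₀ τ ω) (NN a p) (2 ^ p + i / 2 ^ q p) (0 + j / 2 ^ q p, 0 + j₂ / 2 ^ q p)| ≤
        36 * sqrt K * (1 + |B|) * (NN a p : ℝ) ^ 4 * (3 / 2 ^ (θ * p)) := by
      rw [hce]
      refine hlip.trans ?_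
      rw [abs_of_nonneg hB0]
      exact mul_le_mul_of_nonneg_left hDD (by positivity)
    have hAi : ω ∈ A p (j, j₂) i := by
      rw [hA]
      show CX σ (Hx H₀ τ ω) (NN a p) (ell * Lx p ^ (3 / 4 : ℝ)) + (s - ε / 2) * Lx p <
        (ell * Lx p ^ (3 / 4 : ℝ)) * (σ * Mx (Hx H₀ τ ω) (NN a p) (2 ^ p + i / 2 ^ q p) (0 + j / 2 ^ q p, 0 + j₂ / 2 ^ q p))
      have h1 : σ * Mx (Hx H₀ τ ω) (NN a p) R c - σ * Mx (Hx H₀ τ ω) (NN a p) (2 ^ p + i / 2 ^ q p) (0 + j / 2 ^ q p, 0 + j₂ / 2 ^ q p) ≤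
          36 * sqrt K * (1 + |B|) * (NN a p : ℝ) ^ 4 * (3 / 2 ^ (θ * p)) := by
        rw [← mul_sub]
        refine (le_abs_self _).trans ?_
        rw [abs_mul, hσ, one_mul]
        exact hlip2
      have h3 := mul_le_mul_of_nonneg_left h1 hlam
      rw [mul_sub] at h3
      have h4 : σ * (ell * Lx p ^ (3 / 4 : ℝ)) * Mx (Hx H₀ τ ω) (NN a p) R c = (ell * Lx p ^ (3 / 4 : ℝ)) * (σ * Mx (Hx H₀ τ ω) (NN a p) R c) := by ring
      rw [h4] at hev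
      have h5 : 0 < ε * Lx p := by positivity
      linarith
    have hiG : i ∈ G := by
      rw [hG, Finset.mem_filter, hJ, Finset.mem_range]
      exact ⟨hi, hAi⟩
    refine mem_biUnion hiG ?_
    have h6 := abs_le.1 hi'
    constructor <;> linarith [h6.1, h6.2]
  refine (cover_vol (by positivity) hcov).trans ?_
  have h7 : (G.card : ℝ) * (2 * (1 / 2 ^ q p)) ≤ Th p * (2 * (1 / 2 ^ q p)) := mul_le_mul_of_nonneg_right hGc.le (by positivity)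
  refine h7.trans (le_of_eq ?_)
  rw [hTh]
  field_simp

end Pool.Agent.Helper93.EX
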